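import Pool.Agent.H48.R9.Defs

/-!
mono9: u^(9-i) v^(9-i) w^(2i) = (uv)^(9-2i) (vw)^i (wu)^i ≤ max(uv,vw,wu)^9 ≤ the sum (i ≤ 4).
W9_bound: with p = ⟪a,b⟫, q = pr a b, |p| ≤ ‖a‖‖b‖, |q| ≤ ‖a‖‖b‖‖a-b‖², every term of W9 is a constant times
u^(9-i+α+β) v^(9-i+α+β) p^α q^β w^(2i+2β), i ≤ 4, so it is bounded by the constant times the sum.
-/

set_option autoImplicit false

open MeasureTheory Filter Topology Metric Set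
open scoped RealInnerProductSpace ENNReal

namespace Pool.Agent.H48.R9

open Pool.Agent.RZ Pool.Agent.H1.LD Pool.Agent.H48.R7

variable {d : ℕ}

private theorem R9Mono_pow {a b c : ℝ} (ha : 0 ≤ a) (hb : 0 ≤ b) (hc : 0 ≤ c) {i j k : ℕ}
    (h : i + j + k = 9) : a ^ i * b ^ j * c ^ k ≤ a ^ 9 + c ^ 9 + b ^ 9 := by
  obtain ⟨M, hM⟩ : ∃ M, M = max a (max b c) := ⟨_, rfl⟩
  have h1 : a ≤ M := by rw [hM]; exact le_max_left _ _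
  have h2 : b ≤ M := by rw [hM]; exact (le_max_left _ _).trans (le_max_right _ _)
  have h3 : c ≤ M := by rw [hM]; exact (le_max_right _ _).trans (le_max_right _ _)
  have hM0 : 0 ≤ M := ha.trans h1
  have h4 : a ^ i * b ^ j * c ^ k ≤ M ^ i * M ^ j * M ^ k := by
    refine mul_le_mul (mul_le_mul (pow_le_pow_left₀ ha h1 i) (pow_le_pow_left₀ hb h2 j)
      (pow_nonneg hb j) (pow_nonneg hM0 i)) (pow_le_pow_left₀ hc h3 k) (pow_nonneg hc k) ?_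
    exact mul_nonneg (pow_nonneg hM0 i) (pow_nonneg hM0 j)
  rw [← pow_add, ← pow_add, h] at h4
  have p1 := pow_nonneg ha 9
  have p2 := pow_nonneg hb 9
  have p3 := pow_nonneg hc 9
  have h5 : M = a ∨ M = b ∨ M = c := by
    rw [hM]
    rcases max_choice a (max b c) with e | e
    · exact Or.inl e
    · rcases max_choice b c with e' | e'
      · exact Or.inr (Or.inl (e.trans e'))
      · exact Or.inr (Or.inr (e.trans e'))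
  rcases h5 with e | e | e <;> rw [e] at h4 <;> linarith

theorem mono9 {u v w : ℝ} (hu : 0 ≤ u) (hv : 0 ≤ v) (hw : 0 ≤ w) {i : ℕ} (hi : i ≤ 4) :
    u ^ (9 - i) * v ^ (9 - i) * w ^ (2 * i) ≤ u ^ 9 * v ^ 9 + u ^ 9 * w ^ 9 + v ^ 9 * w ^ 9 := by
  have hA : 0 ≤ u * v := mul_nonneg hu hv
  have hB : 0 ≤ v * w := mul_nonneg hv hw
  have hC : 0 ≤ u * w := mul_nonneg hu hw
  have h1 := R9Mono_pow (i := 9 - 2 * i) (j := i) (k := i) hA hB hC (by omega)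
  have e : (u * v) ^ 9 + (u * w) ^ 9 + (v * w) ^ 9
      = u ^ 9 * v ^ 9 + u ^ 9 * w ^ 9 + v ^ 9 * w ^ 9 := by ring
  rw [e] at h1
  refine le_trans (le_of_eq ?_) h1
  interval_cases i <;> ring

private theorem R9Mono_term {x y c p q : ℝ} (hx : 0 < x) (hy : 0 < y) (hc : 0 < c)
    (hp : |p| ≤ x * y) (hq : |q| ≤ x * y * c ^ 2) (i α β : ℕ) (hi : i ≤ 4) :
    |x⁻¹ ^ (9 - i + α + β) * y⁻¹ ^ (9 - i + α + β) * p ^ α * q ^ β * c⁻¹ ^ (2 * i + 2 * β)| ≤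
      x⁻¹ ^ 9 * y⁻¹ ^ 9 + x⁻¹ ^ 9 * c⁻¹ ^ 9 + y⁻¹ ^ 9 * c⁻¹ ^ 9 := by
  have hu : 0 ≤ x⁻¹ := by positivity
  have hv : 0 ≤ y⁻¹ := by positivity
  have hw : 0 ≤ c⁻¹ := by positivity
  have e : x⁻¹ ^ (9 - i + α + β) * y⁻¹ ^ (9 - i + α + β) * p ^ α * q ^ β * c⁻¹ ^ (2 * i + 2 * β) =
      (x⁻¹ ^ (9 - i) * y⁻¹ ^ (9 - i) * c⁻¹ ^ (2 * i)) *
        ((x⁻¹ * y⁻¹ * p) ^ α * (x⁻¹ * y⁻¹ * c⁻¹ ^ 2 * q) ^ β) := by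
    generalize 9 - i = k
    rw [pow_add, pow_add, pow_add, pow_add, pow_add, mul_pow, mul_pow, mul_pow, mul_pow, mul_pow,
      ← pow_mul]
    ring
  have b1 : |x⁻¹ * y⁻¹ * p| ≤ 1 := by
    rw [abs_mul, abs_of_nonneg (mul_nonneg hu hv)]
    calc x⁻¹ * y⁻¹ * |p| ≤ x⁻¹ * y⁻¹ * (x * y) :=
          mul_le_mul_of_nonneg_left hp (mul_nonneg hu hv)
      _ = 1 := by field_simp
  have b2 : |x⁻¹ * y⁻¹ * c⁻¹ ^ 2 * q| ≤ 1 := by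
    have h0 : 0 ≤ x⁻¹ * y⁻¹ * c⁻¹ ^ 2 := by positivity
    rw [abs_mul, abs_of_nonneg h0]
    calc x⁻¹ * y⁻¹ * c⁻¹ ^ 2 * |q| ≤ x⁻¹ * y⁻¹ * c⁻¹ ^ 2 * (x * y * c ^ 2) :=
          mul_le_mul_of_nonneg_left hq h0
      _ = 1 := by field_simp
  have h0 : 0 ≤ x⁻¹ ^ (9 - i) * y⁻¹ ^ (9 - i) * c⁻¹ ^ (2 * i) := by positivity
  rw [e, abs_mul, abs_of_nonneg h0, abs_mul, abs_pow, abs_pow]
  have b3 : |x⁻¹ * y⁻¹ * p| ^ α * |x⁻¹ * y⁻¹ * c⁻¹ ^ 2 * q| ^ β ≤ 1 :=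
    mul_le_one₀ (pow_le_one₀ (abs_nonneg _) b1) (pow_nonneg (abs_nonneg _) _)
      (pow_le_one₀ (abs_nonneg _) b2)
  calc x⁻¹ ^ (9 - i) * y⁻¹ ^ (9 - i) * c⁻¹ ^ (2 * i) *
        (|x⁻¹ * y⁻¹ * p| ^ α * |x⁻¹ * y⁻¹ * c⁻¹ ^ 2 * q| ^ β)
      ≤ x⁻¹ ^ (9 - i) * y⁻¹ ^ (9 - i) * c⁻¹ ^ (2 * i) * 1 := mul_le_mul_of_nonneg_left b3 h0
    _ = x⁻¹ ^ (9 - i) * y⁻¹ ^ (9 - i) * c⁻¹ ^ (2 * i) := mul_one _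
    _ ≤ _ := mono9 hu hv hw hi

private theorem R9Mono_bd {u v w p q S : ℝ} (hS : 0 ≤ S)
    (h : ∀ i α β : ℕ, i ≤ 4 →
      |u ^ (9 - i + α + β) * v ^ (9 - i + α + β) * p ^ α * q ^ β * w ^ (2 * i + 2 * β)| ≤ S) :
    |1 / 16 * (u ^ 8 * v ^ 8 * p ^ 0 * (-(1 / 2) * w ^ 2 + p * w ^ 4 + 4 * q * w ^ 6)) +
      (1 / 128 * (u ^ 8 * v ^ 8 * p ^ 1 * (-2 * w ^ 4 + 2 * p * w ^ 6 + 12 * q * w ^ 8)) +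
      (103 / 96 * (u ^ 12 * v ^ 12 * p ^ 3 * (p * w ^ 2 + 2 * q * w ^ 4)) +
      (137 / 48 * (u ^ 12 * v ^ 12 * p ^ 4 *
        (-(1 / 2) * w ^ 2 + p * w ^ 4 + 4 * q * w ^ 6)) +
      (125 / 96 * (u ^ 12 * v ^ 12 * p ^ 5 * (-2 * w ^ 4 + 2 * p * w ^ 6 + 12 * q * w ^ 8)) +
      (7 / 48 * (u ^ 12 * v ^ 12 * p ^ 6 * (-9 * w ^ 6 + 6 * p * w ^ 8 + 48 * q * w ^ 10)) +
      1 / 192 * (u ^ 10 * v ^ 10 * p ^ 3 * (8 * w ^ 4 - 110 * p * w ^ 6 - 240 * q * w ^ 8 +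
        36 * p ^ 2 * w ^ 8 + 576 * q * p * w ^ 10 + 960 * q ^ 2 * w ^ 12)))))))| ≤ 1000 * S := by
  obtain ⟨l1, r1⟩ := abs_le.1 (h 1 0 0 (by norm_num))
  obtain ⟨l2, r2⟩ := abs_le.1 (h 2 1 0 (by norm_num))
  obtain ⟨l3, r3⟩ := abs_le.1 (h 2 0 1 (by norm_num))
  obtain ⟨l4, r4⟩ := abs_le.1 (h 3 2 0 (by norm_num))
  obtain ⟨l5, r5⟩ := abs_le.1 (h 3 1 1 (by norm_num))
  obtain ⟨l6, r6⟩ := abs_le.1 (h 1 4 0 (by norm_num))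
  obtain ⟨l7, r7⟩ := abs_le.1 (h 1 3 1 (by norm_num))
  obtain ⟨l8, r8⟩ := abs_le.1 (h 2 5 0 (by norm_num))
  obtain ⟨l9, r9⟩ := abs_le.1 (h 2 4 1 (by norm_num))
  obtain ⟨l10, r10⟩ := abs_le.1 (h 3 6 0 (by norm_num))
  obtain ⟨l11, r11⟩ := abs_le.1 (h 3 5 1 (by norm_num))
  obtain ⟨l12, r12⟩ := abs_le.1 (h 4 7 0 (by norm_num))
  obtain ⟨l13, r13⟩ := abs_le.1 (h 4 6 1 (by norm_num))
  obtain ⟨l14, r14⟩ := abs_le.1 (h 2 3 0 (by norm_num))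
  obtain ⟨l15, r15⟩ := abs_le.1 (h 3 4 0 (by norm_num))
  obtain ⟨l16, r16⟩ := abs_le.1 (h 3 3 1 (by norm_num))
  obtain ⟨l17, r17⟩ := abs_le.1 (h 4 5 0 (by norm_num))
  obtain ⟨l18, r18⟩ := abs_le.1 (h 4 4 1 (by norm_num))
  obtain ⟨l19, r19⟩ := abs_le.1 (h 4 3 2 (by norm_num))
  norm_num at l1 r1 l2 r2 l3 r3 l4 r4 l5 r5 l6 r6 l7 r7 l8 r8 l9 r9 l10 r10
  norm_num at l11 r11 l12 r12 l13 r13 l14 r14 l15 r15 l16 r16 l17 r17 l18 r18 l19 r19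
  rw [abs_le]
  constructor <;> linarith

theorem W9_bound {a b : X d} (ha : a ≠ 0) (hb : b ≠ 0) (h : a ≠ b) :
    |W9 a b| ≤ 1000 * (‖a‖⁻¹ ^ 9 * ‖b‖⁻¹ ^ 9 + ‖a‖⁻¹ ^ 9 * ‖a - b‖⁻¹ ^ 9 +
      ‖b‖⁻¹ ^ 9 * ‖a - b‖⁻¹ ^ 9) := by
  have hx : 0 < ‖a‖ := norm_pos_iff.2 ha
  have hy : 0 < ‖b‖ := norm_pos_iff.2 hb
  have hc : 0 < ‖a - b‖ := norm_pos_iff.2 (sub_ne_zero.2 h)
  have hp : |⟪a, b⟫| ≤ ‖a‖ * ‖b‖ := abs_real_inner_le_norm a b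
  have hP : |⟪a, a - b⟫| ≤ ‖a‖ * ‖a - b‖ := abs_real_inner_le_norm _ _
  have hR : |⟪b, b - a⟫| ≤ ‖b‖ * ‖a - b‖ := by
    rw [norm_sub_rev a b]
    exact abs_real_inner_le_norm _ _
  have hq : |pr a b| ≤ ‖a‖ * ‖b‖ * ‖a - b‖ ^ 2 := by
    unfold pr
    rw [abs_mul]
    calc |⟪a, a - b⟫| * |⟪b, b - a⟫| ≤ (‖a‖ * ‖a - b‖) * (‖b‖ * ‖a - b‖) :=
          mul_le_mul hP hR (abs_nonneg _) (by positivity)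
      _ = ‖a‖ * ‖b‖ * ‖a - b‖ ^ 2 := by ring
  have h2 : 0 ≤ ‖a‖⁻¹ ^ 9 * ‖b‖⁻¹ ^ 9 + ‖a‖⁻¹ ^ 9 * ‖a - b‖⁻¹ ^ 9 +
      ‖b‖⁻¹ ^ 9 * ‖a - b‖⁻¹ ^ 9 := by positivity
  exact R9Mono_bd h2 fun i α β hi => R9Mono_term hx hy hc hp hq i α β hi

end Pool.Agent.H48.R9
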