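import Pool.Agent.H48.R9.TimA
import Pool.Agent.H48.R9.Mono

/-!
sla (template: sl1, sl2 in R7/EnB.lean): for pairwise different z, p.1, p.2 put u = ‖p.1-z‖⁻¹, v = ‖p.2-z‖⁻¹, w = ‖p.1-p.2‖⁻¹
((p.1-z)-(p.2-z) = p.1-p.2), |⟪⟫|^j ≤ (‖a‖‖b‖)^j, 2m - j = 9 - k.
k = 0,1,2,3 by cases (interval_cases k): mta_int0, mta_int1, mta_int2 (R7/Tim.lean; they are stated for mta 1, mta 2 with t⁻¹^3,
t⁻¹^5: casts ((1:ℕ):ℝ) = 1, 2*1+1 = 3), mta_int3: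
∫|fa| ≤ u^(9-k) v^(9-k) (c w^(2k) + c' u⁻¹v⁻¹ w^(2k+2)) with c + c' ≤ 200, both monomials are ≤ S9 by mono9 (i = k and
i = k+1); for k = 0: u⁹v⁹ · 3 u⁻¹v⁻¹w² = 3u⁸v⁸w².
-/

set_option autoImplicit false

open MeasureTheory Filter Topology Metric Set
open scoped RealInnerProductSpace ENNReal

namespace Pool.Agent.H48.R9

open Pool.Agent.RZ Pool.Agent.H1.LD Pool.Agent.H48.R7

variable {d : ℕ}

private theorem Sla_mta {k : ℕ} (hk : k ≤ 3) {a b : X d} (h : a ≠ b) :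
    IntegrableOn (fun t : ℝ => mta k a b t * t⁻¹ ^ (2 * k + 1)) (Ioi 0) ∧
    ∫ t in Ioi (0 : ℝ), mta k a b t * t⁻¹ ^ (2 * k + 1) = ik k a b ∧
    ∃ c c' : ℝ, 0 ≤ c ∧ 0 ≤ c' ∧ c + c' ≤ 200 ∧
      ∫ t in Ioi (0 : ℝ), |mta k a b t * t⁻¹ ^ (2 * k + 1)| ≤
        c * ‖a - b‖⁻¹ ^ (2 * k) + c' * (‖a‖ * ‖b‖) * ‖a - b‖⁻¹ ^ (2 * (k + 1)) := by
  interval_cases k
  · obtain ⟨m1, m2, m3⟩ := mta_int0 h
    refine ⟨m1, m2, 0, 3, le_rfl, by norm_num, by norm_num, m3.trans (le_of_eq ?_)⟩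
    simp only [Nat.reduceMul, Nat.reduceAdd]
    ring
  · obtain ⟨m1, m2, m3⟩ := mta_int1 h
    simp only [Nat.cast_one, Nat.reduceMul, Nat.reduceAdd]
    exact ⟨m1, m2, 2, 5, by norm_num, by norm_num, by norm_num, m3⟩
  · obtain ⟨m1, m2, m3⟩ := mta_int2 h
    simp only [Nat.cast_ofNat, Nat.reduceMul, Nat.reduceAdd]
    exact ⟨m1, m2, 6, 14, by norm_num, by norm_num, by norm_num, m3⟩
  · obtain ⟨m1, m2, m3⟩ := mta_int3 h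
    exact ⟨m1, m2, 27, 54, by norm_num, by norm_num, by norm_num, m3⟩

private theorem Sla_pow {x : ℝ} (hx : 0 < x) (j e : ℕ) : x⁻¹ ^ (j + e) * x ^ j = x⁻¹ ^ e := by
  rw [pow_add, mul_right_comm, ← mul_pow, inv_mul_cancel₀ hx.ne', one_pow, one_mul]

theorem sla {m j k : ℕ} (hk : k ≤ 3) (hm : 2 * m + k = j + 9) {z : X d} {p : X d × X d}
    (hp : p.1 ≠ z ∧ p.2 ≠ z ∧ p.1 ≠ p.2) :
    IntegrableOn (fun t : ℝ => fa m j k z p t) (Ioi 0) ∧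
    ∫ t in Ioi (0 : ℝ), fa m j k z p t =
      ‖p.1 - z‖⁻¹ ^ (2 * m) * ‖p.2 - z‖⁻¹ ^ (2 * m) * ⟪p.1 - z, p.2 - z⟫ ^ j *
        ik k (p.1 - z) (p.2 - z) ∧
    ∫ t in Ioi (0 : ℝ), ‖fa m j k z p t‖ ≤ 200 * S9 (z, p) := by
  obtain ⟨h1, h2, h3⟩ := hp
  have hab : p.1 - z ≠ p.2 - z := fun e => h3 (sub_left_injective e)
  obtain ⟨m1, m2, c, c', hc0, hc1, hcc, m3⟩ := Sla_mta hk hab
  have ef : ∀ t : ℝ, fa m j k z p t =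
      (‖p.1 - z‖⁻¹ ^ (2 * m) * ‖p.2 - z‖⁻¹ ^ (2 * m) * ⟪p.1 - z, p.2 - z⟫ ^ j) *
        (mta k (p.1 - z) (p.2 - z) t * t⁻¹ ^ (2 * k + 1)) :=
    fun t => rfl
  refine ⟨?_, ?_, ?_⟩
  · simp only [ef]
    exact m1.const_mul _
  · simp only [ef]
    rw [integral_const_mul, m2]
  · have ha : 0 < ‖p.1 - z‖ := norm_pos_iff.2 (sub_ne_zero.2 h1)
    have hb : 0 < ‖p.2 - z‖ := norm_pos_iff.2 (sub_ne_zero.2 h2)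
    have hc : 0 < ‖p.1 - p.2‖ := norm_pos_iff.2 (sub_ne_zero.2 h3)
    have ef' : ∀ t : ℝ, ‖fa m j k z p t‖ =
        ‖‖p.1 - z‖⁻¹ ^ (2 * m) * ‖p.2 - z‖⁻¹ ^ (2 * m) * ⟪p.1 - z, p.2 - z⟫ ^ j‖ *
          |mta k (p.1 - z) (p.2 - z) t * t⁻¹ ^ (2 * k + 1)| := by
      intro t
      rw [ef, norm_mul, Real.norm_eq_abs (mta _ _ _ _ * _)]
    simp only [ef']
    rw [integral_const_mul]
    rw [sub_sub_sub_cancel_right] at m3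
    have k1 := mono9 (u := ‖p.1 - z‖⁻¹) (v := ‖p.2 - z‖⁻¹) (w := ‖p.1 - p.2‖⁻¹)
      (by positivity) (by positivity) (by positivity) (i := k) (by omega)
    have k2 := mono9 (u := ‖p.1 - z‖⁻¹) (v := ‖p.2 - z‖⁻¹) (w := ‖p.1 - p.2‖⁻¹)
      (by positivity) (by positivity) (by positivity) (i := k + 1) (by omega)
    have e9 : S9 (z, p) = ‖p.1 - z‖⁻¹ ^ 9 * ‖p.2 - z‖⁻¹ ^ 9 +
        ‖p.1 - z‖⁻¹ ^ 9 * ‖p.1 - p.2‖⁻¹ ^ 9 + ‖p.2 - z‖⁻¹ ^ 9 * ‖p.1 - p.2‖⁻¹ ^ 9 := rfl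
    have hW : ‖‖p.1 - z‖⁻¹ ^ (2 * m) * ‖p.2 - z‖⁻¹ ^ (2 * m) * ⟪p.1 - z, p.2 - z⟫ ^ j‖ ≤
        ‖p.1 - z‖⁻¹ ^ (2 * m) * ‖p.2 - z‖⁻¹ ^ (2 * m) * (‖p.1 - z‖ * ‖p.2 - z‖) ^ j := by
      rw [norm_mul, Real.norm_of_nonneg (by positivity), norm_pow]
      gcongr
      exact norm_inner_le_norm _ _
    have em : 2 * m = j + (9 - k) := by omega
    have em' : 9 - k = (9 - (k + 1)) + 1 := by omega
    rw [← e9] at k1 k2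
    generalize S9 (z, p) = S at *
    have q1 : ‖p.1 - z‖⁻¹ ^ (2 * m) * ‖p.2 - z‖⁻¹ ^ (2 * m) * (‖p.1 - z‖ * ‖p.2 - z‖) ^ j =
        ‖p.1 - z‖⁻¹ ^ (9 - k) * ‖p.2 - z‖⁻¹ ^ (9 - k) := by
      rw [em, mul_pow, ← Sla_pow ha j (9 - k), ← Sla_pow hb j (9 - k)]
      ring
    have q2 : ‖p.1 - z‖⁻¹ ^ (9 - k) * ‖p.2 - z‖⁻¹ ^ (9 - k) * (‖p.1 - z‖ * ‖p.2 - z‖) =
        ‖p.1 - z‖⁻¹ ^ (9 - (k + 1)) * ‖p.2 - z‖⁻¹ ^ (9 - (k + 1)) := by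
      have q3 := Sla_pow ha 1 (9 - (k + 1))
      have q4 := Sla_pow hb 1 (9 - (k + 1))
      rw [add_comm 1, ← em', pow_one] at q3 q4
      rw [← q3, ← q4]
      ring
    calc _ ≤ ‖p.1 - z‖⁻¹ ^ (2 * m) * ‖p.2 - z‖⁻¹ ^ (2 * m) * (‖p.1 - z‖ * ‖p.2 - z‖) ^ j *
          (c * ‖p.1 - p.2‖⁻¹ ^ (2 * k) + c' * (‖p.1 - z‖ * ‖p.2 - z‖) * ‖p.1 - p.2‖⁻¹ ^ (2 * (k + 1))) :=
          mul_le_mul hW m3 (integral_nonneg fun t => abs_nonneg _) (by positivity)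
      _ = c * (‖p.1 - z‖⁻¹ ^ (9 - k) * ‖p.2 - z‖⁻¹ ^ (9 - k) * ‖p.1 - p.2‖⁻¹ ^ (2 * k)) +
          c' * (‖p.1 - z‖⁻¹ ^ (9 - (k + 1)) * ‖p.2 - z‖⁻¹ ^ (9 - (k + 1)) *
            ‖p.1 - p.2‖⁻¹ ^ (2 * (k + 1))) := by
          rw [q1, ← q2]
          ring
      _ ≤ c * S + c' * S := by gcongr
      _ ≤ 200 * S := by
          have hS : 0 ≤ S := le_trans (by positivity) k1
          rw [← add_mul]
          gcongr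

end Pool.Agent.H48.R9
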