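import Pool.Agent.H48.R9.TimB
import Pool.Agent.H48.R9.Mono

/-!
slb (template: sl2 in R7/EnB.lean): with u, v, w as in Sla: ∫|fb| ≤ u^10 v^10 (uv)^(-3) (104 w⁴ + 1090 u⁻¹v⁻¹w⁶ +
1572 u⁻²v⁻²w⁸) = 104 u⁷v⁷w⁴ + 1090 u⁶v⁶w⁶ + 1572 u⁵v⁵w⁸ ≤ 2766 S9 (mono9, i = 2, 3, 4; mtb_int).
-/

set_option autoImplicit false

open MeasureTheory Filter Topology Metric Set
open scoped RealInnerProductSpace ENNReal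

namespace Pool.Agent.H48.R9

open Pool.Agent.RZ Pool.Agent.H1.LD Pool.Agent.H48.R7

variable {d : ℕ}

theorem slb {z : X d} {p : X d × X d} (hp : p.1 ≠ z ∧ p.2 ≠ z ∧ p.1 ≠ p.2) :
    IntegrableOn (fun t : ℝ => fb z p t) (Ioi 0) ∧
    ∫ t in Ioi (0 : ℝ), fb z p t =
      ‖p.1 - z‖⁻¹ ^ 10 * ‖p.2 - z‖⁻¹ ^ 10 * ⟪p.1 - z, p.2 - z⟫ ^ 3 * j2 (p.1 - z) (p.2 - z) ∧
    ∫ t in Ioi (0 : ℝ), ‖fb z p t‖ ≤ 3000 * S9 (z, p) := by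
  obtain ⟨h1, h2, h3⟩ := hp
  have hab : p.1 - z ≠ p.2 - z := fun e => h3 (sub_left_injective e)
  obtain ⟨m1, m2, m3⟩ := mtb_int hab
  have ef : ∀ t : ℝ, fb z p t =
      (‖p.1 - z‖⁻¹ ^ 10 * ‖p.2 - z‖⁻¹ ^ 10 * ⟪p.1 - z, p.2 - z⟫ ^ 3) *
        (mtb (p.1 - z) (p.2 - z) t * t⁻¹ ^ 5) :=
    fun t => rfl
  refine ⟨?_, ?_, ?_⟩
  · simp only [ef]
    exact m1.const_mul _
  · simp only [ef]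
    rw [integral_const_mul, m2]
  · have ha : 0 < ‖p.1 - z‖ := norm_pos_iff.2 (sub_ne_zero.2 h1)
    have hb : 0 < ‖p.2 - z‖ := norm_pos_iff.2 (sub_ne_zero.2 h2)
    have hc : 0 < ‖p.1 - p.2‖ := norm_pos_iff.2 (sub_ne_zero.2 h3)
    have ef' : ∀ t : ℝ, ‖fb z p t‖ =
        ‖‖p.1 - z‖⁻¹ ^ 10 * ‖p.2 - z‖⁻¹ ^ 10 * ⟪p.1 - z, p.2 - z⟫ ^ 3‖ *
          |mtb (p.1 - z) (p.2 - z) t * t⁻¹ ^ 5| := by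
      intro t
      rw [ef, norm_mul, Real.norm_eq_abs (mtb _ _ _ * _)]
    simp only [ef']
    rw [integral_const_mul]
    rw [sub_sub_sub_cancel_right] at m3
    have k2 := mono9 (u := ‖p.1 - z‖⁻¹) (v := ‖p.2 - z‖⁻¹) (w := ‖p.1 - p.2‖⁻¹)
      (by positivity) (by positivity) (by positivity) (i := 2) (by norm_num)
    have k3 := mono9 (u := ‖p.1 - z‖⁻¹) (v := ‖p.2 - z‖⁻¹) (w := ‖p.1 - p.2‖⁻¹)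
      (by positivity) (by positivity) (by positivity) (i := 3) (by norm_num)
    have k4 := mono9 (u := ‖p.1 - z‖⁻¹) (v := ‖p.2 - z‖⁻¹) (w := ‖p.1 - p.2‖⁻¹)
      (by positivity) (by positivity) (by positivity) (i := 4) (by norm_num)
    norm_num at k2 k3 k4
    have e9 : S9 (z, p) = ‖p.1 - z‖⁻¹ ^ 9 * ‖p.2 - z‖⁻¹ ^ 9 +
        ‖p.1 - z‖⁻¹ ^ 9 * ‖p.1 - p.2‖⁻¹ ^ 9 + ‖p.2 - z‖⁻¹ ^ 9 * ‖p.1 - p.2‖⁻¹ ^ 9 := rfl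
    have hS : 0 ≤ S9 (z, p) := by rw [e9]; positivity
    have hW : ‖‖p.1 - z‖⁻¹ ^ 10 * ‖p.2 - z‖⁻¹ ^ 10 * ⟪p.1 - z, p.2 - z⟫ ^ 3‖ ≤
        ‖p.1 - z‖⁻¹ ^ 10 * ‖p.2 - z‖⁻¹ ^ 10 * (‖p.1 - z‖ * ‖p.2 - z‖) ^ 3 := by
      rw [norm_mul, Real.norm_of_nonneg (by positivity), norm_pow]
      gcongr
      exact norm_inner_le_norm _ _
    calc _ ≤ ‖p.1 - z‖⁻¹ ^ 10 * ‖p.2 - z‖⁻¹ ^ 10 * (‖p.1 - z‖ * ‖p.2 - z‖) ^ 3 *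
          (104 * ‖p.1 - p.2‖⁻¹ ^ 4 + 1090 * (‖p.1 - z‖ * ‖p.2 - z‖) * ‖p.1 - p.2‖⁻¹ ^ 6 +
            1572 * (‖p.1 - z‖ * ‖p.2 - z‖) ^ 2 * ‖p.1 - p.2‖⁻¹ ^ 8) :=
          mul_le_mul hW m3 (integral_nonneg fun t => abs_nonneg _) (by positivity)
      _ = 104 * (‖p.1 - z‖⁻¹ ^ 7 * ‖p.2 - z‖⁻¹ ^ 7 * ‖p.1 - p.2‖⁻¹ ^ 4) +
          1090 * (‖p.1 - z‖⁻¹ ^ 6 * ‖p.2 - z‖⁻¹ ^ 6 * ‖p.1 - p.2‖⁻¹ ^ 6) +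
          1572 * (‖p.1 - z‖⁻¹ ^ 5 * ‖p.2 - z‖⁻¹ ^ 5 * ‖p.1 - p.2‖⁻¹ ^ 8) := by
          field_simp
      _ ≤ 3000 * S9 (z, p) := by
          rw [e9] at hS ⊢
          simp only [inv_pow] at k2 k3 k4 hS ⊢
          linarith

end Pool.Agent.H48.R9
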