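import Pool.Agent.H48.R9.EnA
import Pool.Agent.H48.R9.Sla
import Pool.Agent.H48.R9.Slb

/-!
fa_int, fb_int: as fint1, fint2 in R7/EnB.lean (S9_int, ae9, sla, slb).
-/

set_option autoImplicit false

open MeasureTheory Filter Topology Metric Set
open scoped RealInnerProductSpace ENNReal

namespace Pool.Agent.H48.R9

open Pool.Agent.RZ Pool.Agent.H1.LD Pool.Agent.H48.R7

variable {d : ℕ}

private theorem R9EnB_gen {ν : Measure (X d)} (h : Nice9 ν) {f : X d → X d × X d → ℝ → ℝ}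
    {K : ℝ} (hf : Measurable fun q : X d × ((X d × X d) × ℝ) => f q.1 q.2.1 q.2.2)
    (hs : ∀ (z : X d) (p : X d × X d), (p.1 ≠ z ∧ p.2 ≠ z ∧ p.1 ≠ p.2) →
      IntegrableOn (fun t : ℝ => f z p t) (Ioi 0) ∧
        ∫ t in Ioi (0 : ℝ), ‖f z p t‖ ≤ K * S9 (z, p)) :
    Integrable (fun q : X d × ((X d × X d) × ℝ) => f q.1 q.2.1 q.2.2)
      (ν.prod ((ν.prod ν).prod (volume.restrict (Ioi 0)))) := by
  have := h.1
  refine ⟨hf.aestronglyMeasurable, ?_⟩
  have hae := Measure.ae_ae_of_ae_prod (ae9 h)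
  have hS : Measurable (S9 (d := d)) := by
    unfold S9
    fun_prop
  have h0 : ∫⁻ q : X d × ((X d × X d) × ℝ), ‖f q.1 q.2.1 q.2.2‖ₑ
      ∂(ν.prod ((ν.prod ν).prod (volume.restrict (Ioi 0)))) < ∞ := by
    rw [lintegral_prod _ hf.enorm.aemeasurable]
    calc _ ≤ ∫⁻ z, ∫⁻ p, ENNReal.ofReal (K * S9 (z, p)) ∂(ν.prod ν) ∂ν := by
          refine lintegral_mono_ae ?_
          filter_upwards [hae] with z hz
          have hm : Measurable fun r : (X d × X d) × ℝ => ‖f z r.1 r.2‖ₑ :=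
            (hf.comp (measurable_const.prodMk measurable_id)).enorm
          rw [lintegral_prod _ hm.aemeasurable]
          refine lintegral_mono_ae ?_
          filter_upwards [hz] with p hp
          obtain ⟨s1, s3⟩ := hs z p hp
          rw [← ofReal_integral_norm_eq_lintegral_enorm s1]
          exact ENNReal.ofReal_le_ofReal s3
      _ = ∫⁻ q : X d × (X d × X d), ENNReal.ofReal (K * S9 q) ∂(ν.prod (ν.prod ν)) := by
          rw [lintegral_prod _ (hS.const_mul K).ennreal_ofReal.aemeasurable]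
      _ < ∞ := ((S9_int h).const_mul K).lintegral_lt_top
  exact h0

theorem fa_int {ν : Measure (X d)} (h : Nice9 ν) {m j k : ℕ} (hk : k ≤ 3)
    (hm : 2 * m + k = j + 9) :
    Integrable (fun q : X d × ((X d × X d) × ℝ) => fa m j k q.1 q.2.1 q.2.2)
      (ν.prod ((ν.prod ν).prod (volume.restrict (Ioi 0)))) := by
  refine R9EnB_gen h (K := 200) ?_ fun z p hp => ⟨(sla hk hm hp).1, (sla hk hm hp).2.2⟩
  unfold fa mta
  fun_prop

theorem fb_int {ν : Measure (X d)} (h : Nice9 ν) :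
    Integrable (fun q : X d × ((X d × X d) × ℝ) => fb q.1 q.2.1 q.2.2)
      (ν.prod ((ν.prod ν).prod (volume.restrict (Ioi 0)))) := by
  refine R9EnB_gen h (K := 3000) ?_ fun z p hp => ⟨(slb hp).1, (slb hp).2.2⟩
  unfold fb mtb pr
  fun_prop

end Pool.Agent.H48.R9
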