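import Pool.Agent.H48.R9.Defs

/-!
ker9 (template: R7/Ker.lean, ker7).  Put A = ‖a‖², B = ‖b‖², C = ‖a-b‖², p = ⟪a,b⟫ = (A+B-C)/2,
P = ⟪a,a-b⟫ = (A+C-B)/2, R = ⟪b,b-a⟫ = (B+C-A)/2, pr = PR.  The pair (-a, b-a) has norms² A, C, difference² B,
inner product P and ⟪-a,-b⟫ = p, ⟪b-a,b⟫ = R, so pr = pR; the pair (a-b,-b) has norms² C, B, difference² A,
inner product R and pr = Pp.  So everything is a rational identity in A, B, C (p, P, R substituted), checked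
with exact fractions.  First prove a private lemma for real variables A B C ≠ 0 with W written as a function of
(A⁻¹, B⁻¹, C⁻¹) or: multiply by (ABC)^6 (a polynomial identity of degree 9 in A, B, C): field_simp; ring.
mono9: u^(9-i) v^(9-i) w^(2i) = (uv)^(9-2i) (vw)^i (wu)^i ≤ max(uv,vw,wu)^9 ≤ the sum (i ≤ 4).
W9_bound: |ik k| ≤ 200 (w^(2k) + ‖a‖‖b‖ w^(2k+2)) (for k = 0 without the first term), |j2| ≤ 2000 (w⁴ + ‖a‖‖b‖w⁶ +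
‖a‖²‖b‖²w⁸) with w = ‖a-b‖⁻¹, |p| ≤ ‖a‖‖b‖, |pr| ≤ ‖a‖‖b‖‖a-b‖².
-/

set_option autoImplicit false

open MeasureTheory Filter Topology Metric Set
open scoped RealInnerProductSpace ENNReal

namespace Pool.Agent.H48.R9

open Pool.Agent.RZ Pool.Agent.H1.LD Pool.Agent.H48.R7

variable {d : ℕ}

private noncomputable def R9Ker_w (x y c p q : ℝ) : ℝ :=
  1 / 16 * (x⁻¹ ^ 8 * y⁻¹ ^ 8 * p ^ 0 * (-(1 / 2) * c⁻¹ ^ 2 + p * c⁻¹ ^ 4 + 4 * (q) * c⁻¹ ^ 6)) +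
  (1 / 128 * (x⁻¹ ^ 8 * y⁻¹ ^ 8 * p ^ 1 * (-2 * c⁻¹ ^ 4 + 2 * p * c⁻¹ ^ 6 + 12 * (q) * c⁻¹ ^ 8)) +
  (103 / 96 * (x⁻¹ ^ 12 * y⁻¹ ^ 12 * p ^ 3 * (p * c⁻¹ ^ 2 + 2 * (q) * c⁻¹ ^ 4)) +
  (137 / 48 * (x⁻¹ ^ 12 * y⁻¹ ^ 12 * p ^ 4 * (-(1 / 2) * c⁻¹ ^ 2 + p * c⁻¹ ^ 4 + 4 * (q) * c⁻¹ ^ 6)) +
  (125 / 96 * (x⁻¹ ^ 12 * y⁻¹ ^ 12 * p ^ 5 * (-2 * c⁻¹ ^ 4 + 2 * p * c⁻¹ ^ 6 + 12 * (q) * c⁻¹ ^ 8)) +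
  (7 / 48 * (x⁻¹ ^ 12 * y⁻¹ ^ 12 * p ^ 6 * (-9 * c⁻¹ ^ 6 + 6 * p * c⁻¹ ^ 8 + 48 * (q) * c⁻¹ ^ 10)) +
  1 / 192 * (x⁻¹ ^ 10 * y⁻¹ ^ 10 * p ^ 3 * (8 * c⁻¹ ^ 4 - 110 * p * c⁻¹ ^ 6 - 240 * (q) * c⁻¹ ^ 8 +
    36 * p ^ 2 * c⁻¹ ^ 8 + 576 * (q) * p * c⁻¹ ^ 10 +
    960 * (q) ^ 2 * c⁻¹ ^ 12)))))))

/-- the same function of the inverse squares `u`, `v`, `w` -/
private noncomputable def R9Ker_v (u v w p q : ℝ) : ℝ :=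
  1 / 16 * (u ^ 4 * v ^ 4 * p ^ 0 * (-(1 / 2) * w ^ 1 + p * w ^ 2 + 4 * (q) * w ^ 3)) +
  (1 / 128 * (u ^ 4 * v ^ 4 * p ^ 1 * (-2 * w ^ 2 + 2 * p * w ^ 3 + 12 * (q) * w ^ 4)) +
  (103 / 96 * (u ^ 6 * v ^ 6 * p ^ 3 * (p * w ^ 1 + 2 * (q) * w ^ 2)) +
  (137 / 48 * (u ^ 6 * v ^ 6 * p ^ 4 * (-(1 / 2) * w ^ 1 + p * w ^ 2 + 4 * (q) * w ^ 3)) +
  (125 / 96 * (u ^ 6 * v ^ 6 * p ^ 5 * (-2 * w ^ 2 + 2 * p * w ^ 3 + 12 * (q) * w ^ 4)) +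
  (7 / 48 * (u ^ 6 * v ^ 6 * p ^ 6 * (-9 * w ^ 3 + 6 * p * w ^ 4 + 48 * (q) * w ^ 5)) +
  1 / 192 * (u ^ 5 * v ^ 5 * p ^ 3 * (8 * w ^ 2 - 110 * p * w ^ 3 - 240 * (q) * w ^ 4 +
    36 * p ^ 2 * w ^ 4 + 576 * (q) * p * w ^ 5 +
    960 * (q) ^ 2 * w ^ 6)))))))

private theorem R9Ker_alg0 {A B C : ℝ} (hA : A ≠ 0) (hB : B ≠ 0) (hC : C ≠ 0) :
    R9Ker_v A⁻¹ B⁻¹ C⁻¹ ((A + B - C) / 2) ((A + C - B) / 2 * ((B + C - A) / 2)) +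
    R9Ker_v A⁻¹ C⁻¹ B⁻¹ ((A + C - B) / 2) ((A + B - C) / 2 * ((B + C - A) / 2)) +
    R9Ker_v C⁻¹ B⁻¹ A⁻¹ ((B + C - A) / 2) ((A + C - B) / 2 * ((A + B - C) / 2)) =
    A⁻¹ ^ 5 * B⁻¹ ^ 5 * ((A + B - C) / 2) + A⁻¹ ^ 5 * C⁻¹ ^ 5 * ((A + C - B) / 2) +
      C⁻¹ ^ 5 * B⁻¹ ^ 5 * ((B + C - A) / 2) := by
  unfold R9Ker_v
  field_simp
  ring

private theorem R9Ker_wv (x y c p q : ℝ) :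
    R9Ker_w x y c p q = R9Ker_v (x ^ 2)⁻¹ (y ^ 2)⁻¹ (c ^ 2)⁻¹ p q := by
  have e : ∀ s : ℝ, ∀ k : ℕ, s⁻¹ ^ (2 * k) = (s ^ 2)⁻¹ ^ k := by
    intro s k
    rw [← inv_pow, ← pow_mul]
  have e2 : ∀ s : ℝ, s⁻¹ ^ 2 = (s ^ 2)⁻¹ ^ 1 := fun s => e s 1
  have e4 : ∀ s : ℝ, s⁻¹ ^ 4 = (s ^ 2)⁻¹ ^ 2 := fun s => e s 2
  have e6 : ∀ s : ℝ, s⁻¹ ^ 6 = (s ^ 2)⁻¹ ^ 3 := fun s => e s 3
  have e8 : ∀ s : ℝ, s⁻¹ ^ 8 = (s ^ 2)⁻¹ ^ 4 := fun s => e s 4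
  have e10 : ∀ s : ℝ, s⁻¹ ^ 10 = (s ^ 2)⁻¹ ^ 5 := fun s => e s 5
  have e12 : ∀ s : ℝ, s⁻¹ ^ 12 = (s ^ 2)⁻¹ ^ 6 := fun s => e s 6
  unfold R9Ker_w R9Ker_v
  rw [e8 x, e8 y, e12 x, e12 y, e10 x, e10 y, e2 c, e4 c, e6 c, e8 c, e10 c, e12 c]

private theorem R9Ker_alg {x y c p P R : ℝ} (hx : x ≠ 0) (hy : y ≠ 0) (hc : c ≠ 0)
    (hp : p = (x ^ 2 + y ^ 2 - c ^ 2) / 2) (hP : P = (x ^ 2 + c ^ 2 - y ^ 2) / 2)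
    (hR : R = (y ^ 2 + c ^ 2 - x ^ 2) / 2) :
    R9Ker_w x y c p (P * R) + R9Ker_w x c y P (p * R) + R9Ker_w c y x R (P * p) =
      x⁻¹ ^ 10 * y⁻¹ ^ 10 * p + x⁻¹ ^ 10 * c⁻¹ ^ 10 * P + c⁻¹ ^ 10 * y⁻¹ ^ 10 * R := by
  have h := R9Ker_alg0 (A := x ^ 2) (B := y ^ 2) (C := c ^ 2) (pow_ne_zero 2 hx) (pow_ne_zero 2 hy)
    (pow_ne_zero 2 hc)
  have e10 : ∀ s : ℝ, s⁻¹ ^ 10 = (s ^ 2)⁻¹ ^ 5 := by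
    intro s
    rw [← inv_pow, ← pow_mul]
  rw [R9Ker_wv, R9Ker_wv, R9Ker_wv, hp, hP, hR, e10 x, e10 y, e10 c]
  exact h

private theorem R9Ker_W9 (a b : X d) :
    W9 a b = R9Ker_w ‖a‖ ‖b‖ ‖a - b‖ ⟪a, b⟫ (⟪a, a - b⟫ * ⟪b, b - a⟫) := rfl

theorem ker9 {a b : X d} (ha : a ≠ 0) (hb : b ≠ 0) (h : a ≠ b) :
    W9 a b + W9 (-a) (b - a) + W9 (a - b) (-b) = L9 a b + L9 (-a) (b - a) + L9 (a - b) (-b) := by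
  have hx : ‖a‖ ≠ 0 := norm_ne_zero_iff.2 ha
  have hy : ‖b‖ ≠ 0 := norm_ne_zero_iff.2 hb
  have hc : ‖a - b‖ ≠ 0 := norm_ne_zero_iff.2 (sub_ne_zero.2 h)
  have h3 : ‖a - b‖ ^ 2 = ‖a‖ ^ 2 + ‖b‖ ^ 2 - 2 * ⟪a, b⟫ := by rw [norm_sub_sq_real]; ring
  have h1 : ⟪a, a - b⟫ = ‖a‖ ^ 2 - ⟪a, b⟫ := by rw [inner_sub_right, real_inner_self_eq_norm_sq]
  have h2 : ⟪b, b - a⟫ = ‖b‖ ^ 2 - ⟪a, b⟫ := by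
    rw [inner_sub_right, real_inner_self_eq_norm_sq, real_inner_comm]
  have n1 : ‖b - a‖ = ‖a - b‖ := norm_sub_rev b a
  have n2 : -a - (b - a) = -b := by abel
  have n3 : b - a - -a = b := by abel
  have n4 : a - b - -b = a := by abel
  have n5 : -b - (a - b) = -a := by abel
  have q1 : ⟪-a, b - a⟫ = ⟪a, a - b⟫ := by
    rw [inner_neg_left, ← inner_neg_right, neg_sub]
  have q2 : ⟪-a, -b⟫ = ⟪a, b⟫ := by rw [inner_neg_left, inner_neg_right, neg_neg]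
  have q3 : ⟪b - a, b⟫ = ⟪b, b - a⟫ := real_inner_comm _ _
  have q4 : ⟪a - b, -b⟫ = ⟪b, b - a⟫ := by
    rw [inner_neg_right, ← inner_neg_left, neg_sub, real_inner_comm]
  have q5 : ⟪a - b, a⟫ = ⟪a, a - b⟫ := real_inner_comm _ _
  have q6 : ⟪-b, -a⟫ = ⟪a, b⟫ := by
    rw [inner_neg_left, inner_neg_right, neg_neg, real_inner_comm]
  have w2 : W9 (-a) (b - a) = R9Ker_w ‖a‖ ‖a - b‖ ‖b‖ ⟪a, a - b⟫ (⟪a, b⟫ * ⟪b, b - a⟫) := by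
    rw [R9Ker_W9, n2, n3, norm_neg, norm_neg, n1, q1, q2, q3]
  have w3 : W9 (a - b) (-b) = R9Ker_w ‖a - b‖ ‖b‖ ‖a‖ ⟪b, b - a⟫ (⟪a, a - b⟫ * ⟪a, b⟫) := by
    rw [R9Ker_W9, n4, n5, norm_neg, q4, q5, q6]
  have l2 : L9 (-a) (b - a) = ‖a‖⁻¹ ^ 10 * ‖a - b‖⁻¹ ^ 10 * ⟪a, a - b⟫ := by
    unfold L9
    rw [norm_neg, n1, q1]
  have l3 : L9 (a - b) (-b) = ‖a - b‖⁻¹ ^ 10 * ‖b‖⁻¹ ^ 10 * ⟪b, b - a⟫ := by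
    unfold L9
    rw [norm_neg, q4]
  rw [w2, w3, l2, l3, R9Ker_W9]
  unfold L9
  exact R9Ker_alg hx hy hc (by linarith) (by linarith) (by linarith)

private theorem R9Ker_ws (x y c p q : ℝ) : R9Ker_w x y c p q = R9Ker_w y x c p q := by
  unfold R9Ker_w
  rw [mul_comm (x⁻¹ ^ 8) (y⁻¹ ^ 8), mul_comm (x⁻¹ ^ 12) (y⁻¹ ^ 12),
    mul_comm (x⁻¹ ^ 10) (y⁻¹ ^ 10)]

theorem W9_symm (a b : X d) : W9 a b = W9 b a := by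
  rw [R9Ker_W9, R9Ker_W9, norm_sub_rev b a, real_inner_comm b a,
    mul_comm ⟪b, b - a⟫ ⟪a, a - b⟫]
  exact R9Ker_ws _ _ _ _ _

end Pool.Agent.H48.R9
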