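import Pool.Agent.H48.R9.Defs
import Pool.Agent.H1.LD.KerA
import Pool.Agent.H48.R7.Tim

/-!
time_gen: general m.  Proof as time_int / time_int7 (private KerA_gen in H1/LD/KerA.lean, copy it with the prefix
TimA_): antiderivative in s = c²/t²: Φ(s) = e^{-s} (∑_{i ≤ m} (m!/i!) s^i) / (2 c^(2m+2)), Φ' = -s^m e^{-s}/(2 c^(2m+2))
(telescoping, induction on m: Φ_{m+1} = ((m+1) Φ_m c^(2m+2) 2 + s^(m+1) e^{-s}) / (2 c^(2m+4))), Φ(0) = m!/(2 c^(2m+2)).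
mta_int0: mta 0 a b t * t⁻¹ = [2p t⁻³ + 4 pr t⁻⁵] e^{-c²/t²}, c = ‖a-b‖, p = ⟪a,b⟫, pr = ⟪a,a-b⟫⟪b,b-a⟫.
mta_int3: mta 3 a b t * t⁻⁷ = [9 t⁻⁷ + (-6c²+2p) t⁻⁹ + 4 pr t⁻¹¹] e^{-c²/t²} (note ((3:ℕ):ℝ) = 3).
Bounds: |p| ≤ ‖a‖‖b‖, |pr| ≤ ‖a‖‖b‖c².
-/

set_option autoImplicit false

open MeasureTheory Filter Topology Metric Set
open scoped RealInnerProductSpace ENNReal

namespace Pool.Agent.H48.R9

open Pool.Agent.RZ Pool.Agent.H1.LD Pool.Agent.H48.R7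

variable {d : ℕ}

/-- generic: `t ↦ Φ (c^2 / t^2)` is an antiderivative on `(0, ∞)` -/
private theorem R9TimA_gen {c : ℝ} (hc : 0 < c) {Φ Φ' f : ℝ → ℝ} (hΦ : ∀ s, HasDerivAt Φ (Φ' s) s)
    (h0 : Tendsto Φ atTop (𝓝 0))
    (hf : ∀ t : ℝ, 0 < t → f t = Φ' (c ^ 2 / t ^ 2) * (-2 * c ^ 2 / t ^ 3))
    (hn : ∀ t : ℝ, 0 < t → 0 ≤ f t) :
    IntegrableOn f (Ioi 0) ∧ ∫ t in Ioi (0 : ℝ), f t = Φ 0 := by
  set g : ℝ → ℝ := fun t => if t ≤ 0 then 0 else Φ (c ^ 2 / t ^ 2) with hg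
  have hd : ∀ t ∈ Ioi (0 : ℝ), HasDerivAt g (f t) t := by
    intro t ht
    have ht' : 0 < t := ht
    have ht0 : t ≠ 0 := ht'.ne'
    have h1 : HasDerivAt (fun t : ℝ => c ^ 2 / t ^ 2) (-2 * c ^ 2 / t ^ 3) t := by
      have h2 : HasDerivAt (fun t : ℝ => t ^ 2) (2 * t) t := by
        simpa using hasDerivAt_pow 2 t
      have h3 : HasDerivAt (fun t : ℝ => c ^ 2 / t ^ 2)
          ((0 * t ^ 2 - c ^ 2 * (2 * t)) / (t ^ 2) ^ 2) t :=
        (hasDerivAt_const t (c ^ 2)).div h2 (by positivity)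
      refine h3.congr_deriv ?_
      field_simp
      ring
    have h4 : HasDerivAt (fun t : ℝ => Φ (c ^ 2 / t ^ 2)) (Φ' (c ^ 2 / t ^ 2) * (-2 * c ^ 2 / t ^ 3)) t :=
      (hΦ _).comp t h1
    rw [← hf t ht'] at h4
    refine h4.congr_of_eventuallyEq ?_
    filter_upwards [Ioi_mem_nhds ht'] with s hs
    have hs' : ¬ s ≤ 0 := not_le.2 hs
    simp only [hg, hs', if_false]
  have hcont : ContinuousWithinAt g (Ici 0) 0 := by
    have h5 : ContinuousWithinAt g (Ioi 0) 0 := by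
      have h6 : Tendsto (fun t : ℝ => c ^ 2 / t ^ 2) (𝓝[>] 0) atTop := by
        have h7 : Tendsto (fun t : ℝ => t⁻¹) (𝓝[>] 0) atTop := tendsto_inv_nhdsGT_zero
        have h8 : Tendsto (fun t : ℝ => c ^ 2 * (t⁻¹) ^ 2) (𝓝[>] 0) atTop :=
          ((tendsto_pow_atTop (two_ne_zero)).comp h7).const_mul_atTop (by positivity)
        refine h8.congr (fun t => ?_)
        rw [inv_pow, div_eq_mul_inv]
      have h9 : Tendsto (fun t : ℝ => Φ (c ^ 2 / t ^ 2)) (𝓝[>] 0) (𝓝 (g 0)) := by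
        have : g 0 = 0 := by simp [hg]
        rw [this]
        exact h0.comp h6
      refine h9.congr' ?_
      filter_upwards [self_mem_nhdsWithin] with s hs
      have hs' : ¬ s ≤ 0 := not_le.2 hs
      simp only [hg, hs', if_false]
    exact continuousWithinAt_Ioi_iff_Ici.1 h5
  have hlim : Tendsto g atTop (𝓝 (Φ 0)) := by
    have h6 : Tendsto (fun t : ℝ => c ^ 2 / t ^ 2) atTop (𝓝 0) :=
      (tendsto_pow_atTop (two_ne_zero)).const_div_atTop (c ^ 2)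
    have h9 : Tendsto (fun t : ℝ => Φ (c ^ 2 / t ^ 2)) atTop (𝓝 (Φ 0)) :=
      ((hΦ 0).continuousAt.tendsto).comp h6
    refine h9.congr' ?_
    filter_upwards [Ioi_mem_atTop 0] with s hs
    have hs' : ¬ s ≤ 0 := not_le.2 hs
    simp only [hg, hs', if_false]
  refine ⟨integrableOn_Ioi_deriv_of_nonneg hcont hd (fun t ht => hn t ht) hlim, ?_⟩
  rw [integral_Ioi_of_hasDerivAt_of_nonneg hcont hd (fun t ht => hn t ht) hlim]
  simp [hg]

/-- the polynomials `∑_{i ≤ m} (m!/i!) s^i` -/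
private noncomputable def R9TimA_P : ℕ → ℝ → ℝ
  | 0, _ => 1
  | m + 1, s => s ^ (m + 1) + ((m : ℝ) + 1) * R9TimA_P m s

private theorem R9TimA_P_deriv (m : ℕ) (s : ℝ) :
    HasDerivAt (R9TimA_P m) (R9TimA_P m s - s ^ m) s := by
  induction m with
  | zero =>
    have h1 : R9TimA_P 0 = fun _ => (1 : ℝ) := by
      funext x
      rfl
    rw [h1]
    refine (hasDerivAt_const s (1 : ℝ)).congr_deriv ?_
    simp
  | succ m ih =>
    have h1 : R9TimA_P (m + 1) = fun s => s ^ (m + 1) + ((m : ℝ) + 1) * R9TimA_P m s := by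
      funext x
      rfl
    have h2 : HasDerivAt (fun s : ℝ => s ^ (m + 1)) (((m : ℝ) + 1) * s ^ m) s := by
      refine (hasDerivAt_pow (m + 1) s).congr_deriv ?_
      push_cast
      simp
    have h3 := h2.add (ih.const_mul ((m : ℝ) + 1))
    rw [h1]
    refine h3.congr_deriv ?_
    ring

private theorem R9TimA_P_zero (m : ℕ) : R9TimA_P m 0 = m.factorial := by
  induction m with
  | zero => simp [R9TimA_P]
  | succ m ih =>
    have h1 : R9TimA_P (m + 1) 0 = (0 : ℝ) ^ (m + 1) + ((m : ℝ) + 1) * R9TimA_P m 0 := rfl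
    rw [h1, ih, Nat.factorial_succ, zero_pow (Nat.succ_ne_zero m)]
    push_cast
    ring

private theorem R9TimA_P_tendsto (m : ℕ) :
    Tendsto (fun s : ℝ => R9TimA_P m s * Real.exp (-s)) atTop (𝓝 0) := by
  induction m with
  | zero =>
    refine Real.tendsto_exp_neg_atTop_nhds_zero.congr (fun s => ?_)
    have h1 : R9TimA_P 0 s = 1 := rfl
    rw [h1, one_mul]
  | succ m ih =>
    have h1 := (Real.tendsto_pow_mul_exp_neg_atTop_nhds_zero (m + 1)).add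
      (ih.const_mul ((m : ℝ) + 1))
    rw [mul_zero, add_zero] at h1
    refine h1.congr (fun s => ?_)
    have h2 : R9TimA_P (m + 1) s = s ^ (m + 1) + ((m : ℝ) + 1) * R9TimA_P m s := rfl
    rw [h2]
    ring

theorem time_gen {c : ℝ} (hc : 0 < c) (m : ℕ) :
    IntegrableOn (fun t : ℝ => t⁻¹ ^ (2 * m + 3) * Real.exp (-(c ^ 2 / t ^ 2))) (Ioi 0) ∧
    ∫ t in Ioi (0 : ℝ), t⁻¹ ^ (2 * m + 3) * Real.exp (-(c ^ 2 / t ^ 2)) =
      m.factorial / (2 * c ^ (2 * m + 2)) := by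
  have hc0 : c ≠ 0 := hc.ne'
  have A := R9TimA_gen (c := c) hc
    (Φ := fun s => R9TimA_P m s * Real.exp (-s) / (2 * c ^ (2 * m + 2)))
    (Φ' := fun s => -(s ^ m * Real.exp (-s)) / (2 * c ^ (2 * m + 2)))
    (f := fun t => t⁻¹ ^ (2 * m + 3) * Real.exp (-(c ^ 2 / t ^ 2)))
    (fun s => by
      have h1 : HasDerivAt (fun s : ℝ => Real.exp (-s)) (Real.exp (-s) * (-1)) s :=
        (hasDerivAt_neg s).exp
      have h2 : HasDerivAt (fun s : ℝ => R9TimA_P m s * Real.exp (-s) / (2 * c ^ (2 * m + 2)))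
          (((R9TimA_P m s - s ^ m) * Real.exp (-s) + R9TimA_P m s * (Real.exp (-s) * (-1))) /
            (2 * c ^ (2 * m + 2))) s :=
        ((R9TimA_P_deriv m s).mul h1).div_const (2 * c ^ (2 * m + 2))
      refine h2.congr_deriv ?_
      congr 1
      ring)
    (by
      have h4 := (R9TimA_P_tendsto m).div_const (2 * c ^ (2 * m + 2))
      rwa [zero_div] at h4)
    (fun t ht => by
      have ht0 : t ≠ 0 := ht.ne'
      have e1 : (c ^ 2 / t ^ 2) ^ m = c ^ (2 * m) / t ^ (2 * m) := by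
        rw [div_pow, ← pow_mul, ← pow_mul]
      have e2 : c ^ (2 * m + 2) = c ^ (2 * m) * c ^ 2 := pow_add _ _ _
      have e3 : t⁻¹ ^ (2 * m + 3) = 1 / (t ^ (2 * m) * t ^ 3) := by
        rw [inv_pow, pow_add, one_div]
      have e4 : c ^ (2 * m) ≠ 0 := pow_ne_zero _ hc0
      have e5 : t ^ (2 * m) ≠ 0 := pow_ne_zero _ ht0
      rw [e1, e2, e3]
      generalize c ^ (2 * m) = u at e4 ⊢
      generalize t ^ (2 * m) = v at e5 ⊢
      generalize Real.exp (-(c ^ 2 / t ^ 2)) = w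
      field_simp)
    (fun t ht => by positivity)
  refine ⟨A.1, ?_⟩
  rw [A.2]
  simp only [neg_zero, Real.exp_zero, R9TimA_P_zero, mul_one]

/-- three nonnegative functions: the linear combination -/
private theorem R9TimA_lin {g1 g2 g3 f : ℝ → ℝ} {I1 I2 I3 x y z : ℝ}
    (h1 : IntegrableOn g1 (Ioi 0)) (h2 : IntegrableOn g2 (Ioi 0)) (h3 : IntegrableOn g3 (Ioi 0))
    (e1 : ∫ t in Ioi (0 : ℝ), g1 t = I1) (e2 : ∫ t in Ioi (0 : ℝ), g2 t = I2)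
    (e3 : ∫ t in Ioi (0 : ℝ), g3 t = I3)
    (n1 : ∀ t : ℝ, 0 < t → 0 ≤ g1 t) (n2 : ∀ t : ℝ, 0 < t → 0 ≤ g2 t)
    (n3 : ∀ t : ℝ, 0 < t → 0 ≤ g3 t)
    (key : ∀ t : ℝ, 0 < t → f t = x * g1 t + y * g2 t + z * g3 t) :
    IntegrableOn f (Ioi 0) ∧ ∫ t in Ioi (0 : ℝ), f t = x * I1 + y * I2 + z * I3 ∧
    ∫ t in Ioi (0 : ℝ), |f t| ≤ |x| * I1 + |y| * I2 + |z| * I3 := by
  have A : ∀ u v w : ℝ, IntegrableOn (fun t : ℝ => u * g1 t + v * g2 t + w * g3 t) (Ioi 0) :=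
    fun u v w => ((h1.const_mul u).add (h2.const_mul v)).add (h3.const_mul w)
  have B : ∀ u v w : ℝ, ∫ t in Ioi (0 : ℝ), (u * g1 t + v * g2 t + w * g3 t) =
      u * I1 + v * I2 + w * I3 := by
    intro u v w
    have s1 : ∫ t in Ioi (0 : ℝ), (u * g1 t + v * g2 t + w * g3 t) =
        (∫ t in Ioi (0 : ℝ), (u * g1 t + v * g2 t)) + ∫ t in Ioi (0 : ℝ), w * g3 t :=
      integral_add ((h1.const_mul u).add (h2.const_mul v)) (h3.const_mul w)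
    have s2 : ∫ t in Ioi (0 : ℝ), (u * g1 t + v * g2 t) =
        (∫ t in Ioi (0 : ℝ), u * g1 t) + ∫ t in Ioi (0 : ℝ), v * g2 t :=
      integral_add (h1.const_mul u) (h2.const_mul v)
    rw [s1, s2, integral_const_mul, integral_const_mul, integral_const_mul, e1, e2, e3]
  have I : IntegrableOn f (Ioi 0) :=
    (A x y z).congr_fun (fun t ht => (key t ht).symm) measurableSet_Ioi
  refine ⟨I, ?_, ?_⟩
  · rw [setIntegral_congr_fun measurableSet_Ioi (fun t ht => key t ht), B]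
  · rw [← B |x| |y| |z|]
    refine setIntegral_mono_on I.abs (A _ _ _) measurableSet_Ioi (fun t ht => ?_)
    have ht' : 0 < t := ht
    rw [key t ht']
    refine (abs_add_three _ _ _).trans (le_of_eq ?_)
    rw [abs_mul x, abs_mul y, abs_mul z, abs_of_nonneg (n1 t ht'), abs_of_nonneg (n2 t ht'),
      abs_of_nonneg (n3 t ht')]

/-- bounds for the inner products -/
private theorem R9TimA_bd (a b : X d) :
    |⟪a, b⟫| ≤ ‖a‖ * ‖b‖ ∧
    |⟪a, a - b⟫ * ⟪b, b - a⟫| ≤ (‖a‖ * ‖b‖) * ‖a - b‖ ^ 2 := by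
  refine ⟨abs_real_inner_le_norm a b, ?_⟩
  have h1 : |⟪a, a - b⟫| ≤ ‖a‖ * ‖a - b‖ := abs_real_inner_le_norm a (a - b)
  have h2 : |⟪b, b - a⟫| ≤ ‖b‖ * ‖a - b‖ := by
    have := abs_real_inner_le_norm b (b - a)
    rwa [norm_sub_rev b a] at this
  rw [abs_mul]
  calc |⟪a, a - b⟫| * |⟪b, b - a⟫| ≤ (‖a‖ * ‖a - b‖) * (‖b‖ * ‖a - b‖) := by gcongr
    _ = (‖a‖ * ‖b‖) * ‖a - b‖ ^ 2 := by ring

theorem mta_int0 {a b : X d} (h : a ≠ b) :
    IntegrableOn (fun t : ℝ => mta (0 : ℕ) a b t * t⁻¹ ^ (2 * 0 + 1)) (Ioi 0) ∧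
    ∫ t in Ioi (0 : ℝ), mta (0 : ℕ) a b t * t⁻¹ ^ (2 * 0 + 1) = i0 a b ∧
    ∫ t in Ioi (0 : ℝ), |mta (0 : ℕ) a b t * t⁻¹ ^ (2 * 0 + 1)| ≤
      3 * (‖a‖ * ‖b‖) * ‖a - b‖⁻¹ ^ 2 := by
  have hc : 0 < ‖a - b‖ := norm_pos_iff.2 (sub_ne_zero.2 h)
  obtain ⟨j3, e3, j5, e5⟩ := time_int hc
  obtain ⟨hpb, hqb⟩ := R9TimA_bd a b
  simp only [i0, pr]
  set c := ‖a - b‖ with hcd
  set p : ℝ := ⟪a, b⟫ with hp
  set q : ℝ := ⟪a, a - b⟫ * ⟪b, b - a⟫ with hq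
  set M : ℝ := ‖a‖ * ‖b‖ with hM
  have hM0 : 0 ≤ M := by positivity
  have key : ∀ t : ℝ, 0 < t → mta (0 : ℕ) a b t * t⁻¹ ^ (2 * 0 + 1) =
      (2 * p) * (t⁻¹ ^ 3 * Real.exp (-(c ^ 2 / t ^ 2))) +
      (4 * q) * (t⁻¹ ^ 5 * Real.exp (-(c ^ 2 / t ^ 2))) +
      0 * (t⁻¹ ^ 3 * Real.exp (-(c ^ 2 / t ^ 2))) := by
    intro t _
    simp only [mta, ← hcd, ← hp, ← hq, Nat.cast_zero]
    simp only [div_eq_mul_inv, inv_pow]
    ring
  obtain ⟨r1, r2, r3⟩ := R9TimA_lin j3 j5 j3 e3 e5 e3 (fun t ht => by positivity)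
    (fun t ht => by positivity) (fun t ht => by positivity) key
  refine ⟨r1, ?_, ?_⟩
  · rw [r2]
    field_simp
    ring
  · refine r3.trans ?_
    have k1 : |2 * p| ≤ 2 * M := by
      have u2 : |2 * p| = 2 * |p| := by
        rw [abs_mul, abs_of_pos (show (0 : ℝ) < 2 by norm_num)]
      rw [u2]
      linarith
    have k3 : |4 * q| ≤ 4 * (M * c ^ 2) := by
      have u2 : |4 * q| = 4 * |q| := by
        rw [abs_mul, abs_of_pos (show (0 : ℝ) < 4 by norm_num)]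
      rw [u2]
      linarith
    calc |2 * p| * (1 / (2 * c ^ 2)) + |4 * q| * (1 / (2 * c ^ 4)) +
          |(0 : ℝ)| * (1 / (2 * c ^ 2))
        ≤ 2 * M * (1 / (2 * c ^ 2)) + 4 * (M * c ^ 2) * (1 / (2 * c ^ 4)) +
          |(0 : ℝ)| * (1 / (2 * c ^ 2)) := by
          gcongr
      _ = 3 * M * c⁻¹ ^ 2 := by
          rw [abs_zero]
          field_simp
          ring

theorem mta_int3 {a b : X d} (h : a ≠ b) :
    IntegrableOn (fun t : ℝ => mta (3 : ℕ) a b t * t⁻¹ ^ (2 * 3 + 1)) (Ioi 0) ∧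
    ∫ t in Ioi (0 : ℝ), mta (3 : ℕ) a b t * t⁻¹ ^ (2 * 3 + 1) = i3 a b ∧
    ∫ t in Ioi (0 : ℝ), |mta (3 : ℕ) a b t * t⁻¹ ^ (2 * 3 + 1)| ≤
      27 * ‖a - b‖⁻¹ ^ 6 + 54 * (‖a‖ * ‖b‖) * ‖a - b‖⁻¹ ^ 8 := by
  have hc : 0 < ‖a - b‖ := norm_pos_iff.2 (sub_ne_zero.2 h)
  obtain ⟨j7, e7, j9, e9⟩ := time_int7 hc
  obtain ⟨j11, e11⟩ := time_gen hc 4
  have e11' : ∫ t in Ioi (0 : ℝ), t⁻¹ ^ 11 * Real.exp (-(‖a - b‖ ^ 2 / t ^ 2)) = 12 / ‖a - b‖ ^ 10 := by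
    refine e11.trans ?_
    have h24 : ((4 : ℕ).factorial : ℝ) = 24 := by
      have : (4 : ℕ).factorial = 24 := rfl
      rw [this]
      norm_num
    rw [h24]
    have hc0 := hc.ne'
    field_simp
    ring
  obtain ⟨hpb, hqb⟩ := R9TimA_bd a b
  simp only [i3, pr]
  set c := ‖a - b‖ with hcd
  set p : ℝ := ⟪a, b⟫ with hp
  set q : ℝ := ⟪a, a - b⟫ * ⟪b, b - a⟫ with hq
  set M : ℝ := ‖a‖ * ‖b‖ with hM
  have hM0 : 0 ≤ M := by positivity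
  have key : ∀ t : ℝ, 0 < t → mta (3 : ℕ) a b t * t⁻¹ ^ (2 * 3 + 1) =
      9 * (t⁻¹ ^ 7 * Real.exp (-(c ^ 2 / t ^ 2))) +
      (-6 * c ^ 2 + 2 * p) * (t⁻¹ ^ 9 * Real.exp (-(c ^ 2 / t ^ 2))) +
      (4 * q) * (t⁻¹ ^ 11 * Real.exp (-(c ^ 2 / t ^ 2))) := by
    intro t _
    simp only [mta, ← hcd, ← hp, ← hq]
    simp only [div_eq_mul_inv, inv_pow]
    push_cast
    ring
  obtain ⟨r1, r2, r3⟩ := R9TimA_lin j7 j9 j11 e7 e9 e11' (fun t ht => by positivity)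
    (fun t ht => by positivity) (fun t ht => by positivity) key
  refine ⟨r1, ?_, ?_⟩
  · rw [r2]
    field_simp
    ring
  · refine r3.trans ?_
    have k1 : |(9 : ℝ)| = 9 := abs_of_pos (by norm_num)
    have k2 : |-6 * c ^ 2 + 2 * p| ≤ 6 * c ^ 2 + 2 * M := by
      refine (abs_add_le _ _).trans ?_
      have u1 : |-6 * c ^ 2| = 6 * c ^ 2 := by
        rw [abs_mul, abs_neg, abs_of_pos (show (0 : ℝ) < 6 by norm_num),
          abs_of_pos (show (0 : ℝ) < c ^ 2 by positivity)]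
      have u2 : |2 * p| = 2 * |p| := by
        rw [abs_mul, abs_of_pos (show (0 : ℝ) < 2 by norm_num)]
      rw [u1, u2]
      linarith
    have k3 : |4 * q| ≤ 4 * (M * c ^ 2) := by
      have u2 : |4 * q| = 4 * |q| := by
        rw [abs_mul, abs_of_pos (show (0 : ℝ) < 4 by norm_num)]
      rw [u2]
      linarith
    calc |(9 : ℝ)| * (1 / c ^ 6) + |-6 * c ^ 2 + 2 * p| * (3 / c ^ 8) +
          |4 * q| * (12 / c ^ 10)
        ≤ 9 * (1 / c ^ 6) + (6 * c ^ 2 + 2 * M) * (3 / c ^ 8) +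
          4 * (M * c ^ 2) * (12 / c ^ 10) := by
          rw [k1]
          gcongr
      _ = 27 * c⁻¹ ^ 6 + 54 * M * c⁻¹ ^ 8 := by
          field_simp
          ring

end Pool.Agent.H48.R9
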