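import Pool.Agent.H48.R9.PairB

/-!
doubleB: template R7/Dbl.lean (double7).  |ek2 β z x Y| ≤ C_β (1 + ‖x-z‖²) g(x-Y), g(v) = (1 + ‖v‖)² ga β v bounded and
integrable (10β‖x-z‖‖v‖ ≤ 5β(‖x-z‖² + ‖v‖²) and 4β²‖x-z‖²‖v‖²).
-/

set_option autoImplicit false

open MeasureTheory Filter Topology Metric Set
open scoped RealInnerProductSpace ENNReal

namespace Pool.Agent.H48.R9

open Pool.Agent.RZ Pool.Agent.H1.LD Pool.Agent.H48.R7

variable {d : ℕ}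

/-- the majorant in the variable `Y` -/
private noncomputable def R9DblB_g (β : ℝ) (v : X d) : ℝ :=
  (4 + 12 * β + 4 * β ^ 2) * ((1 + ‖v‖) ^ 2 * ga β v)

private theorem R9DblB_g_nonneg {β : ℝ} (hβ : 0 < β) (v : X d) : 0 ≤ R9DblB_g β v := by
  unfold R9DblB_g
  have := ga_nonneg β v
  positivity

private theorem R9DblB_g_bound (d : ℕ) {β : ℝ} (hβ : 0 < β) :
    ∃ C : ℝ, ∀ v : X d, R9DblB_g β v ≤ C := by
  obtain ⟨C, hC, hCb⟩ := poly_ga d 2 hβ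
  refine ⟨(4 + 12 * β + 4 * β ^ 2) * C, fun v => ?_⟩
  have h1 := hCb v
  have h2 : ga 0 v = 1 := by unfold ga; simp
  rw [h2, mul_one] at h1
  unfold R9DblB_g
  exact mul_le_mul_of_nonneg_left h1 (by positivity)

private theorem R9DblB_g_integrable {β : ℝ} (hβ : 0 < β) : Integrable (R9DblB_g β : X d → ℝ) :=
  (ga_integrable (d := d) hβ 2).const_mul (4 + 12 * β + 4 * β ^ 2)

private theorem R9DblB_ek {β : ℝ} (hβ : 0 < β) (z x Y : X d) :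
    |ek2 β z x Y| ≤ (1 + ‖x - z‖ ^ 2) * R9DblB_g β (x - Y) := by
  unfold ek2 R9DblB_g
  have h0 := ga_nonneg β (x - Y)
  have h1 : |⟪x - z, x - Y⟫| ≤ ‖x - z‖ * ‖x - Y‖ := abs_real_inner_le_norm _ _
  have hD : 0 ≤ ‖x - z‖ := norm_nonneg _
  have hV : 0 ≤ ‖x - Y‖ := norm_nonneg _
  rw [abs_mul, abs_of_nonneg h0]
  have h5 : ⟪x - z, x - Y⟫ ^ 2 ≤ ‖x - z‖ ^ 2 * ‖x - Y‖ ^ 2 := by
    rw [← sq_abs, ← mul_pow]
    exact pow_le_pow_left₀ (abs_nonneg _) h1 2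
  have hV2 : ‖x - Y‖ ≤ (1 + ‖x - Y‖) ^ 2 := by nlinarith
  have hV3 : ‖x - Y‖ ^ 2 ≤ (1 + ‖x - Y‖) ^ 2 := by nlinarith
  have hV4 : 1 ≤ (1 + ‖x - Y‖) ^ 2 := by nlinarith
  have hD2 : ‖x - z‖ ≤ 1 + ‖x - z‖ ^ 2 := by nlinarith [sq_nonneg (‖x - z‖ - 1)]
  have hD3 : ‖x - z‖ ^ 2 ≤ 1 + ‖x - z‖ ^ 2 := by linarith
  have hD4 : 1 ≤ 1 + ‖x - z‖ ^ 2 := by nlinarith
  have m1 : (1 : ℝ) ≤ (1 + ‖x - z‖ ^ 2) * (1 + ‖x - Y‖) ^ 2 := by
    calc (1 : ℝ) = 1 * 1 := by norm_num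
      _ ≤ _ := mul_le_mul hD4 hV4 (by norm_num) (by positivity)
  have m2 : ‖x - z‖ * ‖x - Y‖ ≤ (1 + ‖x - z‖ ^ 2) * (1 + ‖x - Y‖) ^ 2 :=
    mul_le_mul hD2 hV2 hV (by positivity)
  have m3 : ‖x - z‖ ^ 2 ≤ (1 + ‖x - z‖ ^ 2) * (1 + ‖x - Y‖) ^ 2 := by
    calc ‖x - z‖ ^ 2 = ‖x - z‖ ^ 2 * 1 := by rw [mul_one]
      _ ≤ _ := mul_le_mul hD3 hV4 (by norm_num) (by positivity)
  have m4 : ‖x - z‖ ^ 2 * ‖x - Y‖ ^ 2 ≤ (1 + ‖x - z‖ ^ 2) * (1 + ‖x - Y‖) ^ 2 :=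
    mul_le_mul hD3 hV3 (by positivity) (by positivity)
  have h2 : |4 - 10 * β * ⟪x - z, x - Y⟫ - 2 * β * ‖x - z‖ ^ 2 + 4 * β ^ 2 * ⟪x - z, x - Y⟫ ^ 2| ≤
      (4 + 12 * β + 4 * β ^ 2) * ((1 + ‖x - z‖ ^ 2) * (1 + ‖x - Y‖) ^ 2) := by
    set M := (1 + ‖x - z‖ ^ 2) * (1 + ‖x - Y‖) ^ 2 with hM
    have a1 : |⟪x - z, x - Y⟫| ≤ M := h1.trans m2
    have a2 : ⟪x - z, x - Y⟫ ^ 2 ≤ M := h5.trans m4
    have a3 := abs_le.1 a1
    have a4 : 0 ≤ ⟪x - z, x - Y⟫ ^ 2 := sq_nonneg _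
    have a5 : 0 ≤ ‖x - z‖ ^ 2 := sq_nonneg _
    have b1 : β * ⟪x - z, x - Y⟫ ≤ β * M := mul_le_mul_of_nonneg_left a3.2 hβ.le
    have b2 : β * (-M) ≤ β * ⟪x - z, x - Y⟫ := mul_le_mul_of_nonneg_left a3.1 hβ.le
    have b3 : β * ‖x - z‖ ^ 2 ≤ β * M := mul_le_mul_of_nonneg_left m3 hβ.le
    have b4 : β ^ 2 * ⟪x - z, x - Y⟫ ^ 2 ≤ β ^ 2 * M := mul_le_mul_of_nonneg_left a2 (sq_nonneg β)
    have b5 : 0 ≤ β * ‖x - z‖ ^ 2 := mul_nonneg hβ.le a5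
    have b6 : 0 ≤ β ^ 2 * ⟪x - z, x - Y⟫ ^ 2 := mul_nonneg (sq_nonneg β) a4
    have b7 : 0 ≤ β ^ 2 * M := by positivity
    rw [abs_le]
    constructor
    · linarith
    · linarith
  calc |4 - 10 * β * ⟪x - z, x - Y⟫ - 2 * β * ‖x - z‖ ^ 2 + 4 * β ^ 2 * ⟪x - z, x - Y⟫ ^ 2| *
        ga β (x - Y)
      ≤ ((4 + 12 * β + 4 * β ^ 2) * ((1 + ‖x - z‖ ^ 2) * (1 + ‖x - Y‖) ^ 2)) * ga β (x - Y) :=
        mul_le_mul_of_nonneg_right h2 h0
    _ = _ := by ring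

/-- the weight -/
private noncomputable def R9DblB_H (ω : X d → ℝ) (z x : X d) : ℝ := |ω x| * (1 + ‖x - z‖ ^ 2)

private theorem R9DblB_H_nonneg (ω : X d → ℝ) (z x : X d) : 0 ≤ R9DblB_H ω z x := by
  unfold R9DblB_H; positivity

private theorem R9DblB_H_int {ν : Measure (X d)} (ω : X d → ℝ)
    (z : X d) (h1 : Integrable ω ν) (h2 : Integrable (fun x => ω x * ‖x - z‖ ^ 2) ν) :
    Integrable (R9DblB_H ω z) ν := by
  have h3 := h1.norm.add h2.norm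
  refine h3.congr (Filter.Eventually.of_forall fun x => ?_)
  simp only [Pi.add_apply, R9DblB_H, norm_mul, Real.norm_eq_abs, norm_pow, abs_norm]
  ring

/-- the triple integrand -/
private noncomputable def R9DblB_G (β : ℝ) (ω : X d → ℝ) (z : X d) (q : (X d × X d) × X d) : ℝ :=
  (ω q.1.1 * ek2 β z q.1.1 q.2) * (ω q.1.2 * ek2 β z q.1.2 q.2)

private theorem R9DblB_G_meas (β : ℝ) (ω : X d → ℝ) (hω : Measurable ω) (z : X d) :
    Measurable (R9DblB_G β ω z) := by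
  unfold R9DblB_G ek2 ga
  fun_prop

private theorem R9DblB_G_meas1 (β : ℝ) (ω : X d → ℝ) (hω : Measurable ω) (z : X d) (p : X d × X d) :
    Measurable (fun Y : X d => R9DblB_G β ω z (p, Y)) :=
  (R9DblB_G_meas β ω hω z).comp measurable_prodMk_left

private theorem R9DblB_F {β C : ℝ} (hβ : 0 < β) (hgb : ∀ v : X d, R9DblB_g β v ≤ C)
    (ω : X d → ℝ) (hω : Measurable ω) (z : X d) {ν : Measure (X d)}
    (hH : Integrable (R9DblB_H ω z) ν) (Y : X d) :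
    Integrable (fun x => ω x * ek2 β z x Y) ν := by
  have hms : AEStronglyMeasurable (fun x => ω x * ek2 β z x Y) ν := by
    have : Measurable (fun x => ω x * ek2 β z x Y) := by
      unfold ek2 ga
      fun_prop
    exact this.aestronglyMeasurable
  refine (hH.mul_const C).mono' hms (Filter.Eventually.of_forall fun x => ?_)
  rw [Real.norm_eq_abs, abs_mul]
  calc |ω x| * |ek2 β z x Y| ≤ |ω x| * ((1 + ‖x - z‖ ^ 2) * R9DblB_g β (x - Y)) :=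
        mul_le_mul_of_nonneg_left (R9DblB_ek hβ z x Y) (abs_nonneg _)
    _ ≤ |ω x| * ((1 + ‖x - z‖ ^ 2) * C) := by
        refine mul_le_mul_of_nonneg_left (mul_le_mul_of_nonneg_left (hgb _) ?_) (abs_nonneg _)
        positivity
    _ = R9DblB_H ω z x * C := by unfold R9DblB_H; ring

private theorem R9DblB_G_bound {β C : ℝ} (hβ : 0 < β) (hgb : ∀ v : X d, R9DblB_g β v ≤ C)
    (ω : X d → ℝ) (z x x' Y : X d) : |R9DblB_G β ω z ((x, x'), Y)| ≤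
      (R9DblB_H ω z x * R9DblB_H ω z x' * C) * R9DblB_g β (x - Y) := by
  have h1 := R9DblB_ek hβ z x Y
  have h2 := R9DblB_ek hβ z x' Y
  have h5 := R9DblB_g_nonneg hβ (x - Y)
  have h6 := R9DblB_g_nonneg hβ (x' - Y)
  have h7 := hgb (x' - Y)
  have e1 : |ω x| * |ek2 β z x Y| ≤ R9DblB_H ω z x * R9DblB_g β (x - Y) := by
    calc |ω x| * |ek2 β z x Y| ≤ |ω x| * ((1 + ‖x - z‖ ^ 2) * R9DblB_g β (x - Y)) :=
          mul_le_mul_of_nonneg_left h1 (abs_nonneg _)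
      _ = _ := by unfold R9DblB_H; ring
  have e2 : |ω x'| * |ek2 β z x' Y| ≤ R9DblB_H ω z x' * C := by
    calc |ω x'| * |ek2 β z x' Y| ≤ |ω x'| * ((1 + ‖x' - z‖ ^ 2) * R9DblB_g β (x' - Y)) :=
          mul_le_mul_of_nonneg_left h2 (abs_nonneg _)
      _ = R9DblB_H ω z x' * R9DblB_g β (x' - Y) := by unfold R9DblB_H; ring
      _ ≤ _ := mul_le_mul_of_nonneg_left h7 (R9DblB_H_nonneg ω z x')
  calc |R9DblB_G β ω z ((x, x'), Y)| = (|ω x| * |ek2 β z x Y|) * (|ω x'| * |ek2 β z x' Y|) := by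
        unfold R9DblB_G; rw [abs_mul, abs_mul, abs_mul]
    _ ≤ (R9DblB_H ω z x * R9DblB_g β (x - Y)) * (R9DblB_H ω z x' * C) := by
        refine mul_le_mul e1 e2 (by positivity) ?_
        exact mul_nonneg (R9DblB_H_nonneg ω z x) h5
    _ = _ := by ring

private theorem R9DblB_G_slice {β C : ℝ} (hβ : 0 < β) (hgb : ∀ v : X d, R9DblB_g β v ≤ C)
    (ω : X d → ℝ) (hω : Measurable ω) (z : X d) (p : X d × X d) :
    Integrable (fun Y => R9DblB_G β ω z (p, Y)) := by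
  have h1 : Integrable (fun Y : X d => R9DblB_g β (p.1 - Y)) := (R9DblB_g_integrable hβ).comp_sub_left p.1
  have h2 := h1.const_mul (R9DblB_H ω z p.1 * R9DblB_H ω z p.2 * C)
  refine h2.mono' (R9DblB_G_meas1 β ω hω z p).aestronglyMeasurable (Filter.Eventually.of_forall fun Y => ?_)
  rw [Real.norm_eq_abs]
  exact R9DblB_G_bound hβ hgb ω z p.1 p.2 Y

private theorem R9DblB_G_int {ν : Measure (X d)} [IsFiniteMeasure ν] {β C : ℝ} (hβ : 0 < β)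
    (hgb : ∀ v : X d, R9DblB_g β v ≤ C) (ω : X d → ℝ) (hω : Measurable ω) (z : X d)
    (hH : Integrable (R9DblB_H ω z) ν) :
    Integrable (R9DblB_G β ω z) ((ν.prod ν).prod volume) := by
  have hGm := R9DblB_G_meas β ω hω z
  rw [integrable_prod_iff hGm.aestronglyMeasurable]
  refine ⟨Filter.Eventually.of_forall (R9DblB_G_slice hβ hgb ω hω z), ?_⟩
  have hmul : Integrable (fun p : X d × X d => R9DblB_H ω z p.1 * R9DblB_H ω z p.2) (ν.prod ν) :=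
    hH.mul_prod hH
  have hmul2 := hmul.mul_const (C * ∫ w : X d, R9DblB_g β w)
  have hms : AEStronglyMeasurable (fun p : X d × X d => ∫ Y, ‖R9DblB_G β ω z (p, Y)‖) (ν.prod ν) :=
    hGm.norm.aestronglyMeasurable.integral_prod_right'
  refine hmul2.mono' hms (Filter.Eventually.of_forall fun p => ?_)
  have h0 : 0 ≤ ∫ Y, ‖R9DblB_G β ω z (p, Y)‖ := integral_nonneg fun Y => norm_nonneg _
  rw [Real.norm_of_nonneg h0]
  have h1 : Integrable (fun Y : X d => R9DblB_g β (p.1 - Y)) := (R9DblB_g_integrable hβ).comp_sub_left p.1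
  have h2 := h1.const_mul (R9DblB_H ω z p.1 * R9DblB_H ω z p.2 * C)
  have h3 : ∫ Y : X d, R9DblB_g β (p.1 - Y) = ∫ w : X d, R9DblB_g β w :=
    integral_sub_left_eq_self (fun w : X d => R9DblB_g β w) volume p.1
  calc ∫ Y, ‖R9DblB_G β ω z (p, Y)‖
      ≤ ∫ Y, (R9DblB_H ω z p.1 * R9DblB_H ω z p.2 * C) * R9DblB_g β (p.1 - Y) := by
        refine integral_mono (R9DblB_G_slice hβ hgb ω hω z p).norm h2 fun Y => ?_
        simp only [Real.norm_eq_abs]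
        exact R9DblB_G_bound hβ hgb ω z p.1 p.2 Y
    _ = (R9DblB_H ω z p.1 * R9DblB_H ω z p.2 * C) * ∫ w : X d, R9DblB_g β w := by
        rw [integral_const_mul, h3]
    _ = _ := by ring

theorem doubleB {ν : Measure (X d)} [IsFiniteMeasure ν] (ω : X d → ℝ) (hω : Measurable ω)
    (z : X d) (h1 : Integrable ω ν) (h2 : Integrable (fun x => ω x * ‖x - z‖ ^ 2) ν) {t : ℝ}
    (ht : 0 < t) :
    Integrable (fun p : X d × X d => ω p.1 * ω p.2 * mtb (p.1 - z) (p.2 - z) t) (ν.prod ν) ∧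
    Integrable (fun Y : X d => (∫ x, ω x * ek2 (2 / t ^ 2) z x Y ∂ν) ^ 2) ∧
    ∫ Y : X d, (∫ x, ω x * ek2 (2 / t ^ 2) z x Y ∂ν) ^ 2 = t ^ d * gc d 4 *
      ∫ p : X d × X d, ω p.1 * ω p.2 * mtb (p.1 - z) (p.2 - z) t ∂(ν.prod ν) := by
  have hβ : (0:ℝ) < 2 / t ^ 2 := by positivity
  obtain ⟨C, hgb⟩ := R9DblB_g_bound d hβ
  have hH := R9DblB_H_int ω z h1 h2
  have hGi := R9DblB_G_int (ν := ν) hβ hgb ω hω z hH
  have hY : ∀ Y : X d, (∫ x, ω x * ek2 (2 / t ^ 2) z x Y ∂ν) ^ 2 =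
      ∫ p, R9DblB_G (2 / t ^ 2) ω z (p, Y) ∂(ν.prod ν) := by
    intro Y
    rw [sq]
    exact (integral_prod_mul (fun x => ω x * ek2 (2 / t ^ 2) z x Y)
      (fun x => ω x * ek2 (2 / t ^ 2) z x Y)).symm
  have hP : ∀ p : X d × X d, ∫ Y, R9DblB_G (2 / t ^ 2) ω z (p, Y) = t ^ d * gc d 4 *
      (ω p.1 * ω p.2 * mtb (p.1 - z) (p.2 - z) t) := by
    intro p
    have hg := gauss_pairB ht z p.1 p.2
    have h3 : ∀ Y : X d, R9DblB_G (2 / t ^ 2) ω z (p, Y) = (ω p.1 * ω p.2) *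
        (ek2 (2 / t ^ 2) z p.1 Y * ek2 (2 / t ^ 2) z p.2 Y) := by
      intro Y
      unfold R9DblB_G
      ring
    rw [integral_congr_ae (Filter.Eventually.of_forall h3), integral_const_mul, hg]
    ring
  have hconst : 0 < t ^ d * gc d 4 := mul_pos (pow_pos ht d) (gc_pos (by norm_num))
  refine ⟨?_, ?_, ?_⟩
  · have h4 := hGi.integral_prod_left
    have h5 := h4.const_mul (t ^ d * gc d 4)⁻¹
    refine h5.congr (Filter.Eventually.of_forall fun p => ?_)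
    simp only
    rw [hP p, ← mul_assoc, inv_mul_cancel₀ hconst.ne', one_mul]
  · have h4 := hGi.integral_prod_right
    exact h4.congr (Filter.Eventually.of_forall fun Y => (hY Y).symm)
  · have h4 : ∫ Y : X d, (∫ x, ω x * ek2 (2 / t ^ 2) z x Y ∂ν) ^ 2 =
        ∫ Y : X d, ∫ p, R9DblB_G (2 / t ^ 2) ω z (p, Y) ∂(ν.prod ν) :=
      integral_congr_ae (Filter.Eventually.of_forall hY)
    have h5 : ∫ p, (∫ Y, R9DblB_G (2 / t ^ 2) ω z (p, Y)) ∂(ν.prod ν) =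
        ∫ Y : X d, ∫ p, R9DblB_G (2 / t ^ 2) ω z (p, Y) ∂(ν.prod ν) :=
      integral_integral_swap (f := fun p Y => R9DblB_G (2 / t ^ 2) ω z (p, Y)) hGi
    rw [h4, ← h5, integral_congr_ae (Filter.Eventually.of_forall hP), integral_const_mul]

end Pool.Agent.H48.R9
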