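import Pool.Agent.H48.R9.DbqA
import Pool.Agent.H48.R9.DblB

/-!
fb_double: as f2_double in R7/Dbq.lean: ⟪a,b⟫³ = ∑_{i,j,k} a_i a_j a_k b_i b_j b_k, ω_ijk(x) = ‖x-z‖⁻¹^10 a_i a_j a_k,
|ω_ijk| ≤ ‖x-z‖⁻¹^7, |ω_ijk| ‖x-z‖² ≤ ‖x-z‖⁻¹^5 (nice_int9), doubleB.
-/

set_option autoImplicit false

open MeasureTheory Filter Topology Metric Set
open scoped RealInnerProductSpace ENNReal

namespace Pool.Agent.H48.R9

open Pool.Agent.RZ Pool.Agent.H1.LD Pool.Agent.H48.R7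

variable {d : ℕ}

/-- the components of the cubic weight -/
private noncomputable def R9DbqB_w (z : X d) (s : Fin d × Fin d × Fin d) (x : X d) : ℝ :=
  ‖x - z‖⁻¹ ^ 10 * ((x - z) s.1 * (x - z) s.2.1 * (x - z) s.2.2)

private theorem R9DbqB_w_meas (z : X d) (s : Fin d × Fin d × Fin d) :
    Measurable (R9DbqB_w z s) := by
  unfold R9DbqB_w
  fun_prop

private theorem R9DbqB_w_abs (z : X d) (s : Fin d × Fin d × Fin d) (x : X d) :
    |R9DbqB_w z s x| ≤ ‖x - z‖⁻¹ ^ 7 := by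
  unfold R9DbqB_w
  have h1 : |(x - z) s.1| ≤ ‖x - z‖ := PiLp.norm_apply_le (x - z) s.1
  have h2 : |(x - z) s.2.1| ≤ ‖x - z‖ := PiLp.norm_apply_le (x - z) s.2.1
  have h3 : |(x - z) s.2.2| ≤ ‖x - z‖ := PiLp.norm_apply_le (x - z) s.2.2
  rw [abs_mul, abs_of_nonneg (by positivity : (0:ℝ) ≤ ‖x - z‖⁻¹ ^ 10), abs_mul, abs_mul]
  have h4 : |(x - z) s.1| * |(x - z) s.2.1| * |(x - z) s.2.2| ≤ ‖x - z‖ * ‖x - z‖ * ‖x - z‖ := by
    gcongr
  calc ‖x - z‖⁻¹ ^ 10 * (|(x - z) s.1| * |(x - z) s.2.1| * |(x - z) s.2.2|)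
      ≤ ‖x - z‖⁻¹ ^ 10 * (‖x - z‖ * ‖x - z‖ * ‖x - z‖) := mul_le_mul_of_nonneg_left h4 (by positivity)
    _ = ‖x - z‖⁻¹ ^ 7 := by
        by_cases hx : ‖x - z‖ = 0
        · rw [hx]; norm_num
        · field_simp

private theorem R9DbqB_w_int {ν : Measure (X d)} (h : Nice9 ν) (z : X d)
    (s : Fin d × Fin d × Fin d) : Integrable (R9DbqB_w z s) ν := by
  refine (nice_int9 h z (k := 7) (by norm_num)).mono' (R9DbqB_w_meas z s).aestronglyMeasurable
    (Filter.Eventually.of_forall fun x => ?_)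
  rw [Real.norm_eq_abs]
  exact R9DbqB_w_abs z s x

private theorem R9DbqB_w_int2 {ν : Measure (X d)} (h : Nice9 ν) (z : X d)
    (s : Fin d × Fin d × Fin d) : Integrable (fun x => R9DbqB_w z s x * ‖x - z‖ ^ 2) ν := by
  have hm : Measurable (fun x => R9DbqB_w z s x * ‖x - z‖ ^ 2) :=
    (R9DbqB_w_meas z s).mul ((measurable_id.sub_const z).norm.pow_const 2)
  refine (nice_int9 h z (k := 5) (by norm_num)).mono' hm.aestronglyMeasurable
    (Filter.Eventually.of_forall fun x => ?_)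
  rw [Real.norm_eq_abs, abs_mul, abs_pow, abs_norm]
  calc |R9DbqB_w z s x| * ‖x - z‖ ^ 2 ≤ ‖x - z‖⁻¹ ^ 7 * ‖x - z‖ ^ 2 :=
        mul_le_mul_of_nonneg_right (R9DbqB_w_abs z s x) (by positivity)
    _ = ‖x - z‖⁻¹ ^ 5 := by
        by_cases hx : ‖x - z‖ = 0
        · rw [hx]; norm_num
        · field_simp

private theorem R9DbqB_cube (a b : X d) : ⟪a, b⟫ ^ 3 =
    ∑ s : Fin d × Fin d × Fin d, (a s.1 * a s.2.1 * a s.2.2) * (b s.1 * b s.2.1 * b s.2.2) := by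
  have h1 : (⟪a, b⟫ : ℝ) = ∑ i, a i * b i := by
    rw [PiLp.inner_apply]
    refine Finset.sum_congr rfl fun i _ => ?_
    simp [mul_comm]
  rw [h1, pow_succ, sq, Fintype.sum_prod_type]
  simp only [Fintype.sum_prod_type]
  rw [Finset.sum_mul_sum, Finset.sum_mul]
  refine Finset.sum_congr rfl fun i _ => ?_
  rw [Finset.sum_mul_sum]
  refine Finset.sum_congr rfl fun j _ => Finset.sum_congr rfl fun k _ => ?_
  ring

private theorem R9DbqB_fb (z : X d) (p : X d × X d) (t : ℝ) : fb z p t =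
    ∑ s : Fin d × Fin d × Fin d,
      t⁻¹ ^ 5 * (R9DbqB_w z s p.1 * R9DbqB_w z s p.2 * mtb (p.1 - z) (p.2 - z) t) := by
  unfold fb
  rw [R9DbqB_cube, Finset.mul_sum, Finset.sum_mul]
  refine Finset.sum_congr rfl fun s _ => ?_
  unfold R9DbqB_w
  ring

theorem fb_double {ν : Measure (X d)} (h : Nice9 ν) (z : X d) {t : ℝ} (ht : 0 < t) :
    Integrable (fun p : X d × X d => fb z p t) (ν.prod ν) ∧
    0 ≤ ∫ p, fb z p t ∂(ν.prod ν) := by
  have hfin : IsFiniteMeasure ν := h.1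
  have hconst : 0 < t ^ d * gc d 4 := mul_pos (pow_pos ht d) (gc_pos (by norm_num))
  have ht5 : 0 ≤ t⁻¹ ^ 5 := by positivity
  have key := fun s : Fin d × Fin d × Fin d =>
    doubleB (ν := ν) (R9DbqB_w z s) (R9DbqB_w_meas z s) z (R9DbqB_w_int h z s)
      (R9DbqB_w_int2 h z s) ht
  have hi : ∀ s ∈ (Finset.univ : Finset (Fin d × Fin d × Fin d)), Integrable (fun p : X d × X d =>
      t⁻¹ ^ 5 * (R9DbqB_w z s p.1 * R9DbqB_w z s p.2 * mtb (p.1 - z) (p.2 - z) t)) (ν.prod ν) :=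
    fun s _ => (key s).1.const_mul _
  refine ⟨?_, ?_⟩
  · refine (integrable_finsetSum _ hi).congr (Filter.Eventually.of_forall fun p => ?_)
    simp only
    exact (R9DbqB_fb z p t).symm
  · rw [integral_congr_ae (Filter.Eventually.of_forall fun p => R9DbqB_fb z p t),
      integral_finsetSum _ hi]
    refine Finset.sum_nonneg fun s _ => ?_
    rw [integral_const_mul]
    refine mul_nonneg ht5 ?_
    have h0 : 0 ≤ ∫ Y : X d, (∫ x, R9DbqB_w z s x * ek2 (2 / t ^ 2) z x Y ∂ν) ^ 2 :=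
      integral_nonneg fun Y => by positivity
    rw [(key s).2.2] at h0
    exact nonneg_of_mul_nonneg_right h0 hconst

end Pool.Agent.H48.R9
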