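import Pool.Agent.H48.R9.DbqA

/-!
fa_double, general (m,j,k).  Template: f2_double in R7/Dbq.lean.  Suggested induction on j: for every measurable W : X d → ℝ with
|W x| ≤ ‖x-z‖⁻¹^(e) for all x, where e = 2m - (number of factors used so far), 1 ≤ e - j.. : ∬ W W' ⟪a,b⟫^j mta k is integrable and
≥ 0 (a = p.1 - z, b = p.2 - z), using ⟪a,b⟫^(j+1) = ∑_i (a_i b_i) ⟪a,b⟫^j and W_i(x) = W x * (x-z)_i, |W_i| ≤ ‖x-z‖⁻¹^(e-1)
(‖x-z‖⁻¹^(e) ‖x-z‖ ≤ ‖x-z‖⁻¹^(e-1) for e ≥ 1, also at x = z when W z = 0, and for e - 1 = 0 it is ≤ 1).  At j = 0: double7 with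
ω = W: it needs W and W ‖x-z‖ integrable: |W| ≤ ‖x-z‖⁻¹^e with 1 ≤ e ≤ 9 (nice_int9), |W|‖x-z‖ ≤ ‖x-z‖⁻¹^(e-1).  The left side
of the third statement of double7 is ≥ 0 and t^d gc d 4 > 0.  Start: W = ‖x-z‖⁻¹^(2m), after j factors e = 2m - j, 1 ≤ e ≤ 9.
Alternative: multi-indices I : Fin j → Fin d (Finset.prod_univ_sum).
-/

set_option autoImplicit false

open MeasureTheory Filter Topology Metric Set
open scoped RealInnerProductSpace ENNReal

namespace Pool.Agent.H48.R9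

open Pool.Agent.RZ Pool.Agent.H1.LD Pool.Agent.H48.R7

variable {d : ℕ}

private theorem R9DbqC_pow {r : ℝ} (hr : 0 ≤ r) (e : ℕ) : r⁻¹ ^ (e + 1) * r ≤ r⁻¹ ^ e := by
  rcases hr.eq_or_lt with h | h
  · rw [← h, mul_zero]
    positivity
  · rw [pow_succ, mul_assoc, inv_mul_cancel₀ h.ne', mul_one]

private theorem R9DbqC_inner (a b : X d) : (⟪a, b⟫ : ℝ) = ∑ i, a i * b i := by
  rw [PiLp.inner_apply]
  refine Finset.sum_congr rfl fun i _ => ?_
  simp [mul_comm]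

private theorem R9DbqC_aux {ν : Measure (X d)} (h : Nice9 ν) (α : ℝ) (z : X d) {t : ℝ} (ht : 0 < t) (j : ℕ) :
    ∀ (e : ℕ) (W : X d → ℝ), j < e → e ≤ j + 9 → Measurable W → (∀ x, |W x| ≤ ‖x - z‖⁻¹ ^ e) →
      Integrable (fun p : X d × X d => W p.1 * W p.2 * ⟪p.1 - z, p.2 - z⟫ ^ j * mta α (p.1 - z) (p.2 - z) t)
        (ν.prod ν) ∧
      0 ≤ ∫ p : X d × X d, W p.1 * W p.2 * ⟪p.1 - z, p.2 - z⟫ ^ j * mta α (p.1 - z) (p.2 - z) t ∂(ν.prod ν) := by
  have hfin : IsFiniteMeasure ν := h.1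
  have hconst : 0 < t ^ d * gc d 4 := mul_pos (pow_pos ht d) (gc_pos (by norm_num))
  induction j with
  | zero =>
    intro e W h1 h2 hW hb
    have i1 : Integrable W ν := by
      refine (nice_int9 h z (k := e) (by omega)).mono' hW.aestronglyMeasurable
        (Filter.Eventually.of_forall fun x => ?_)
      rw [Real.norm_eq_abs]
      exact hb x
    have i2 : Integrable (fun x => W x * ‖x - z‖) ν := by
      have hm : Measurable (fun x => W x * ‖x - z‖) := hW.mul (measurable_id.sub_const z).norm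
      refine (nice_int9 h z (k := e - 1) (by omega)).mono' hm.aestronglyMeasurable
        (Filter.Eventually.of_forall fun x => ?_)
      rw [Real.norm_eq_abs, abs_mul, abs_norm]
      obtain ⟨e', rfl⟩ : ∃ e', e = e' + 1 := ⟨e - 1, by omega⟩
      rw [Nat.add_sub_cancel]
      exact (mul_le_mul_of_nonneg_right (hb x) (norm_nonneg _)).trans (R9DbqC_pow (norm_nonneg _) e')
    obtain ⟨k1, -, k3⟩ := double7 (ν := ν) α W hW z i1 i2 ht
    have hf : (fun p : X d × X d => W p.1 * W p.2 * ⟪p.1 - z, p.2 - z⟫ ^ 0 * mta α (p.1 - z) (p.2 - z) t) =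
        fun p : X d × X d => W p.1 * W p.2 * mta α (p.1 - z) (p.2 - z) t := by
      funext p
      rw [pow_zero, mul_one]
    rw [hf]
    refine ⟨k1, ?_⟩
    have h0 : 0 ≤ ∫ Y : X d, (∫ x, W x * ek α (2 / t ^ 2) z x Y ∂ν) ^ 2 :=
      integral_nonneg fun Y => by positivity
    rw [k3] at h0
    exact nonneg_of_mul_nonneg_right h0 hconst
  | succ j ih =>
    intro e W h1 h2 hW hb
    obtain ⟨e', rfl⟩ : ∃ e', e = e' + 1 := ⟨e - 1, by omega⟩
    have key := fun i : Fin d => ih e' (fun x => W x * (x - z) i) (by omega) (by omega)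
      (hW.mul (by fun_prop)) (fun x => by
        rw [abs_mul]
        have h3 : |(x - z) i| ≤ ‖x - z‖ := PiLp.norm_apply_le (x - z) i
        exact (mul_le_mul (hb x) h3 (abs_nonneg _) (by positivity)).trans (R9DbqC_pow (norm_nonneg _) e'))
    have hf : (fun p : X d × X d => W p.1 * W p.2 * ⟪p.1 - z, p.2 - z⟫ ^ (j + 1) *
        mta α (p.1 - z) (p.2 - z) t) = fun p : X d × X d => ∑ i : Fin d, W p.1 * (p.1 - z) i *
          (W p.2 * (p.2 - z) i) * ⟪p.1 - z, p.2 - z⟫ ^ j * mta α (p.1 - z) (p.2 - z) t := by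
      funext p
      rw [pow_succ', R9DbqC_inner (p.1 - z) (p.2 - z)]
      generalize (∑ i : Fin d, (p.1 - z) i * (p.2 - z) i) ^ j = q
      rw [Finset.sum_mul, Finset.mul_sum, Finset.sum_mul]
      refine Finset.sum_congr rfl fun i _ => ?_
      ring
    rw [hf]
    have hi : ∀ i ∈ (Finset.univ : Finset (Fin d)), Integrable (fun p : X d × X d => W p.1 * (p.1 - z) i *
          (W p.2 * (p.2 - z) i) * ⟪p.1 - z, p.2 - z⟫ ^ j * mta α (p.1 - z) (p.2 - z) t) (ν.prod ν) :=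
      fun i _ => (key i).1
    refine ⟨integrable_finsetSum _ hi, ?_⟩
    rw [integral_finsetSum _ hi]
    exact Finset.sum_nonneg fun i _ => (key i).2

theorem fa_double {ν : Measure (X d)} (h : Nice9 ν) (m j k : ℕ) (h1 : j < 2 * m)
    (h2 : 2 * m ≤ j + 9) (z : X d) {t : ℝ} (ht : 0 < t) :
    Integrable (fun p : X d × X d => fa m j k z p t) (ν.prod ν) ∧
    0 ≤ ∫ p, fa m j k z p t ∂(ν.prod ν) := by
  obtain ⟨k1, k2⟩ := R9DbqC_aux h (k : ℝ) z ht j (2 * m) (fun x => ‖x - z‖⁻¹ ^ (2 * m)) h1 h2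
    (((measurable_id.sub_const z).norm.inv).pow_const _) (fun x => by
      rw [abs_of_nonneg (by positivity)])
  have hf : (fun p : X d × X d => fa m j k z p t) = fun p : X d × X d => t⁻¹ ^ (2 * k + 1) *
      (‖p.1 - z‖⁻¹ ^ (2 * m) * ‖p.2 - z‖⁻¹ ^ (2 * m) * ⟪p.1 - z, p.2 - z⟫ ^ j *
        mta (k : ℝ) (p.1 - z) (p.2 - z) t) := by
    funext p
    unfold fa
    ring
  rw [hf]
  refine ⟨k1.const_mul _, ?_⟩
  rw [integral_const_mul]
  exact mul_nonneg (by positivity) k2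

end Pool.Agent.H48.R9
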