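import Pool.Agent.H48.R9.Defs
import Pool.Agent.H48.R7.Dbl

/-!
Template: R7/Dbq.lean (nice_int, Q7_double).  nice_int9: r⁻ᵏ ≤ 1 + r⁻⁹ for k ≤ 9.
Q9_double: double7 with α = 1, ω x = ‖x-z‖⁻¹^8 (fa 4 0 1 is f1 with 8 for 6; the cast ((1:ℕ):ℝ) = 1, x^0 = 1).
-/

set_option autoImplicit false

open MeasureTheory Filter Topology Metric Set
open scoped RealInnerProductSpace ENNReal

namespace Pool.Agent.H48.R9

open Pool.Agent.RZ Pool.Agent.H1.LD Pool.Agent.H48.R7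

variable {d : ℕ}

theorem nice_int9 {ν : Measure (X d)} (h : Nice9 ν) (z : X d) {k : ℕ} (hk : k ≤ 9) :
    Integrable (fun x : X d => ‖x - z‖⁻¹ ^ k) ν := by
  obtain ⟨hf, C, hC⟩ := h
  have hm : Measurable (fun x : X d => ‖x - z‖⁻¹ ^ k) :=
    ((measurable_id.sub_const z).norm.inv).pow_const k
  refine ⟨hm.aestronglyMeasurable, ?_⟩
  rw [hasFiniteIntegral_iff_enorm]
  have hle : ∀ x : X d, ‖(‖x - z‖⁻¹ ^ k : ℝ)‖ₑ ≤ 1 + ‖x - z‖ₑ⁻¹ ^ 9 := by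
    intro x
    by_cases hx : x - z = 0
    · rw [hx]; simp
    · have hpos : 0 < ‖x - z‖ := norm_pos_iff.2 hx
      have h1 : ‖(‖x - z‖⁻¹ ^ k : ℝ)‖ₑ = ‖x - z‖ₑ⁻¹ ^ k := by
        rw [enorm_pow, enorm_inv hpos.ne', enorm_norm]
      rw [h1]
      set e : ℝ≥0∞ := ‖x - z‖ₑ⁻¹ with he
      rcases le_total e 1 with h2 | h2
      · calc e ^ k ≤ 1 := pow_le_one₀ zero_le h2
          _ ≤ 1 + e ^ 9 := le_self_add
      · calc e ^ k ≤ e ^ 9 := pow_le_pow_right₀ h2 hk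
          _ ≤ 1 + e ^ 9 := le_add_self
  calc ∫⁻ x, ‖(‖x - z‖⁻¹ ^ k : ℝ)‖ₑ ∂ν ≤ ∫⁻ x, (1 + ‖x - z‖ₑ⁻¹ ^ 9) ∂ν := lintegral_mono hle
    _ = ν univ + ∫⁻ x, ‖x - z‖ₑ⁻¹ ^ 9 ∂ν := by
        rw [lintegral_add_left measurable_const]; simp
    _ ≤ ν univ + ENNReal.ofReal C := by gcongr; exact hC z
    _ < ⊤ := ENNReal.add_lt_top.2 ⟨measure_lt_top ν univ, ENNReal.ofReal_lt_top⟩

private theorem R9DbqA_meas (z : X d) (k : ℕ) : Measurable (fun x : X d => ‖x - z‖⁻¹ ^ k) :=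
  ((measurable_id.sub_const z).norm.inv).pow_const k

theorem Q9_double {ν : Measure (X d)} (h : Nice9 ν) (z : X d) {t : ℝ} (ht : 0 < t) :
    Q9 ν z t * ENNReal.ofReal t⁻¹ = ENNReal.ofReal (∫ p, fa 4 0 1 z p t ∂(ν.prod ν)) := by
  have hfin : IsFiniteMeasure ν := h.1
  have i1 : Integrable (fun x : X d => ‖x - z‖⁻¹ ^ 8) ν := nice_int9 h z (by norm_num)
  have i2 : Integrable (fun x : X d => ‖x - z‖⁻¹ ^ 8 * ‖x - z‖) ν := by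
    refine (nice_int9 h z (k := 7) (by norm_num)).congr (Filter.Eventually.of_forall fun x => ?_)
    simp only
    by_cases hx : ‖x - z‖ = 0
    · rw [hx]; norm_num
    · field_simp
  obtain ⟨h1, h2, h3⟩ := double7 (ν := ν) 1 (fun x => ‖x - z‖⁻¹ ^ 8) (R9DbqA_meas z 8) z i1 i2 ht
  have hconst : 0 < t ^ d * gc d 4 := mul_pos (pow_pos ht d) (gc_pos (by norm_num))
  have ht3 : 0 ≤ t⁻¹ ^ 3 := by positivity
  set J : ℝ := ∫ p : X d × X d, ‖p.1 - z‖⁻¹ ^ 8 * ‖p.2 - z‖⁻¹ ^ 8 * mta 1 (p.1 - z) (p.2 - z) t ∂(ν.prod ν)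
    with hJ
  have hf : ∀ p : X d × X d, fa 4 0 1 z p t =
      t⁻¹ ^ 3 * (‖p.1 - z‖⁻¹ ^ 8 * ‖p.2 - z‖⁻¹ ^ 8 * mta 1 (p.1 - z) (p.2 - z) t) := by
    intro p
    unfold fa
    rw [Nat.cast_one, pow_zero]
    ring
  have hJf : ∫ p, fa 4 0 1 z p t ∂(ν.prod ν) = t⁻¹ ^ 3 * J := by
    rw [integral_congr_ae (Filter.Eventually.of_forall hf), integral_const_mul]
  have h0 : 0 ≤ ∫ Y : X d, (∫ x, ‖x - z‖⁻¹ ^ 8 * ek 1 (2 / t ^ 2) z x Y ∂ν) ^ 2 :=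
    integral_nonneg fun Y => by positivity
  have hJ0 : 0 ≤ J := by
    rw [h3] at h0
    exact nonneg_of_mul_nonneg_right h0 hconst
  rw [hJf]
  unfold Q9
  have h4 : ∫⁻ Y, ‖K9 ν z (2 / t ^ 2) Y‖ₑ ^ 2 =
      ENNReal.ofReal (∫ Y : X d, (∫ x, ‖x - z‖⁻¹ ^ 8 * ek 1 (2 / t ^ 2) z x Y ∂ν) ^ 2) := by
    rw [ofReal_integral_eq_lintegral_ofReal h2 (Filter.Eventually.of_forall fun Y => by positivity)]
    refine lintegral_congr fun Y => ?_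
    change ‖K9 ν z (2 / t ^ 2) Y‖ₑ ^ 2 = ENNReal.ofReal (K9 ν z (2 / t ^ 2) Y ^ 2)
    generalize K9 ν z (2 / t ^ 2) Y = r
    rw [← sq_abs r, ENNReal.ofReal_pow (abs_nonneg _), ← Real.norm_eq_abs, ofReal_norm]
  rw [h4, h3, ← ENNReal.ofReal_mul (by positivity), ← ENNReal.ofReal_mul (by positivity)]
  congr 1
  have hc := hconst.ne'
  calc (t ^ d * gc d 4)⁻¹ * t⁻¹ ^ 2 * (t ^ d * gc d 4 * J) * t⁻¹
      = ((t ^ d * gc d 4)⁻¹ * (t ^ d * gc d 4)) * (t⁻¹ ^ 3 * J) := by ring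
    _ = t⁻¹ ^ 3 * J := by rw [inv_mul_cancel₀ hc, one_mul]

end Pool.Agent.H48.R9
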