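import Pool.Agent.H48.R7.Defs
import Pool.Agent.H1.LD.Qd

/-!
The square function of dimension nine: definitions.
-/

set_option autoImplicit false

open MeasureTheory Filter Topology Metric Set
open scoped RealInnerProductSpace ENNReal

namespace Pool.Agent.H48.R9

open Pool.Agent.RZ Pool.Agent.H1.LD Pool.Agent.H48.R7

variable {d : ℕ}

/-- the scalar kernel of dimension nine, integrated against the measure -/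
noncomputable def K9 (μ : Measure (X d)) (z : X d) (β : ℝ) (Y : X d) : ℝ :=
  ∫ x, ‖x - z‖⁻¹ ^ 8 * ek 1 β z x Y ∂μ

/-- the square function -/
noncomputable def Q9 (μ : Measure (X d)) (z : X d) (t : ℝ) : ℝ≥0∞ :=
  ENNReal.ofReal ((t ^ d * gc d 4)⁻¹ * t⁻¹ ^ 2) * ∫⁻ Y, ‖K9 μ z (2 / t ^ 2) Y‖ₑ ^ 2

/-- measures for which all kernels are absolutely integrable -/
def Nice9 (ν : Measure (X d)) : Prop :=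
  IsFiniteMeasure ν ∧ ∃ C : ℝ, ∀ p : X d, ∫⁻ x, ‖x - p‖ₑ⁻¹ ^ 9 ∂ν ≤ ENNReal.ofReal C

/-- the Riesz transform of dimension nine of a nice measure -/
noncomputable def F9 (ν : Measure (X d)) (z : X d) : X d := ∫ x, ‖z - x‖⁻¹ ^ 10 • (z - x) ∂ν

/-- two plus the Euler operator about `z`, applied twice to the Gaussian `exp (-β |x - Y|^2)` -/
noncomputable def ek2 (β : ℝ) (z x Y : X d) : ℝ :=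
  (4 - 10 * β * ⟪x - z, x - Y⟫ - 2 * β * ‖x - z‖ ^ 2 + 4 * β ^ 2 * ⟪x - z, x - Y⟫ ^ 2) *
    ga β (x - Y)

/-- the product `⟪a, a - b⟫ ⟪b, b - a⟫` -/
noncomputable def pr (a b : X d) : ℝ := ⟪a, a - b⟫ * ⟪b, b - a⟫

/-- `(E_a + 2)^2 (E_b + 2)^2 exp (-|a - b|^2 / t^2)` -/
noncomputable def mtb (a b : X d) (t : ℝ) : ℝ :=
  (16 + (34 * ⟪a, b⟫ - 48 * ‖a - b‖ ^ 2) / t ^ 2 +
    (12 * ⟪a, b⟫ ^ 2 + 112 * pr a b - 16 * ‖a - b‖ ^ 2 * ⟪a, b⟫ + 16 * ‖a - b‖ ^ 4) / t ^ 4 +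
    (48 * pr a b * ⟪a, b⟫ - 48 * ‖a - b‖ ^ 2 * pr a b - 8 * ‖a - b‖ ^ 4 * ⟪a, b⟫) / t ^ 6 +
    16 * pr a b ^ 2 / t ^ 8) * Real.exp (-(‖a - b‖ ^ 2 / t ^ 2))

/-- `∫ mta 0 a b t * t^{-1} dt` -/
noncomputable def i0 (a b : X d) : ℝ :=
  ⟪a, b⟫ * ‖a - b‖⁻¹ ^ 2 + 2 * pr a b * ‖a - b‖⁻¹ ^ 4

/-- `∫ mta 3 a b t * t^{-7} dt` -/
noncomputable def i3 (a b : X d) : ℝ :=
  -9 * ‖a - b‖⁻¹ ^ 6 + 6 * ⟪a, b⟫ * ‖a - b‖⁻¹ ^ 8 + 48 * pr a b * ‖a - b‖⁻¹ ^ 10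

/-- `∫ mtb a b t * t^{-5} dt` -/
noncomputable def j2 (a b : X d) : ℝ :=
  8 * ‖a - b‖⁻¹ ^ 4 - 110 * ⟪a, b⟫ * ‖a - b‖⁻¹ ^ 6 - 240 * pr a b * ‖a - b‖⁻¹ ^ 8 +
    36 * ⟪a, b⟫ ^ 2 * ‖a - b‖⁻¹ ^ 8 + 576 * pr a b * ⟪a, b⟫ * ‖a - b‖⁻¹ ^ 10 +
    960 * pr a b ^ 2 * ‖a - b‖⁻¹ ^ 12

/-- the time integral of `mta k a b t * t^{-(2k+1)}`, `k ≤ 3` -/
noncomputable def ik : ℕ → X d → X d → ℝ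
  | 0 => i0
  | 1 => i1
  | 2 => i2
  | _ => i3

/-- the certificate -/
noncomputable def W9 (a b : X d) : ℝ :=
  1 / 16 * (‖a‖⁻¹ ^ 8 * ‖b‖⁻¹ ^ 8 * ⟪a, b⟫ ^ 0 * ik 1 a b) +
  (1 / 128 * (‖a‖⁻¹ ^ 8 * ‖b‖⁻¹ ^ 8 * ⟪a, b⟫ ^ 1 * ik 2 a b) +
  (103 / 96 * (‖a‖⁻¹ ^ 12 * ‖b‖⁻¹ ^ 12 * ⟪a, b⟫ ^ 3 * ik 0 a b) +
  (137 / 48 * (‖a‖⁻¹ ^ 12 * ‖b‖⁻¹ ^ 12 * ⟪a, b⟫ ^ 4 * ik 1 a b) +
  (125 / 96 * (‖a‖⁻¹ ^ 12 * ‖b‖⁻¹ ^ 12 * ⟪a, b⟫ ^ 5 * ik 2 a b) +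
  (7 / 48 * (‖a‖⁻¹ ^ 12 * ‖b‖⁻¹ ^ 12 * ⟪a, b⟫ ^ 6 * ik 3 a b) +
  1 / 192 * (‖a‖⁻¹ ^ 10 * ‖b‖⁻¹ ^ 10 * ⟪a, b⟫ ^ 3 * j2 a b))))))

/-- the symmetric product of two Riesz kernels -/
noncomputable def L9 (a b : X d) : ℝ := ‖a‖⁻¹ ^ 10 * ‖b‖⁻¹ ^ 10 * ⟪a, b⟫

/-- the time integrand of the atom `(j, k)` of the first kind, with the weight `|a|^{-2m} |b|^{-2m}` -/
noncomputable def fa (m j k : ℕ) (z : X d) (p : X d × X d) (t : ℝ) : ℝ :=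
  ‖p.1 - z‖⁻¹ ^ (2 * m) * ‖p.2 - z‖⁻¹ ^ (2 * m) * ⟪p.1 - z, p.2 - z⟫ ^ j *
    (mta k (p.1 - z) (p.2 - z) t * t⁻¹ ^ (2 * k + 1))

/-- the time integrand of the atom of the second kind -/
noncomputable def fb (z : X d) (p : X d × X d) (t : ℝ) : ℝ :=
  ‖p.1 - z‖⁻¹ ^ 10 * ‖p.2 - z‖⁻¹ ^ 10 * ⟪p.1 - z, p.2 - z⟫ ^ 3 *
    (mtb (p.1 - z) (p.2 - z) t * t⁻¹ ^ 5)

/-- the majorant of all triple integrals -/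
noncomputable def S9 (q : X d × (X d × X d)) : ℝ :=
  ‖q.2.1 - q.1‖⁻¹ ^ 9 * ‖q.2.2 - q.1‖⁻¹ ^ 9 + ‖q.2.1 - q.1‖⁻¹ ^ 9 * ‖q.2.1 - q.2.2‖⁻¹ ^ 9 +
    ‖q.2.2 - q.1‖⁻¹ ^ 9 * ‖q.2.1 - q.2.2‖⁻¹ ^ 9

end Pool.Agent.H48.R9
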