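import Pool.Agent.H48.R9.EnA
import Pool.Agent.H48.R9.Ker
import Pool.Agent.H48.R9.Mono

/-!
Template: R7/EnC.lean with 7 replaced by 9, 8 by 10.
-/

set_option autoImplicit false

open MeasureTheory Filter Topology Metric Set
open scoped RealInnerProductSpace ENNReal

namespace Pool.Agent.H48.R9

open Pool.Agent.RZ Pool.Agent.H1.LD Pool.Agent.H48.R7

variable {d : ℕ}

private theorem R9EnC_le (p q : X d) : ‖‖p - q‖⁻¹ ^ 9‖ₑ ≤ ‖p - q‖ₑ⁻¹ ^ 9 := by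
  rcases eq_or_ne p q with rfl | h
  · simp
  · have h1 : 0 < ‖p - q‖ := norm_pos_iff.2 (sub_ne_zero.2 h)
    rw [Real.enorm_eq_ofReal (by positivity), ENNReal.ofReal_pow (by positivity),
      ENNReal.ofReal_inv_of_pos h1, ofReal_norm]

/-- exchange of the first two variables -/
private theorem R9EnC_sig {ν : Measure (X d)} [IsFiniteMeasure ν] (f : X d × (X d × X d) → ℝ)
    (hf : Integrable f (ν.prod (ν.prod ν))) :
    ∫ q, f q ∂(ν.prod (ν.prod ν)) =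
      ∫ q : X d × (X d × X d), f (q.2.1, (q.1, q.2.2)) ∂(ν.prod (ν.prod ν)) ∧
    Integrable (fun q : X d × (X d × X d) => f (q.2.1, (q.1, q.2.2))) (ν.prod (ν.prod ν)) := by
  have m1 : MeasurePreserving (MeasurableEquiv.prodAssoc : (X d × X d) × X d ≃ᵐ X d × X d × X d)
      ((ν.prod ν).prod ν) (ν.prod (ν.prod ν)) := measurePreserving_prodAssoc ν ν ν
  have m2 : MeasurePreserving (Prod.map Prod.swap id : (X d × X d) × X d → (X d × X d) × X d)
      ((ν.prod ν).prod ν) ((ν.prod ν).prod ν) :=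
    Measure.measurePreserving_swap.prod (MeasurePreserving.id ν)
  have m3 := m1.comp (m2.comp m1.symm)
  have e := m3.map_eq
  have hm : Measurable fun q : X d × (X d × X d) => (q.2.1, (q.1, q.2.2)) := by fun_prop
  have e' : Measure.map (fun q : X d × (X d × X d) => (q.2.1, (q.1, q.2.2)))
      (ν.prod (ν.prod ν)) = ν.prod (ν.prod ν) := e
  refine ⟨?_, ?_⟩
  · conv_lhs => rw [← e']
    rw [integral_map hm.aemeasurable]
    rw [e']
    exact hf.aestronglyMeasurable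
  · exact m3.integrable_comp_of_integrable hf

/-- exchange of the last two variables -/
private theorem R9EnC_tau {ν : Measure (X d)} [IsFiniteMeasure ν] (f : X d × (X d × X d) → ℝ)
    (hf : Integrable f (ν.prod (ν.prod ν))) :
    ∫ q, f q ∂(ν.prod (ν.prod ν)) =
      ∫ q : X d × (X d × X d), f (q.1, (q.2.2, q.2.1)) ∂(ν.prod (ν.prod ν)) ∧
    Integrable (fun q : X d × (X d × X d) => f (q.1, (q.2.2, q.2.1))) (ν.prod (ν.prod ν)) := by
  have m2 : MeasurePreserving (Prod.map id Prod.swap : X d × (X d × X d) → X d × (X d × X d))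
      (ν.prod (ν.prod ν)) (ν.prod (ν.prod ν)) :=
    (MeasurePreserving.id ν).prod Measure.measurePreserving_swap
  have e := m2.map_eq
  have hm : Measurable fun q : X d × (X d × X d) => (q.1, (q.2.2, q.2.1)) := by fun_prop
  have e' : Measure.map (fun q : X d × (X d × X d) => (q.1, (q.2.2, q.2.1)))
      (ν.prod (ν.prod ν)) = ν.prod (ν.prod ν) := e
  refine ⟨?_, ?_⟩
  · conv_lhs => rw [← e']
    rw [integral_map hm.aemeasurable]
    rw [e']
    exact hf.aestronglyMeasurable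
  · exact m2.integrable_comp_of_integrable hf

/-- exchange of the first and the last variable -/
private theorem R9EnC_rho {ν : Measure (X d)} [IsFiniteMeasure ν] (f : X d × (X d × X d) → ℝ)
    (hf : Integrable f (ν.prod (ν.prod ν))) :
    ∫ q, f q ∂(ν.prod (ν.prod ν)) =
      ∫ q : X d × (X d × X d), f (q.2.2, (q.2.1, q.1)) ∂(ν.prod (ν.prod ν)) ∧
    Integrable (fun q : X d × (X d × X d) => f (q.2.2, (q.2.1, q.1))) (ν.prod (ν.prod ν)) := by
  obtain ⟨a1, a2⟩ := R9EnC_tau f hf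
  obtain ⟨b1, b2⟩ := R9EnC_sig _ a2
  obtain ⟨c1, c2⟩ := R9EnC_tau _ b2
  exact ⟨a1.trans (b1.trans c1), c2⟩

private theorem R9EnC_L {a b : X d} : |L9 a b| ≤ ‖a‖⁻¹ ^ 9 * ‖b‖⁻¹ ^ 9 := by
  unfold L9
  rcases eq_or_ne a 0 with rfl | ha
  · simp
  rcases eq_or_ne b 0 with rfl | hb
  · simp
  have h1 : 0 < ‖a‖ := norm_pos_iff.2 ha
  have h2 : 0 < ‖b‖ := norm_pos_iff.2 hb
  rw [abs_mul, abs_of_nonneg (by positivity : (0 : ℝ) ≤ ‖a‖⁻¹ ^ 10 * ‖b‖⁻¹ ^ 10)]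
  calc _ ≤ ‖a‖⁻¹ ^ 10 * ‖b‖⁻¹ ^ 10 * (‖a‖ * ‖b‖) := by
        gcongr
        exact abs_real_inner_le_norm _ _
    _ = _ := by
        field_simp

private theorem R9EnC_Li {ν : Measure (X d)} (h : Nice9 ν) :
    Integrable (fun q : X d × (X d × X d) => L9 (q.2.1 - q.1) (q.2.2 - q.1))
      (ν.prod (ν.prod ν)) := by
  refine (S9_int h).mono' (by unfold L9; fun_prop) (Eventually.of_forall fun q => ?_)
  rw [Real.norm_eq_abs]
  refine R9EnC_L.trans ?_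
  unfold S9
  have h1 : (0 : ℝ) ≤ ‖q.2.1 - q.1‖⁻¹ ^ 9 * ‖q.2.1 - q.2.2‖⁻¹ ^ 9 := by positivity
  have h2 : (0 : ℝ) ≤ ‖q.2.2 - q.1‖⁻¹ ^ 9 * ‖q.2.1 - q.2.2‖⁻¹ ^ 9 := by positivity
  linarith

private theorem R9EnC_Wi {ν : Measure (X d)} (h : Nice9 ν) :
    Integrable (fun q : X d × (X d × X d) => W9 (q.2.1 - q.1) (q.2.2 - q.1))
      (ν.prod (ν.prod ν)) := by
  refine ((S9_int h).const_mul 1000).mono' (by unfold W9 ik i0 i1 i2 i3 j2 pr; fun_prop) ?_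
  filter_upwards [ae9 h] with q hq
  obtain ⟨h1, h2, h3⟩ := hq
  have hab : q.2.1 - q.1 ≠ q.2.2 - q.1 := fun e => h3 (sub_left_injective e)
  have k := W9_bound (sub_ne_zero.2 h1) (sub_ne_zero.2 h2) hab
  rw [sub_sub_sub_cancel_right] at k
  rw [Real.norm_eq_abs]
  exact k

theorem L9_total {ν : Measure (X d)} (h : Nice9 ν) :
    Integrable (fun q : X d × (X d × X d) => L9 (q.2.1 - q.1) (q.2.2 - q.1)) (ν.prod (ν.prod ν)) ∧
    ∫ q : X d × (X d × X d), L9 (q.2.1 - q.1) (q.2.2 - q.1) ∂(ν.prod (ν.prod ν)) =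
      ∫ z, ‖F9 ν z‖ ^ 2 ∂ν := by
  have := h.1
  refine ⟨R9EnC_Li h, ?_⟩
  have hF' := R9EnC_Li h
  rw [integral_prod _ hF']
  refine integral_congr_ae ?_
  filter_upwards [hF'.prod_right_ae] with z hz
  have hu : Integrable (fun x => ‖z - x‖⁻¹ ^ 10 • (z - x)) ν := by
    refine ⟨by fun_prop, ?_⟩
    obtain ⟨_, C, hC⟩ := h
    have hlt : ∫⁻ x, ‖x - z‖ₑ⁻¹ ^ 9 ∂ν < ∞ := lt_of_le_of_lt (hC z) ENNReal.ofReal_lt_top
    have hle : ∫⁻ x, ‖‖z - x‖⁻¹ ^ 10 • (z - x)‖ₑ ∂ν ≤ ∫⁻ x, ‖x - z‖ₑ⁻¹ ^ 9 ∂ν := by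
      refine lintegral_mono fun x => ?_
      refine le_trans (le_of_eq ?_) (R9EnC_le x z)
      rw [← enorm_norm, norm_smul, Real.norm_of_nonneg (by positivity), norm_sub_rev z x]
      congr 1
      rcases eq_or_ne x z with rfl | hxz
      · simp
      · have hpos : 0 < ‖x - z‖ := norm_pos_iff.2 (sub_ne_zero.2 hxz)
        field_simp
    exact lt_of_le_of_lt hle hlt
  rw [integral_prod _ hz]
  have e1 : ∀ x x' : X d, L9 (x - z) (x' - z) =
      ⟪‖z - x‖⁻¹ ^ 10 • (z - x), ‖z - x'‖⁻¹ ^ 10 • (z - x')⟫ := by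
    intro x x'
    unfold L9
    rw [inner_smul_left, inner_smul_right, norm_sub_rev x z, norm_sub_rev x' z,
      ← neg_sub z x, ← neg_sub z x', inner_neg_neg]
    simp only [conj_trivial]
    ring
  simp only [e1]
  have e2 : ∀ x : X d, (∫ x', ⟪‖z - x‖⁻¹ ^ 10 • (z - x), ‖z - x'‖⁻¹ ^ 10 • (z - x')⟫ ∂ν) =
      ⟪‖z - x‖⁻¹ ^ 10 • (z - x), F9 ν z⟫ := by
    intro x
    rw [integral_inner hu]
    rfl
  simp only [e2]
  have e3 : (∫ x, ⟪‖z - x‖⁻¹ ^ 10 • (z - x), F9 ν z⟫ ∂ν) = ⟪F9 ν z, F9 ν z⟫ := by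
    simp only [real_inner_comm (F9 ν z)]
    rw [integral_inner hu]
    rfl
  rw [e3, real_inner_self_eq_norm_sq]

theorem W9_total {ν : Measure (X d)} (h : Nice9 ν) :
    Integrable (fun q : X d × (X d × X d) => W9 (q.2.1 - q.1) (q.2.2 - q.1)) (ν.prod (ν.prod ν)) ∧
    ∫ q : X d × (X d × X d), W9 (q.2.1 - q.1) (q.2.2 - q.1) ∂(ν.prod (ν.prod ν)) =
      ∫ z, ‖F9 ν z‖ ^ 2 ∂ν := by
  have := h.1
  refine ⟨R9EnC_Wi h, ?_⟩
  rw [← (L9_total h).2]
  have w0 := R9EnC_Wi h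
  have l0 := R9EnC_Li h
  obtain ⟨w1, w2⟩ := R9EnC_sig _ w0
  obtain ⟨w3, w4⟩ := R9EnC_rho _ w0
  obtain ⟨l1, l2⟩ := R9EnC_sig _ l0
  obtain ⟨l3, l4⟩ := R9EnC_rho _ l0
  simp only at w1 w2 w3 w4 l1 l2 l3 l4
  have hW := integral_add (w0.add w2) w4
  have hW' := integral_add w0 w2
  have hL := integral_add (l0.add l2) l4
  have hL' := integral_add l0 l2
  have hae : (fun q : X d × (X d × X d) => (W9 (q.2.1 - q.1) (q.2.2 - q.1) +
      W9 (q.1 - q.2.1) (q.2.2 - q.2.1)) + W9 (q.2.1 - q.2.2) (q.1 - q.2.2))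
      =ᵐ[ν.prod (ν.prod ν)]
      fun q => (L9 (q.2.1 - q.1) (q.2.2 - q.1) + L9 (q.1 - q.2.1) (q.2.2 - q.2.1)) +
        L9 (q.2.1 - q.2.2) (q.1 - q.2.2) := by
    filter_upwards [ae9 h] with q hq
    obtain ⟨h1, h2, h3⟩ := hq
    have hab : q.2.1 - q.1 ≠ q.2.2 - q.1 := fun e => h3 (sub_left_injective e)
    have k := ker9 (sub_ne_zero.2 h1) (sub_ne_zero.2 h2) hab
    rw [neg_sub, neg_sub, sub_sub_sub_cancel_right, sub_sub_sub_cancel_right] at k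
    exact k
  have hI := integral_congr_ae hae
  simp only [Pi.add_apply] at hW hW' hL hL'
  rw [hW, hL, hW', hL', ← w1, ← w3, ← l1, ← l3] at hI
  linarith

end Pool.Agent.H48.R9
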