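import Pool.Agent.H48.R9.EnB
import Pool.Agent.H48.R9.EnC
import Pool.Agent.H48.R9.DbqB
import Pool.Agent.H48.R9.DbqC

/-!
energy_nine.  Template: R7/EnD.lean (energy_seven).  Suggested: a private lemma: for k ≤ 3, 2m + k = j + 9, j < 2m (then 2m ≤ j + 9):
0 ≤ ∫ of ‖..‖⁻¹^(2m) ‖..‖⁻¹^(2m) ⟪⟫^j ik k over ν³ (and integrable), as it is ∫_z ∫_t ∬ fa (fa_int, Fubini, sla, ae9) and
fa_double; the same for fb.  Then ∫ W9 = (1/16) ∫_z ∫_t ∬ fa 4 0 1 + six nonnegative terms (atoms (m,j,k) = (4,1,2), (6,3,0),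
(6,4,1), (6,5,2), (6,6,3) and fb), and ∫⁻_z ∫⁻_t Q9 ofReal t⁻¹ = ofReal (∫_z ∫_t ∬ fa 4 0 1) by Q9_double.
-/

set_option autoImplicit false

open MeasureTheory Filter Topology Metric Set
open scoped RealInnerProductSpace ENNReal

namespace Pool.Agent.H48.R9

open Pool.Agent.RZ Pool.Agent.H1.LD Pool.Agent.H48.R7

variable {d : ℕ}

private theorem R9EnD_part {ν : Measure (X d)} [IsFiniteMeasure ν] {f : X d → X d × X d → ℝ → ℝ}
    (hI : Integrable (fun q : X d × ((X d × X d) × ℝ) => f q.1 q.2.1 q.2.2)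
      (ν.prod ((ν.prod ν).prod (volume.restrict (Ioi 0)))))
    (hf : ∀ z t, 0 < t → 0 ≤ ∫ p, f z p t ∂(ν.prod ν)) :
    Integrable (fun z => ∫ r : (X d × X d) × ℝ, f z r.1 r.2 ∂((ν.prod ν).prod (volume.restrict (Ioi 0)))) ν ∧
    ∀ᵐ z ∂ν, (0 ≤ ∫ r : (X d × X d) × ℝ, f z r.1 r.2 ∂((ν.prod ν).prod (volume.restrict (Ioi 0)))) ∧
      (∫⁻ t in Ioi (0 : ℝ), ENNReal.ofReal (∫ p, f z p t ∂(ν.prod ν))) =
        ENNReal.ofReal (∫ r : (X d × X d) × ℝ, f z r.1 r.2 ∂((ν.prod ν).prod (volume.restrict (Ioi 0)))) ∧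
      Integrable (fun p => ∫ t in Ioi (0 : ℝ), f z p t) (ν.prod ν) ∧
      (∫ r : (X d × X d) × ℝ, f z r.1 r.2 ∂((ν.prod ν).prod (volume.restrict (Ioi 0)))) =
        ∫ p, (∫ t in Ioi (0 : ℝ), f z p t) ∂(ν.prod ν) := by
  refine ⟨hI.integral_prod_left, ?_⟩
  filter_upwards [hI.prod_right_ae] with z hz
  have e1 : (∫ r : (X d × X d) × ℝ, f z r.1 r.2 ∂((ν.prod ν).prod (volume.restrict (Ioi 0)))) =
      ∫ t in Ioi (0 : ℝ), ∫ p, f z p t ∂(ν.prod ν) := integral_prod_symm _ hz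
  have e2 : (∫ r : (X d × X d) × ℝ, f z r.1 r.2 ∂((ν.prod ν).prod (volume.restrict (Ioi 0)))) =
      ∫ p, (∫ t in Ioi (0 : ℝ), f z p t) ∂(ν.prod ν) := integral_prod _ hz
  have hnn : 0 ≤ᵐ[volume.restrict (Ioi (0 : ℝ))] fun t => ∫ p, f z p t ∂(ν.prod ν) := by
    filter_upwards [ae_restrict_mem measurableSet_Ioi] with t ht
    exact hf z t ht
  refine ⟨?_, ?_, hz.integral_prod_left, e2⟩
  · rw [e1]
    exact integral_nonneg_of_ae hnn
  · rw [e1, ofReal_integral_eq_lintegral_ofReal hz.integral_prod_right hnn]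

/-- the integral of an atom over the pairs and the time -/
private noncomputable def R9EnD_J (ν : Measure (X d)) (f : X d → X d × X d → ℝ → ℝ) (z : X d) : ℝ :=
  ∫ r : (X d × X d) × ℝ, f z r.1 r.2 ∂((ν.prod ν).prod (volume.restrict (Ioi 0)))

/-- the kernel `A` has the nonnegative integral `J` over the pairs -/
private structure R9EnD_At (ν : Measure (X d)) (A : X d → X d → ℝ) (J : X d → ℝ) : Prop where
  int : Integrable J ν
  pos : ∀ᵐ z ∂ν, 0 ≤ J z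
  pin : ∀ᵐ z ∂ν, Integrable (fun p : X d × X d => A (p.1 - z) (p.2 - z)) (ν.prod ν)
  eq : ∀ᵐ z ∂ν, ∫ p : X d × X d, A (p.1 - z) (p.2 - z) ∂(ν.prod ν) = J z

private theorem R9EnD_of {ν : Measure (X d)} (h : Nice9 ν) {f : X d → X d × X d → ℝ → ℝ}
    {A : X d → X d → ℝ}
    (hI : Integrable (fun q : X d × ((X d × X d) × ℝ) => f q.1 q.2.1 q.2.2)
      (ν.prod ((ν.prod ν).prod (volume.restrict (Ioi 0)))))
    (hf : ∀ z t, 0 < t → 0 ≤ ∫ p, f z p t ∂(ν.prod ν))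
    (hs : ∀ (z : X d) (p : X d × X d), (p.1 ≠ z ∧ p.2 ≠ z ∧ p.1 ≠ p.2) →
      ∫ t in Ioi (0 : ℝ), f z p t = A (p.1 - z) (p.2 - z)) :
    R9EnD_At ν A (R9EnD_J ν f) := by
  have := h.1
  obtain ⟨a1, a2⟩ := R9EnD_part hI hf
  have hae := Measure.ae_ae_of_ae_prod (ae9 h)
  have key : ∀ᵐ z ∂ν, (fun p : X d × X d => ∫ t in Ioi (0 : ℝ), f z p t) =ᵐ[ν.prod ν]
      fun p => A (p.1 - z) (p.2 - z) := by
    filter_upwards [hae] with z hp
    filter_upwards [hp] with p hp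
    exact hs z p hp
  refine ⟨a1, a2.mono fun z hz => hz.1, ?_, ?_⟩
  · filter_upwards [a2, key] with z hz he
    exact hz.2.2.1.congr he
  · filter_upwards [a2, key] with z hz he
    rw [← integral_congr_ae he]
    exact hz.2.2.2.symm

private theorem R9EnD_smul {ν : Measure (X d)} {A : X d → X d → ℝ} {J : X d → ℝ} {c : ℝ}
    (hc : 0 ≤ c) (h1 : R9EnD_At ν A J) :
    R9EnD_At ν (fun a b => c * A a b) (fun z => c * J z) := by
  refine ⟨h1.int.const_mul c, h1.pos.mono fun z hz => mul_nonneg hc hz,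
    h1.pin.mono fun z hz => hz.const_mul c, h1.eq.mono fun z hz => ?_⟩
  rw [integral_const_mul, hz]

private theorem R9EnD_add {ν : Measure (X d)} {A B : X d → X d → ℝ} {J K : X d → ℝ} {c : ℝ}
    (hc : 0 ≤ c) (h1 : R9EnD_At ν A J) (h2 : R9EnD_At ν B K) :
    R9EnD_At ν (fun a b => c * A a b + B a b) (fun z => c * J z + K z) := by
  have h3 := R9EnD_smul hc h1
  refine ⟨h3.int.add h2.int, ?_, ?_, ?_⟩
  · filter_upwards [h3.pos, h2.pos] with z hz1 hz2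
    exact add_nonneg hz1 hz2
  · filter_upwards [h3.pin, h2.pin] with z hz1 hz2
    exact hz1.add hz2
  · filter_upwards [h3.pin, h2.pin, h3.eq, h2.eq] with z hz1 hz2 hz3 hz4
    rw [integral_add hz1 hz2, hz3, hz4]

private theorem R9EnD_fa {ν : Measure (X d)} (h : Nice9 ν) (m j k : ℕ) (hk : k ≤ 3)
    (hm : 2 * m + k = j + 9) (h1 : j < 2 * m) :
    R9EnD_At ν (fun a b => ‖a‖⁻¹ ^ (2 * m) * ‖b‖⁻¹ ^ (2 * m) * ⟪a, b⟫ ^ j * ik k a b)
      (R9EnD_J ν (fa m j k)) :=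
  R9EnD_of h (fa_int h hk hm) (fun z _ ht => (fa_double h m j k h1 (by omega) z ht).2)
    fun _ _ hp => (sla hk hm hp).2.1

private theorem R9EnD_fb {ν : Measure (X d)} (h : Nice9 ν) :
    R9EnD_At ν (fun a b => ‖a‖⁻¹ ^ 10 * ‖b‖⁻¹ ^ 10 * ⟪a, b⟫ ^ 3 * j2 a b) (R9EnD_J ν fb) :=
  R9EnD_of h (fb_int h) (fun z _ ht => (fb_double h z ht).2) fun _ _ hp => (slb hp).2.1

theorem energy_nine {ν : Measure (X d)} (h : Nice9 ν) :
    ∫⁻ z, (∫⁻ t in Ioi (0 : ℝ), Q9 ν z t * ENNReal.ofReal t⁻¹) ∂ν ≤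
      ENNReal.ofReal (16 * ∫ z, ‖F9 ν z‖ ^ 2 ∂ν) := by
  have := h.1
  obtain ⟨w1, w2⟩ := W9_total h
  have r7 := R9EnD_smul (c := 1 / 192) (by norm_num) (R9EnD_fb h)
  have r6 := R9EnD_add (c := 7 / 48) (by norm_num)
    (R9EnD_fa h 6 6 3 (by norm_num) (by norm_num) (by norm_num)) r7
  have r5 := R9EnD_add (c := 125 / 96) (by norm_num)
    (R9EnD_fa h 6 5 2 (by norm_num) (by norm_num) (by norm_num)) r6
  have r4 := R9EnD_add (c := 137 / 48) (by norm_num)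
    (R9EnD_fa h 6 4 1 (by norm_num) (by norm_num) (by norm_num)) r5
  have r3 := R9EnD_add (c := 103 / 96) (by norm_num)
    (R9EnD_fa h 6 3 0 (by norm_num) (by norm_num) (by norm_num)) r4
  have r2 := R9EnD_add (c := 1 / 128) (by norm_num)
    (R9EnD_fa h 4 1 2 (by norm_num) (by norm_num) (by norm_num)) r3
  have r1 := R9EnD_add (c := 1 / 16) (by norm_num)
    (R9EnD_fa h 4 0 1 (by norm_num) (by norm_num) (by norm_num)) r2
  set J : X d → ℝ := R9EnD_J ν (fa 4 0 1) with hJ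
  obtain ⟨a1, a2⟩ := R9EnD_part (fa_int h (m := 4) (j := 0) (k := 1) (by norm_num) (by norm_num))
    fun z _ ht => (fa_double h 4 0 1 (by norm_num) (by norm_num) z ht).2
  have hJi : Integrable J ν := a1
  have hJp : 0 ≤ᵐ[ν] J := a2.mono fun z hz => hz.1
  have hW : (1 / 16) * ∫ z, J z ∂ν ≤ ∫ z, ‖F9 ν z‖ ^ 2 ∂ν := by
    rw [← w2, integral_prod _ w1, ← integral_const_mul]
    refine le_trans ?_ (le_of_eq (integral_congr_ae r1.eq).symm)
    refine integral_mono_ae (hJi.const_mul _) r1.int ?_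
    filter_upwards [r2.pos] with z hz
    exact le_add_of_nonneg_right hz
  calc ∫⁻ z, (∫⁻ t in Ioi (0 : ℝ), Q9 ν z t * ENNReal.ofReal t⁻¹) ∂ν
      = ∫⁻ z, ENNReal.ofReal (J z) ∂ν := by
        refine lintegral_congr_ae ?_
        filter_upwards [a2] with z hz
        refine Eq.trans ?_ hz.2.1
        refine setLIntegral_congr_fun measurableSet_Ioi fun t ht => ?_
        exact Q9_double h z ht
    _ = ENNReal.ofReal (∫ z, J z ∂ν) := (ofReal_integral_eq_lintegral_ofReal hJi hJp).symm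
    _ ≤ _ := ENNReal.ofReal_le_ofReal (by linarith)

end Pool.Agent.H48.R9
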