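import Pool.Agent.H48.R9.MolC
import Pool.Agent.H1.LD.EnD

/-!
The energy of the mollified measures in dimension nine.
-/

set_option autoImplicit false

open MeasureTheory Filter Topology Metric Set
open scoped RealInnerProductSpace ENNReal

namespace Pool.Agent.H48.R9

open Pool.Agent.RZ Pool.Agent.H1.LD Pool.Agent.H48.R7

variable {d : ℕ}

/-- the kernel -/
private noncomputable def R9Mo2_K (x : X d) : X d := ‖x‖⁻¹ ^ 10 • x

private lemma R9Mo2_K_meas : Measurable (R9Mo2_K (d := d)) := by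
  unfold R9Mo2_K
  exact ((measurable_norm.inv).pow_const 10).smul measurable_id

private lemma R9Mo2_K_enorm (x : X d) : ‖R9Mo2_K x‖ₑ ≤ ‖x‖ₑ⁻¹ ^ 9 := by
  rcases eq_or_ne x 0 with h | h
  · subst h; simp
  · have h0 : 0 < ‖x‖ := norm_pos_iff.2 h
    have e : ‖R9Mo2_K x‖ = ‖x‖⁻¹ ^ 9 := by
      unfold R9Mo2_K
      rw [norm_smul, norm_pow, norm_inv, norm_norm]
      field_simp
    rw [← ofReal_norm, e, ← ofReal_norm,
      ← ENNReal.ofReal_inv_of_pos h0, ENNReal.ofReal_pow (inv_nonneg.2 h0.le)]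

private lemma R9Mo2_ball : ∀ᵐ w ∂(Pb d), w ∈ closedBall (0 : X d) 1 := by
  unfold Pb
  exact Measure.ae_smul_measure (ae_restrict_mem measurableSet_closedBall) _

private lemma R9Mo2_app_meas (ε : ℝ) : Measurable fun p : X d × X d => p.1 + ε • p.2 := by
  fun_prop

/-- integrability of the kernel for nice measures -/
private lemma R9Mo2_int {ν : Measure (X d)} (h : Nice9 ν) (z : X d) :
    Integrable (fun x => R9Mo2_K (z - x)) ν := by
  obtain ⟨_, C, hC⟩ := h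
  refine ⟨(R9Mo2_K_meas.comp (measurable_const.sub measurable_id)).aestronglyMeasurable, ?_⟩
  calc ∫⁻ x, ‖R9Mo2_K (z - x)‖ₑ ∂ν ≤ ∫⁻ x, ‖x - z‖ₑ⁻¹ ^ 9 ∂ν := by
        refine lintegral_mono fun x => (R9Mo2_K_enorm _).trans (le_of_eq ?_)
        rw [← enorm_neg, neg_sub]
    _ ≤ ENNReal.ofReal C := hC z
    _ < ⊤ := ENNReal.ofReal_lt_top

private lemma R9Mo2_F9 {ν : Measure (X d)} (z : X d) : F9 ν z = ∫ x, R9Mo2_K (z - x) ∂ν := rfl

/-- the formula for the transform of the mollified measure -/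
private lemma R9Mo2_form (hd : 10 ≤ d) {μ : Measure (X d)} [IsFiniteMeasure μ] {ε : ℝ} (hε : 0 < ε)
    (y w : X d) : Integrable (fun x => ∫ w', R9Mo2_K (y - x + ε • (w - w')) ∂(Pb d)) μ ∧
    F9 (mol μ ε) (y + ε • w) = ∫ x, (∫ w', R9Mo2_K (y - x + ε • (w - w')) ∂(Pb d)) ∂μ := by
  have := Pb_prob d
  have hN := mol_nice9 hd μ hε
  have h1 := R9Mo2_int hN (y + ε • w)
  unfold mol at h1
  have hms : Measurable fun x : X d => R9Mo2_K (y + ε • w - x) :=
    R9Mo2_K_meas.comp (measurable_const.sub measurable_id)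
  have h2 := (integrable_map_measure (f := fun p : X d × X d => p.1 + ε • p.2)
    (g := fun x : X d => R9Mo2_K (y + ε • w - x)) hms.aestronglyMeasurable
    (R9Mo2_app_meas ε).aemeasurable).1 h1
  have e : ((fun x => R9Mo2_K (y + ε • w - x)) ∘ fun p : X d × X d => p.1 + ε • p.2) =
      fun p : X d × X d => R9Mo2_K (y - p.1 + ε • (w - p.2)) := by
    funext p
    simp only [Function.comp_apply]
    congr 1
    rw [smul_sub]; abel
  rw [e] at h2
  refine ⟨h2.integral_prod_left, ?_⟩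
  rw [R9Mo2_F9]
  unfold mol
  rw [integral_map (f := fun x : X d => R9Mo2_K (y + ε • w - x)) (R9Mo2_app_meas ε).aemeasurable
    hms.aestronglyMeasurable]
  have e2 : (fun p : X d × X d => R9Mo2_K (y + ε • w - (p.1 + ε • p.2))) =
      fun p : X d × X d => R9Mo2_K (y - p.1 + ε • (w - p.2)) := by
    funext p
    congr 1
    rw [smul_sub]; abel
  rw [e2, integral_prod _ h2]

/-- the regularised transform -/
private noncomputable def R9Mo2_R (μ : Measure (X d)) (ε : ℝ) (y : X d) : X d :=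
  ∫ x, kr 9 ε (y - x) • (y - x) ∂μ

private lemma R9Mo2_R_bd (ε : ℝ) (hε : 0 < ε) (v : X d) : ‖kr 9 ε v • v‖ ≤ ε⁻¹ ^ 9 := by
  rw [norm_smul, Real.norm_eq_abs, abs_of_nonneg (kr_nonneg _ _ _), mul_comm]
  exact norm_mul_kr_le_eps 9 hε v

private lemma R9Mo2_kr_meas (ε : ℝ) (hε : 0 < ε) : Measurable fun v : X d => kr 9 ε v • v :=
  ((kr_continuous 9 hε).smul continuous_id).measurable

private lemma R9Mo2_R_int {μ : Measure (X d)} [IsFiniteMeasure μ] {ε : ℝ} (hε : 0 < ε) (y : X d) :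
    Integrable (fun x => kr 9 ε (y - x) • (y - x)) μ := by
  refine Integrable.of_bound (C := ε⁻¹ ^ 9) ?_ (Eventually.of_forall fun x => R9Mo2_R_bd ε hε _)
  exact ((R9Mo2_kr_meas ε hε).comp (measurable_const.sub measurable_id)).aestronglyMeasurable

private lemma R9Mo2_R_meas {μ : Measure (X d)} [IsFiniteMeasure μ] {ε : ℝ} (hε : 0 < ε) :
    StronglyMeasurable (R9Mo2_R μ ε) := by
  unfold R9Mo2_R
  refine StronglyMeasurable.integral_prod_right
    (f := fun (y : X d) (x : X d) => kr 9 ε (y - x) • (y - x)) ?_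
  exact ((R9Mo2_kr_meas ε hε).comp (measurable_fst.sub measurable_snd)).stronglyMeasurable

private lemma R9Mo2_R_norm {μ : Measure (X d)} [IsFiniteMeasure μ] {ε : ℝ} (hε : 0 < ε) (y : X d) :
    ‖R9Mo2_R μ ε y‖ ≤ ε⁻¹ ^ 9 * μ.real univ := by
  unfold R9Mo2_R
  exact norm_integral_le_of_norm_le_const (Eventually.of_forall fun x => R9Mo2_R_bd ε hε _)

private lemma R9Mo2_R_sq_int {μ : Measure (X d)} [IsFiniteMeasure μ] {ε : ℝ} (hε : 0 < ε) :
    Integrable (fun y => ‖R9Mo2_R μ ε y‖ ^ 2) μ := by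
  refine Integrable.of_bound (C := (ε⁻¹ ^ 9 * μ.real univ) ^ 2)
    ((R9Mo2_R_meas hε).norm.pow 2).aestronglyMeasurable (Eventually.of_forall fun y => ?_)
  rw [Real.norm_eq_abs, abs_of_nonneg (by positivity)]
  exact pow_le_pow_left₀ (norm_nonneg _) (R9Mo2_R_norm hε y) 2

private lemma R9Mo2_R_energy {μ : Measure (X d)} [IsFiniteMeasure μ] {B : ℝ}
    (hB : ∀ ε : ℝ, 0 < ε → ∀ e : X d, ‖e‖ ≤ 1 →
      ∫ x, (∫ y, ⟪e, x - y⟫ * kr 9 ε (x - y) ∂μ) ^ 2 ∂μ ≤ B) {ε : ℝ} (hε : 0 < ε) :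
    ∫ y, ‖R9Mo2_R μ ε y‖ ^ 2 ∂μ ≤ d * B := by
  set b := EuclideanSpace.basisFun (Fin d) ℝ
  have e1 : ∀ y, ‖R9Mo2_R μ ε y‖ ^ 2 =
      ∑ i, (∫ x, ⟪b i, y - x⟫ * kr 9 ε (y - x) ∂μ) ^ 2 := by
    intro y
    rw [← b.sum_sq_norm_inner_right]
    refine Finset.sum_congr rfl fun i _ => ?_
    rw [Real.norm_eq_abs, sq_abs]
    congr 1
    unfold R9Mo2_R
    rw [← integral_inner (R9Mo2_R_int hε y)]
    refine integral_congr_ae (Eventually.of_forall fun x => ?_)
    simp only [inner_smul_right]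
    ring
  have hI : ∀ i, Integrable (fun y => (∫ x, ⟪b i, y - x⟫ * kr 9 ε (y - x) ∂μ) ^ 2) μ := by
    intro i
    have e2 : (fun y => (∫ x, ⟪b i, y - x⟫ * kr 9 ε (y - x) ∂μ) ^ 2) =
        fun y => ⟪b i, R9Mo2_R μ ε y⟫ ^ 2 := by
      funext y
      congr 1
      unfold R9Mo2_R
      rw [← integral_inner (R9Mo2_R_int hε y)]
      refine integral_congr_ae (Eventually.of_forall fun x => ?_)
      simp only [inner_smul_right]
      ring
    rw [e2]
    refine (R9Mo2_R_sq_int (μ := μ) hε).mono' ?_ (Eventually.of_forall fun y => ?_)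
    · exact ((stronglyMeasurable_const.inner (R9Mo2_R_meas hε)).pow 2).aestronglyMeasurable
    · rw [Real.norm_eq_abs, abs_of_nonneg (sq_nonneg _), ← sq_abs]
      refine pow_le_pow_left₀ (abs_nonneg _) ?_ 2
      have := abs_real_inner_le_norm (b i) (R9Mo2_R μ ε y)
      rwa [b.norm_eq_one, one_mul] at this
  simp_rw [e1]
  rw [integral_finsetSum _ fun i _ => hI i]
  calc ∑ i, ∫ y, (∫ x, ⟪b i, y - x⟫ * kr 9 ε (y - x) ∂μ) ^ 2 ∂μ ≤ ∑ _i : Fin d, B :=
        Finset.sum_le_sum fun i _ => hB ε hε (b i) (b.norm_eq_one i).le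
    _ = d * B := by simp

theorem mol_energy9 (hd : 10 ≤ d) {μ : Measure (X d)} [IsFiniteMeasure μ] {C₀ : ℝ} (hC₀ : 0 ≤ C₀)
    (hg : Gr 9 C₀ μ) (hE : En 9 μ) :
    ∃ B : ℝ, ∀ ε : ℝ, 0 < ε → ε ≤ 1 → ∫ z, ‖F9 (mol μ ε) z‖ ^ 2 ∂(mol μ ε) ≤ B := by
  have := Pb_prob d
  obtain ⟨B, hB⟩ := hE
  obtain ⟨C, hC, hker⟩ := avg_ker9 (d := d) hd
  obtain ⟨A, hA, hkr⟩ := Gr.kr_integrable (d := d) 9 (by norm_num)
  refine ⟨2 * (d * B) + 2 * (C * (A * C₀)) ^ 2 * μ.real univ, fun ε hε _ => ?_⟩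
  -- pointwise comparison
  have hcomp : ∀ y : X d, ∀ w ∈ closedBall (0 : X d) 1,
      ‖F9 (mol μ ε) (y + ε • w) - R9Mo2_R μ ε y‖ ≤ C * (A * C₀) := by
    intro y w hw
    obtain ⟨i1, e1⟩ := R9Mo2_form hd (μ := μ) hε y w
    obtain ⟨i2, b2⟩ := hkr C₀ hC₀ μ hg y ε hε
    rw [e1]
    unfold R9Mo2_R
    rw [← integral_sub i1 (R9Mo2_R_int hε y)]
    calc ‖∫ x, ((∫ w', R9Mo2_K (y - x + ε • (w - w')) ∂(Pb d)) - kr 9 ε (y - x) • (y - x)) ∂μ‖
        ≤ ∫ x, C * (ε * kr 9 ε (x - y)) ∂μ := by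
          refine norm_integral_le_of_norm_le ((i2.const_mul ε).const_mul C)
            (Eventually.of_forall fun x => ?_)
          have := hker ε hε (y - x) w hw
          rw [kr_comm 9 ε x y]
          exact this
      _ = C * (ε * ∫ x, kr 9 ε (x - y) ∂μ) := by
          rw [integral_const_mul, integral_const_mul]
      _ ≤ C * (ε * (A * C₀ * ε⁻¹)) := by gcongr
      _ = C * (A * C₀) := by field_simp
  -- measurability
  have hF : StronglyMeasurable fun z => F9 (mol μ ε) z := by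
    have : IsFiniteMeasure (mol μ ε) := (mol_nice9 hd μ hε).1
    simp_rw [R9Mo2_F9]
    refine StronglyMeasurable.integral_prod_right
      (f := fun (z : X d) (x : X d) => R9Mo2_K (z - x)) ?_
    exact (R9Mo2_K_meas.comp (measurable_fst.sub measurable_snd)).stronglyMeasurable
  have hmap : ∫ z, ‖F9 (mol μ ε) z‖ ^ 2 ∂(mol μ ε) =
      ∫ p, ‖F9 (mol μ ε) (p.1 + ε • p.2)‖ ^ 2 ∂(μ.prod (Pb d)) := by
    have hms : StronglyMeasurable fun z => ‖F9 (mol μ ε) z‖ ^ 2 := hF.norm.pow 2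
    generalize hG : (fun z => ‖F9 (mol μ ε) z‖ ^ 2) = G at hms
    have e1 : ∀ z, ‖F9 (mol μ ε) z‖ ^ 2 = G z := fun z => by rw [← hG]
    simp_rw [e1]
    unfold mol
    rw [integral_map (R9Mo2_app_meas ε).aemeasurable hms.aestronglyMeasurable]
  rw [hmap]
  have hball : ∀ᵐ p ∂(μ.prod (Pb d)), p.2 ∈ closedBall (0 : X d) 1 :=
    (Measure.quasiMeasurePreserving_snd).ae R9Mo2_ball
  have hint : Integrable (fun p : X d × X d =>
      2 * ‖R9Mo2_R μ ε p.1‖ ^ 2 + 2 * (C * (A * C₀)) ^ 2) (μ.prod (Pb d)) := by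
    refine Integrable.add ?_ (integrable_const _)
    exact ((R9Mo2_R_sq_int (μ := μ) hε).comp_fst (Pb d)).const_mul 2
  calc ∫ p, ‖F9 (mol μ ε) (p.1 + ε • p.2)‖ ^ 2 ∂(μ.prod (Pb d))
      ≤ ∫ p : X d × X d, (2 * ‖R9Mo2_R μ ε p.1‖ ^ 2 + 2 * (C * (A * C₀)) ^ 2) ∂(μ.prod (Pb d)) := by
        refine integral_mono_of_nonneg (Eventually.of_forall fun p => by positivity) hint ?_
        filter_upwards [hball] with p hp
        have h1 := hcomp p.1 p.2 hp
        have h2 : ‖F9 (mol μ ε) (p.1 + ε • p.2)‖ ≤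
            ‖R9Mo2_R μ ε p.1‖ + C * (A * C₀) := by
          have := norm_add_le (F9 (mol μ ε) (p.1 + ε • p.2) - R9Mo2_R μ ε p.1) (R9Mo2_R μ ε p.1)
          rw [sub_add_cancel] at this
          linarith
        have h3 := pow_le_pow_left₀ (norm_nonneg _) h2 2
        nlinarith [sq_nonneg (‖R9Mo2_R μ ε p.1‖ - C * (A * C₀))]
    _ = 2 * ∫ y, ‖R9Mo2_R μ ε y‖ ^ 2 ∂μ + 2 * (C * (A * C₀)) ^ 2 * μ.real univ := by
        rw [integral_add (((R9Mo2_R_sq_int (μ := μ) hε).comp_fst (Pb d)).const_mul 2)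
          (integrable_const _), integral_const_mul, integral_const]
        congr 1
        · congr 1
          rw [integral_fun_fst (fun y => ‖R9Mo2_R μ ε y‖ ^ 2)]
          simp
        · rw [smul_eq_mul, mul_comm]
          congr 1
          rw [← univ_prod_univ, measureReal_prod_prod]
          simp
    _ ≤ 2 * (d * B) + 2 * (C * (A * C₀)) ^ 2 * μ.real univ := by
        have := R9Mo2_R_energy hB hε
        linarith

end Pool.Agent.H48.R9
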