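import Pool.Agent.H48.R9.Defs
import Pool.Agent.H1.LD.MolA

/-!
Template: R7/MolA.lean with 7 replaced by 9, 6 by 8, 8 ≤ d by 10 ≤ d.
-/

set_option autoImplicit false

open MeasureTheory Filter Topology Metric Set
open scoped RealInnerProductSpace ENNReal

namespace Pool.Agent.H48.R9

open Pool.Agent.RZ Pool.Agent.H1.LD Pool.Agent.H48.R7

variable {d : ℕ}

/-- the kernel is locally integrable -/
theorem R9MolA_core9 (hd : 10 ≤ d) : ∃ A : ℝ, 0 < A ∧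
    ∫⁻ v in closedBall (0 : X d) 1, ‖v‖ₑ⁻¹ ^ 9 ≤ ENNReal.ofReal A := by
  obtain ⟨A, hA, h⟩ := Gr.near_lintegral (d := d) d (by omega)
  have h1 := h _ ENNReal.toReal_nonneg volume (mola_gr d) 0 1 one_pos
  set V := (volume (closedBall (0 : X d) 1)).toReal with hV
  have hV0 : 0 ≤ V := ENNReal.toReal_nonneg
  refine ⟨A * V * 1 + 1, by positivity, ?_⟩
  refine le_trans ?_ (h1.trans (ENNReal.ofReal_le_ofReal (by linarith)))
  have : Nontrivial (X d) := by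
    have : 0 < Module.finrank ℝ (X d) := by
      simp
      omega
    exact Module.nontrivial_of_finrank_pos this
  have h0 : ∀ᵐ v : X d, v ≠ 0 := by
    have : volume ({0} : Set (X d)) = 0 := measure_singleton 0
    exact measure_eq_zero_iff_ae_notMem.1 this
  refine lintegral_mono_ae ?_
  filter_upwards [ae_restrict_of_ae h0, ae_restrict_mem isClosed_closedBall.measurableSet]
    with v hv hv1
  rw [mem_closedBall, dist_zero_right] at hv1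
  have hp : 0 < ‖v‖ := norm_pos_iff.2 hv
  rw [sub_zero, ← ofReal_norm, ← ENNReal.ofReal_inv_of_pos hp,
    ← ENNReal.ofReal_pow (by positivity)]
  apply ENNReal.ofReal_le_ofReal
  obtain ⟨k, rfl⟩ : ∃ k, d = k + 10 := ⟨d - 10, by omega⟩
  have h3 : 1 ≤ ‖v‖⁻¹ := (one_le_inv₀ hp).2 hv1
  have h4 : 1 ≤ ‖v‖⁻¹ ^ k := one_le_pow₀ h3
  have h5 : ‖v‖ * ‖v‖⁻¹ ^ (k + 10) = ‖v‖⁻¹ ^ k * ‖v‖⁻¹ ^ 9 := by
    have e1 : ∀ t : ℝ, 0 < t → t * t⁻¹ ^ (k + 10) = t⁻¹ ^ k * t⁻¹ ^ 9 := by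
      intro t ht
      have e2 : t⁻¹ ^ (k + 10) = t⁻¹ ^ k * t⁻¹ ^ 9 * t⁻¹ := by ring
      rw [e2, mul_comm t, mul_assoc, inv_mul_cancel₀ ht.ne', mul_one]
    exact e1 _ hp
  rw [h5]
  have h6 : 0 ≤ ‖v‖⁻¹ ^ 9 := by positivity
  nlinarith

theorem avg_loc9 (hd : 10 ≤ d) : ∃ C : ℝ, 0 < C ∧ ∀ q : X d,
    ∫⁻ w, ‖q + w‖ₑ⁻¹ ^ 9 ∂(Pb d) ≤ ENNReal.ofReal C := by
  obtain ⟨A, hA, h⟩ := R9MolA_core9 hd
  have := Pb_prob d
  set V := volume (closedBall (0 : X d) 1) with hV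
  have hV0 : V ≠ 0 := mola_vol_ne_zero d
  have hVt : V ≠ ⊤ := mola_vol_ne_top d
  refine ⟨V⁻¹.toReal * A + 1, by positivity, fun q => ?_⟩
  set S : Set (X d) := {w | ‖q + w‖ ≤ 1} with hS
  have hSm : MeasurableSet S :=
    (isClosed_le (by fun_prop) continuous_const).measurableSet
  have h1 : ∀ w : X d, ‖q + w‖ₑ⁻¹ ^ 9 ≤ S.indicator (fun w => ‖q + w‖ₑ⁻¹ ^ 9) w + 1 := by
    intro w
    by_cases hw : w ∈ S
    · rw [indicator_of_mem hw]
      exact le_self_add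
    · rw [indicator_of_notMem hw, zero_add]
      have hw' : 1 < ‖q + w‖ := not_le.1 hw
      have h2 : (1 : ℝ≥0∞) ≤ ‖q + w‖ₑ := by
        rw [← ofReal_norm, ← ENNReal.ofReal_one]
        exact ENNReal.ofReal_le_ofReal hw'.le
      exact pow_le_one' (ENNReal.inv_le_one.2 h2) 9
  have h3 : ∫⁻ w, S.indicator (fun w => ‖q + w‖ₑ⁻¹ ^ 9) w ∂(Pb d) ≤ V⁻¹ * ENNReal.ofReal A := by
    rw [mola_lint]
    gcongr
    calc ∫⁻ w in closedBall (0 : X d) 1, S.indicator (fun w => ‖q + w‖ₑ⁻¹ ^ 9) w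
        ≤ ∫⁻ w, S.indicator (fun w => ‖q + w‖ₑ⁻¹ ^ 9) w := setLIntegral_le_lintegral _ _
      _ = ∫⁻ w, (closedBall (0 : X d) 1).indicator (fun v => ‖v‖ₑ⁻¹ ^ 9) (q + w) := by
          congr 1
          ext w
          by_cases hw : w ∈ S
          · rw [indicator_of_mem hw, indicator_of_mem]
            rw [mem_closedBall, dist_zero_right]
            exact hw
          · rw [indicator_of_notMem hw, indicator_of_notMem]
            rw [mem_closedBall, dist_zero_right]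
            exact hw
      _ = ∫⁻ w, (closedBall (0 : X d) 1).indicator (fun v => ‖v‖ₑ⁻¹ ^ 9) w :=
          lintegral_add_left_eq_self _ q
      _ = ∫⁻ v in closedBall (0 : X d) 1, ‖v‖ₑ⁻¹ ^ 9 :=
          lintegral_indicator isClosed_closedBall.measurableSet _
      _ ≤ ENNReal.ofReal A := h
  calc ∫⁻ w, ‖q + w‖ₑ⁻¹ ^ 9 ∂(Pb d)
      ≤ ∫⁻ w, (S.indicator (fun w => ‖q + w‖ₑ⁻¹ ^ 9) w + 1) ∂(Pb d) := lintegral_mono h1
    _ = ∫⁻ w, S.indicator (fun w => ‖q + w‖ₑ⁻¹ ^ 9) w ∂(Pb d) + 1 := by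
        rw [lintegral_add_right _ measurable_const, lintegral_const, measure_univ, mul_one]
    _ ≤ V⁻¹ * ENNReal.ofReal A + 1 := by gcongr
    _ = ENNReal.ofReal (V⁻¹.toReal * A + 1) := by
        rw [ENNReal.ofReal_add (by positivity) one_pos.le, ENNReal.ofReal_mul
          ENNReal.toReal_nonneg, ENNReal.ofReal_toReal (ENNReal.inv_ne_top.2 hV0),
          ENNReal.ofReal_one]

theorem mol_nice9 (hd : 10 ≤ d) (μ : Measure (X d)) [IsFiniteMeasure μ] {ε : ℝ} (hε : 0 < ε) :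
    Nice9 (mol μ ε) := by
  have := Pb_prob d
  have hm : Measurable fun p : X d × X d => p.1 + ε • p.2 := by fun_prop
  obtain ⟨C, hC, h⟩ := avg_loc9 (d := d) hd
  refine ⟨?_, (ε⁻¹ ^ 9 * C) * (μ univ).toReal, fun p => ?_⟩
  · unfold mol
    infer_instance
  · unfold mol
    have h0 : Measurable fun x : X d => ‖x - p‖ₑ⁻¹ ^ 9 :=
      mola_meas (measurable_id.sub_const p) 9
    rw [lintegral_map h0 hm]
    have h1 : Measurable fun z : X d × X d => ‖z.1 + ε • z.2 - p‖ₑ⁻¹ ^ 9 := by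
      exact ((hm.sub_const p).enorm.inv).pow_const 9
    rw [lintegral_prod _ h1.aemeasurable]
    have h2 : ∀ y : X d, ∫⁻ w, ‖y + ε • w - p‖ₑ⁻¹ ^ 9 ∂(Pb d) ≤
        ENNReal.ofReal (ε⁻¹ ^ 9 * C) := by
      intro y
      have h3 : ∀ w : X d, ‖y + ε • w - p‖ₑ⁻¹ ^ 9 =
          (ENNReal.ofReal ε)⁻¹ ^ 9 * ‖ε⁻¹ • (y - p) + w‖ₑ⁻¹ ^ 9 := by
        intro w
        rw [← mola_scale hε, smul_add, smul_inv_smul₀ hε.ne']
        congr 3
        abel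
      simp_rw [h3]
      have h4 : Measurable fun w : X d => ‖ε⁻¹ • (y - p) + w‖ₑ⁻¹ ^ 9 :=
        mola_meas (measurable_const.add measurable_id) 9
      rw [lintegral_const_mul _ h4, ENNReal.ofReal_mul (by positivity), ENNReal.ofReal_pow (by positivity),
        ENNReal.ofReal_inv_of_pos hε]
      gcongr
      exact h _
    calc ∫⁻ y, ∫⁻ w, ‖y + ε • w - p‖ₑ⁻¹ ^ 9 ∂(Pb d) ∂μ
        ≤ ∫⁻ _, ENNReal.ofReal (ε⁻¹ ^ 9 * C) ∂μ := lintegral_mono h2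
      _ = ENNReal.ofReal (ε⁻¹ ^ 9 * C) * μ univ := lintegral_const _
      _ = ENNReal.ofReal ((ε⁻¹ ^ 9 * C) * (μ univ).toReal) := by
          rw [ENNReal.ofReal_mul (p := ε⁻¹ ^ 9 * C) (by positivity),
            ENNReal.ofReal_toReal (measure_ne_top μ _)]

/-- averages of the kernel `|x|^{-8}` over small balls -/
theorem avg_eight (hd : 10 ≤ d) : ∃ C : ℝ, 0 < C ∧ ∀ (ε : ℝ), 0 < ε → ∀ a : X d,
    ∀ w ∈ closedBall (0 : X d) 1,
    ∫⁻ w', ‖a + ε • (w' - w)‖ₑ⁻¹ ^ 8 ∂(Pb d) ≤ ENNReal.ofReal C * ‖a‖ₑ⁻¹ ^ 8 := by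
  have := Pb_prob d
  obtain ⟨C, hC, h⟩ := avg_loc9 (d := d) hd
  refine ⟨65536 * (C + 1), by positivity, fun ε hε a w hw => ?_⟩
  rw [mem_closedBall, dist_zero_right] at hw
  by_cases ha : a = 0
  · subst ha
    have h1 : ‖(0 : X d)‖ₑ⁻¹ ^ 8 = ⊤ := by simp
    rw [h1, ENNReal.mul_top (ENNReal.ofReal_pos.2 (by positivity)).ne']
    exact le_top
  have hap : 0 < ‖a‖ := norm_pos_iff.2 ha
  have hae : ‖a‖ₑ⁻¹ = ENNReal.ofReal ‖a‖⁻¹ := by
    rw [← ofReal_norm, ENNReal.ofReal_inv_of_pos hap]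
  rcases le_or_gt (4 * ε) ‖a‖ with h4 | h4
  · have hae2 : ∀ᵐ w' ∂(Pb d), w' ∈ closedBall (0 : X d) 1 := by
      unfold Pb
      exact Measure.ae_smul_measure (ae_restrict_mem isClosed_closedBall.measurableSet) _
    have h5 : ∀ᵐ w' ∂(Pb d), ‖a + ε • (w' - w)‖ₑ⁻¹ ^ 8 ≤
        ENNReal.ofReal (65536 * (C + 1)) * ‖a‖ₑ⁻¹ ^ 8 := by
      filter_upwards [hae2] with w' hw'
      rw [mem_closedBall, dist_zero_right] at hw'
      have h6 : ‖ε • (w' - w)‖ ≤ 2 * ε := by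
        rw [norm_smul, Real.norm_of_nonneg hε.le]
        have := norm_sub_le w' w
        nlinarith
      have h7 : ‖a‖ / 2 ≤ ‖a + ε • (w' - w)‖ := by
        have := norm_sub_le (a + ε • (w' - w)) (ε • (w' - w))
        rw [add_sub_cancel_right] at this
        linarith
      have h8 : 0 < ‖a + ε • (w' - w)‖ := by linarith
      rw [hae, ← ofReal_norm, ← ENNReal.ofReal_inv_of_pos h8,
        ← ENNReal.ofReal_pow (by positivity), ← ENNReal.ofReal_pow (by positivity),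
        ← ENNReal.ofReal_mul (by positivity)]
      apply ENNReal.ofReal_le_ofReal
      have h9 : ‖a + ε • (w' - w)‖⁻¹ ≤ 2 * ‖a‖⁻¹ := by
        rw [← div_eq_mul_inv, ← inv_div]
        exact inv_anti₀ (by positivity) h7
      calc ‖a + ε • (w' - w)‖⁻¹ ^ 8 ≤ (2 * ‖a‖⁻¹) ^ 8 := by gcongr
        _ = 256 * ‖a‖⁻¹ ^ 8 := by ring
        _ ≤ 65536 * (C + 1) * ‖a‖⁻¹ ^ 8 := by
            have : (256 : ℝ) ≤ 65536 * (C + 1) := by linarith
            gcongr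
    calc ∫⁻ w', ‖a + ε • (w' - w)‖ₑ⁻¹ ^ 8 ∂(Pb d)
        ≤ ∫⁻ _, ENNReal.ofReal (65536 * (C + 1)) * ‖a‖ₑ⁻¹ ^ 8 ∂(Pb d) := lintegral_mono_ae h5
      _ = ENNReal.ofReal (65536 * (C + 1)) * ‖a‖ₑ⁻¹ ^ 8 := by
          rw [lintegral_const, measure_univ, mul_one]
  · have h3 : ∀ w' : X d, ‖a + ε • (w' - w)‖ₑ⁻¹ ^ 8 =
        (ENNReal.ofReal ε)⁻¹ ^ 8 * ‖(ε⁻¹ • a - w) + w'‖ₑ⁻¹ ^ 8 := by
      intro w'
      rw [← mola_scale hε]
      congr 3
      rw [smul_add, smul_sub ε w' w, smul_sub ε (ε⁻¹ • a) w, smul_inv_smul₀ hε.ne']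
      abel
    have h5 : ∀ w' : X d, ‖(ε⁻¹ • a - w) + w'‖ₑ⁻¹ ^ 8 ≤ 1 + ‖(ε⁻¹ • a - w) + w'‖ₑ⁻¹ ^ 9 := by
      intro w'
      rcases le_or_gt (‖(ε⁻¹ • a - w) + w'‖ₑ⁻¹) 1 with h6 | h6
      · exact (pow_le_one' h6 8).trans le_self_add
      · exact (pow_le_pow_right' h6.le (by norm_num)).trans le_add_self
    simp_rw [h3]
    have h6 : Measurable fun w' : X d => ‖ε⁻¹ • a - w + w'‖ₑ⁻¹ ^ 8 :=
      mola_meas (measurable_const.add measurable_id) 8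
    rw [lintegral_const_mul _ h6]
    calc (ENNReal.ofReal ε)⁻¹ ^ 8 * ∫⁻ w', ‖(ε⁻¹ • a - w) + w'‖ₑ⁻¹ ^ 8 ∂(Pb d)
        ≤ (ENNReal.ofReal ε)⁻¹ ^ 8 * ∫⁻ w', (1 + ‖(ε⁻¹ • a - w) + w'‖ₑ⁻¹ ^ 9) ∂(Pb d) := by
          gcongr
          exact h5 _
      _ ≤ (ENNReal.ofReal ε)⁻¹ ^ 8 * (1 + ENNReal.ofReal C) := by
          rw [lintegral_add_left measurable_const, lintegral_const, measure_univ, mul_one]
          gcongr
          exact h _
      _ = ENNReal.ofReal (ε⁻¹ ^ 8 * (1 + C)) := by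
          rw [ENNReal.ofReal_mul (by positivity), ENNReal.ofReal_pow (by positivity),
            ENNReal.ofReal_inv_of_pos hε, ENNReal.ofReal_add one_pos.le hC.le,
            ENNReal.ofReal_one]
      _ ≤ ENNReal.ofReal (65536 * (C + 1) * ‖a‖⁻¹ ^ 8) := by
          apply ENNReal.ofReal_le_ofReal
          have h6 : ε⁻¹ ≤ 4 * ‖a‖⁻¹ := by
            rw [← div_eq_mul_inv, ← inv_div]
            exact inv_anti₀ (by positivity) (by linarith)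
          calc ε⁻¹ ^ 8 * (1 + C) ≤ (4 * ‖a‖⁻¹) ^ 8 * (1 + C) := by gcongr
            _ = 65536 * (C + 1) * ‖a‖⁻¹ ^ 8 := by ring
      _ = ENNReal.ofReal (65536 * (C + 1)) * ‖a‖ₑ⁻¹ ^ 8 := by
          rw [hae, ← ENNReal.ofReal_pow (by positivity), ← ENNReal.ofReal_mul (by positivity)]

end Pool.Agent.H48.R9
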