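import Pool.Agent.H48.R9.MolA

/-!
Template: R7/MolC.lean (avg_ker7).  Kernel ‖x‖⁻¹^10 • x, kr 9 ε a = (‖a‖²+ε²)⁻¹^5.
-/

set_option autoImplicit false

open MeasureTheory Filter Topology Metric Set
open scoped RealInnerProductSpace ENNReal

namespace Pool.Agent.H48.R9

open Pool.Agent.RZ Pool.Agent.H1.LD Pool.Agent.H48.R7

variable {d : ℕ}

/-- the kernel -/
private noncomputable def R9MolC_K (x : X d) : X d := ‖x‖⁻¹ ^ 10 • x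

private lemma R9MolC_K_meas : Measurable (R9MolC_K (d := d)) := by
  unfold R9MolC_K
  exact ((measurable_norm.inv).pow_const 10).smul measurable_id

private lemma R9MolC_K_norm (x : X d) : ‖R9MolC_K x‖ = ‖x‖⁻¹ ^ 9 := by
  unfold R9MolC_K
  rw [norm_smul, norm_pow, norm_inv, norm_norm]
  rcases eq_or_ne ‖x‖ 0 with h | h
  · rw [h]; simp
  · field_simp

private lemma R9MolC_K_enorm (x : X d) : ‖R9MolC_K x‖ₑ ≤ ‖x‖ₑ⁻¹ ^ 9 := by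
  rcases eq_or_ne x 0 with h | h
  · subst h; simp
  · have h0 : 0 < ‖x‖ := norm_pos_iff.2 h
    rw [← ofReal_norm, R9MolC_K_norm, ← ofReal_norm,
      ← ENNReal.ofReal_inv_of_pos h0, ENNReal.ofReal_pow (inv_nonneg.2 h0.le)]

private lemma R9MolC_kr (ε : ℝ) (a : X d) : kr 9 ε a = (‖a‖ ^ 2 + ε ^ 2)⁻¹ ^ 5 := by
  unfold kr
  have h : (0 : ℝ) ≤ ‖a‖ ^ 2 + ε ^ 2 := by positivity
  rw [show (9 + 1) = 2 * 5 by norm_num, pow_mul, inv_pow, Real.sq_sqrt h]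

/-- the difference of kernels -/
private lemma R9MolC_diff {x y : X d} (hy : 0 < ‖y‖) (h1 : ‖y‖ / 2 ≤ ‖x‖)
    (h2 : ‖x‖ ≤ 3 / 2 * ‖y‖) :
    ‖R9MolC_K x - R9MolC_K y‖ ≤ 117760 * ‖y‖⁻¹ ^ 10 * ‖x - y‖ := by
  have hx : 0 < ‖x‖ := by linarith [half_pos hy]
  have e : R9MolC_K x - R9MolC_K y =
      ‖x‖⁻¹ ^ 10 • (x - y) + (‖x‖⁻¹ ^ 10 - ‖y‖⁻¹ ^ 10) • y := by
    unfold R9MolC_K
    rw [smul_sub, sub_smul]; abel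
  have hi : ‖x‖⁻¹ ≤ 2 * ‖y‖⁻¹ := by
    have := inv_anti₀ (half_pos hy) h1
    rwa [inv_div, div_eq_mul_inv] at this
  have hi4 : ‖x‖⁻¹ ^ 10 ≤ 1024 * ‖y‖⁻¹ ^ 10 := by
    calc ‖x‖⁻¹ ^ 10 ≤ (2 * ‖y‖⁻¹) ^ 10 := pow_le_pow_left₀ (by positivity) hi 10
      _ = 1024 * ‖y‖⁻¹ ^ 10 := by ring
  have hab : |‖y‖ - ‖x‖| ≤ ‖x - y‖ := by
    rw [abs_sub_comm]; exact abs_norm_sub_norm_le x y
  have e2 : ‖x‖⁻¹ ^ 10 - ‖y‖⁻¹ ^ 10 =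
      (‖x‖⁻¹ ^ 10 * ‖y‖⁻¹ ^ 10) *
        ((‖y‖ - ‖x‖) * ((‖y‖ + ‖x‖) * (‖y‖ ^ 8 + ‖y‖ ^ 6 * ‖x‖ ^ 2 + ‖y‖ ^ 4 * ‖x‖ ^ 4 +
          ‖y‖ ^ 2 * ‖x‖ ^ 6 + ‖x‖ ^ 8))) := by
    field_simp
    ring
  have h3 : |‖x‖⁻¹ ^ 10 - ‖y‖⁻¹ ^ 10| ≤ 116736 * ‖y‖⁻¹ ^ 10 * ‖y‖⁻¹ * ‖x - y‖ := by
    rw [e2, abs_mul (‖x‖⁻¹ ^ 10 * ‖y‖⁻¹ ^ 10), abs_mul (‖y‖ - ‖x‖),
      abs_of_nonneg (by positivity : 0 ≤ ‖x‖⁻¹ ^ 10 * ‖y‖⁻¹ ^ 10),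
      abs_of_nonneg (by positivity :
        0 ≤ (‖y‖ + ‖x‖) * (‖y‖ ^ 8 + ‖y‖ ^ 6 * ‖x‖ ^ 2 + ‖y‖ ^ 4 * ‖x‖ ^ 4 +
          ‖y‖ ^ 2 * ‖x‖ ^ 6 + ‖x‖ ^ 8))]
    have h4 : (‖y‖ + ‖x‖) * (‖y‖ ^ 8 + ‖y‖ ^ 6 * ‖x‖ ^ 2 + ‖y‖ ^ 4 * ‖x‖ ^ 4 +
          ‖y‖ ^ 2 * ‖x‖ ^ 6 + ‖x‖ ^ 8) ≤ 114 * ‖y‖ ^ 9 := by
      have a1 : ‖y‖ + ‖x‖ ≤ 5 / 2 * ‖y‖ := by linarith
      have a2 : ‖x‖ ^ 2 ≤ (3 / 2 * ‖y‖) ^ 2 := pow_le_pow_left₀ hx.le h2 2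
      have a4 : ‖x‖ ^ 4 ≤ (3 / 2 * ‖y‖) ^ 4 := pow_le_pow_left₀ hx.le h2 4
      have a6 : ‖x‖ ^ 6 ≤ (3 / 2 * ‖y‖) ^ 6 := pow_le_pow_left₀ hx.le h2 6
      have a8 : ‖x‖ ^ 8 ≤ (3 / 2 * ‖y‖) ^ 8 := pow_le_pow_left₀ hx.le h2 8
      have b1 : ‖y‖ ^ 8 + ‖y‖ ^ 6 * ‖x‖ ^ 2 + ‖y‖ ^ 4 * ‖x‖ ^ 4 +
          ‖y‖ ^ 2 * ‖x‖ ^ 6 + ‖x‖ ^ 8 ≤ 11605 / 256 * ‖y‖ ^ 8 := by
        calc ‖y‖ ^ 8 + ‖y‖ ^ 6 * ‖x‖ ^ 2 + ‖y‖ ^ 4 * ‖x‖ ^ 4 +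
              ‖y‖ ^ 2 * ‖x‖ ^ 6 + ‖x‖ ^ 8
            ≤ ‖y‖ ^ 8 + ‖y‖ ^ 6 * (3 / 2 * ‖y‖) ^ 2 + ‖y‖ ^ 4 * (3 / 2 * ‖y‖) ^ 4 +
              ‖y‖ ^ 2 * (3 / 2 * ‖y‖) ^ 6 + (3 / 2 * ‖y‖) ^ 8 := by gcongr
          _ = 11605 / 256 * ‖y‖ ^ 8 := by ring
      calc (‖y‖ + ‖x‖) * (‖y‖ ^ 8 + ‖y‖ ^ 6 * ‖x‖ ^ 2 + ‖y‖ ^ 4 * ‖x‖ ^ 4 +
          ‖y‖ ^ 2 * ‖x‖ ^ 6 + ‖x‖ ^ 8)
          ≤ (5 / 2 * ‖y‖) * (11605 / 256 * ‖y‖ ^ 8) :=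
            mul_le_mul a1 b1 (by positivity) (by positivity)
        _ = 58025 / 512 * ‖y‖ ^ 9 := by ring
        _ ≤ 114 * ‖y‖ ^ 9 := by
            have := pow_pos hy 9
            linarith
    calc ‖x‖⁻¹ ^ 10 * ‖y‖⁻¹ ^ 10 *
          (|‖y‖ - ‖x‖| * ((‖y‖ + ‖x‖) * (‖y‖ ^ 8 + ‖y‖ ^ 6 * ‖x‖ ^ 2 + ‖y‖ ^ 4 * ‖x‖ ^ 4 +
          ‖y‖ ^ 2 * ‖x‖ ^ 6 + ‖x‖ ^ 8)))
        ≤ (1024 * ‖y‖⁻¹ ^ 10) * ‖y‖⁻¹ ^ 10 * (‖x - y‖ * (114 * ‖y‖ ^ 9)) := by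
          gcongr
      _ = 116736 * ‖y‖⁻¹ ^ 10 * ‖y‖⁻¹ * ‖x - y‖ := by
          field_simp
          ring
  rw [e]
  calc ‖‖x‖⁻¹ ^ 10 • (x - y) + (‖x‖⁻¹ ^ 10 - ‖y‖⁻¹ ^ 10) • y‖
      ≤ ‖x‖⁻¹ ^ 10 * ‖x - y‖ + |‖x‖⁻¹ ^ 10 - ‖y‖⁻¹ ^ 10| * ‖y‖ := by
        refine (norm_add_le _ _).trans (add_le_add ?_ ?_)
        · rw [norm_smul, norm_pow, norm_inv, norm_norm]
        · rw [norm_smul, Real.norm_eq_abs]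
    _ ≤ (1024 * ‖y‖⁻¹ ^ 10) * ‖x - y‖ + (116736 * ‖y‖⁻¹ ^ 10 * ‖y‖⁻¹ * ‖x - y‖) * ‖y‖ := by
        gcongr
    _ = 117760 * ‖y‖⁻¹ ^ 10 * ‖x - y‖ := by
        field_simp
        ring

private lemma R9MolC_ball : ∀ᵐ w ∂(Pb d), w ∈ closedBall (0 : X d) 1 := by
  unfold Pb
  exact Measure.ae_smul_measure (ae_restrict_mem measurableSet_closedBall) _

theorem avg_ker9 (hd : 10 ≤ d) : ∃ C : ℝ, 0 < C ∧ ∀ (ε : ℝ), 0 < ε → ∀ a : X d,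
    ∀ w ∈ closedBall (0 : X d) 1,
    ‖(∫ w', ‖a + ε • (w - w')‖⁻¹ ^ 10 • (a + ε • (w - w')) ∂(Pb d)) - kr 9 ε a • a‖ ≤
      C * (ε * kr 9 ε a) := by
  obtain ⟨C₁, hC₁, hloc⟩ := avg_loc9 (d := d) hd
  have := Pb_prob d
  refine ⟨1419857 * (C₁ + 1) + 500000, by positivity, fun ε hε a w hw => ?_⟩
  have hkr : kr 9 ε a = (‖a‖ ^ 2 + ε ^ 2)⁻¹ ^ 5 := R9MolC_kr ε a
  have hw1 : ‖w‖ ≤ 1 := by simpa using hw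
  have hk0 : 0 < kr 9 ε a := by rw [hkr]; positivity
  change ‖(∫ w', R9MolC_K (a + ε • (w - w')) ∂(Pb d)) - kr 9 ε a • a‖ ≤ _
  rcases lt_or_ge ‖a‖ (4 * ε) with hn | hf
  · -- near case
    have n1 : ‖∫ w', R9MolC_K (a + ε • (w - w')) ∂(Pb d)‖ ≤ ε⁻¹ ^ 9 * C₁ := by
      have l1 : ∫⁻ w', ‖R9MolC_K (a + ε • (w - w'))‖ₑ ∂(Pb d) ≤
          ENNReal.ofReal (ε⁻¹ ^ 9 * C₁) := by
        calc ∫⁻ w', ‖R9MolC_K (a + ε • (w - w'))‖ₑ ∂(Pb d)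
            ≤ ∫⁻ w', ENNReal.ofReal (ε⁻¹ ^ 9) * ‖-(ε⁻¹ • a + w) + w'‖ₑ⁻¹ ^ 9 ∂(Pb d) := by
              refine lintegral_mono fun w' => (R9MolC_K_enorm _).trans (le_of_eq ?_)
              have : a + ε • (w - w') = ε • (-(-(ε⁻¹ • a + w) + w')) := by
                rw [neg_add, neg_neg, smul_add, smul_add, smul_sub, smul_neg, smul_smul,
                  mul_inv_cancel₀ hε.ne', one_smul]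
                abel
              rw [this, enorm_smul, enorm_neg, Real.enorm_eq_ofReal hε.le,
                ENNReal.mul_inv (Or.inl (by simpa using hε)) (Or.inl ENNReal.ofReal_ne_top),
                mul_pow, ← ENNReal.ofReal_inv_of_pos hε,
                ← ENNReal.ofReal_pow (inv_nonneg.2 hε.le)]
          _ = ENNReal.ofReal (ε⁻¹ ^ 9) * ∫⁻ w', ‖-(ε⁻¹ • a + w) + w'‖ₑ⁻¹ ^ 9 ∂(Pb d) :=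
              lintegral_const_mul' _ _ ENNReal.ofReal_ne_top
          _ ≤ ENNReal.ofReal (ε⁻¹ ^ 9) * ENNReal.ofReal C₁ := by gcongr; exact hloc _
          _ = ENNReal.ofReal (ε⁻¹ ^ 9 * C₁) := (ENNReal.ofReal_mul (by positivity)).symm
      have l2 := (enorm_integral_le_lintegral_enorm
        (fun w' => R9MolC_K (a + ε • (w - w'))) (μ := Pb d)).trans l1
      rw [← ofReal_norm] at l2
      exact (ENNReal.ofReal_le_ofReal_iff (by positivity)).1 l2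
    have n2 : ‖kr 9 ε a • a‖ ≤ ε⁻¹ ^ 9 := by
      rw [norm_smul, Real.norm_eq_abs, abs_of_pos hk0, hkr, inv_pow, inv_pow]
      rw [inv_mul_le_iff₀ (by positivity), ← div_eq_mul_inv, le_div_iff₀ (by positivity)]
      have b1 : ‖a‖ * ε ≤ ‖a‖ ^ 2 + ε ^ 2 := by
        nlinarith [sq_nonneg (‖a‖ - ε), sq_nonneg ‖a‖, sq_nonneg ε]
      have b2 : ε ^ 2 ≤ ‖a‖ ^ 2 + ε ^ 2 := by nlinarith [sq_nonneg ‖a‖]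
      calc ‖a‖ * ε ^ 9 = (‖a‖ * ε) * (ε ^ 2) ^ 4 := by ring
        _ ≤ (‖a‖ ^ 2 + ε ^ 2) * (‖a‖ ^ 2 + ε ^ 2) ^ 4 := by gcongr
        _ = (‖a‖ ^ 2 + ε ^ 2) ^ 5 := by ring
    have n3 : ε⁻¹ ^ 9 ≤ 1419857 * (ε * kr 9 ε a) := by
      rw [hkr, inv_pow, inv_pow]
      rw [inv_le_iff_one_le_mul₀ (by positivity)]
      have h1 : ‖a‖ ^ 2 + ε ^ 2 ≤ 17 * ε ^ 2 := by
        have := pow_le_pow_left₀ (norm_nonneg a) hn.le 2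
        nlinarith
      have h2 : (‖a‖ ^ 2 + ε ^ 2) ^ 5 ≤ (17 * ε ^ 2) ^ 5 := pow_le_pow_left₀ (by positivity) h1 5
      have h3 : 1 ≤ 1419857 * ε ^ 10 * ((‖a‖ ^ 2 + ε ^ 2) ^ 5)⁻¹ := by
        rw [← div_eq_mul_inv, le_div_iff₀ (by positivity)]
        calc 1 * (‖a‖ ^ 2 + ε ^ 2) ^ 5 ≤ (17 * ε ^ 2) ^ 5 := by rw [one_mul]; exact h2
          _ = 1419857 * ε ^ 10 := by ring
      calc (1 : ℝ) ≤ 1419857 * ε ^ 10 * ((‖a‖ ^ 2 + ε ^ 2) ^ 5)⁻¹ := h3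
        _ = 1419857 * (ε * ((‖a‖ ^ 2 + ε ^ 2) ^ 5)⁻¹) * ε ^ 9 := by ring
    calc ‖(∫ w', R9MolC_K (a + ε • (w - w')) ∂(Pb d)) - kr 9 ε a • a‖
        ≤ ε⁻¹ ^ 9 * C₁ + ε⁻¹ ^ 9 := (norm_sub_le _ _).trans (add_le_add n1 n2)
      _ = (C₁ + 1) * ε⁻¹ ^ 9 := by ring
      _ ≤ (C₁ + 1) * (1419857 * (ε * kr 9 ε a)) := by gcongr
      _ ≤ (1419857 * (C₁ + 1) + 500000) * (ε * kr 9 ε a) := by nlinarith [mul_pos hε hk0]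
  · -- far case
    have ha : 0 < ‖a‖ := by linarith
    have hb : ∀ w' ∈ closedBall (0 : X d) 1, ‖ε • (w - w')‖ ≤ 2 * ε := by
      intro w' hw'
      have hw2 : ‖w'‖ ≤ 1 := by simpa using hw'
      rw [norm_smul, Real.norm_eq_abs, abs_of_pos hε]
      nlinarith [norm_sub_le w w']
    have hd1 : ∀ w' ∈ closedBall (0 : X d) 1,
        ‖R9MolC_K (a + ε • (w - w')) - R9MolC_K a‖ ≤ 235520 * ε * ‖a‖⁻¹ ^ 10 := by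
      intro w' hw'
      have hb1 := hb w' hw'
      have t1 : ‖a‖ - ‖ε • (w - w')‖ ≤ ‖a + ε • (w - w')‖ := by
        have := norm_sub_norm_le a (-(ε • (w - w')))
        rwa [norm_neg, sub_neg_eq_add] at this
      have t2 : ‖a + ε • (w - w')‖ ≤ ‖a‖ + ‖ε • (w - w')‖ := norm_add_le _ _
      refine (R9MolC_diff ha (by linarith) (by linarith)).trans ?_
      rw [add_sub_cancel_left]
      calc 117760 * ‖a‖⁻¹ ^ 10 * ‖ε • (w - w')‖ ≤ 117760 * ‖a‖⁻¹ ^ 10 * (2 * ε) := by gcongr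
        _ = 235520 * ε * ‖a‖⁻¹ ^ 10 := by ring
    have hint : Integrable (fun w' => R9MolC_K (a + ε • (w - w')) - R9MolC_K a) (Pb d) := by
      refine Integrable.of_bound (C := 235520 * ε * ‖a‖⁻¹ ^ 10) ?_ ?_
      · refine ((R9MolC_K_meas.comp ?_).sub_const _).aestronglyMeasurable
        fun_prop
      · filter_upwards [R9MolC_ball] with w' hw' using hd1 w' hw'
    have hint2 : Integrable (fun w' => R9MolC_K (a + ε • (w - w'))) (Pb d) := by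
      have := hint.add (integrable_const (R9MolC_K a))
      refine this.congr (Eventually.of_forall fun w' => ?_)
      simp
    have f1 : ‖(∫ w', R9MolC_K (a + ε • (w - w')) ∂(Pb d)) - R9MolC_K a‖ ≤
        235520 * ε * ‖a‖⁻¹ ^ 10 := by
      have e1 : (∫ w', R9MolC_K (a + ε • (w - w')) ∂(Pb d)) - R9MolC_K a =
          ∫ w', (R9MolC_K (a + ε • (w - w')) - R9MolC_K a) ∂(Pb d) := by
        rw [integral_sub hint2 (integrable_const _), integral_const]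
        simp
      rw [e1]
      have := norm_integral_le_of_norm_le_const (μ := Pb d)
        (f := fun w' => R9MolC_K (a + ε • (w - w')) - R9MolC_K a) (C := 235520 * ε * ‖a‖⁻¹ ^ 10)
        (by filter_upwards [R9MolC_ball] with w' hw' using hd1 w' hw')
      simpa using this
    have hAE : 16 * ε ^ 2 ≤ ‖a‖ ^ 2 := by
      have := pow_le_pow_left₀ (by positivity) hf 2
      nlinarith
    have hk1 : kr 9 ε a ≤ ‖a‖⁻¹ ^ 10 := by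
      rw [hkr, inv_pow, inv_pow]
      refine inv_anti₀ (by positivity) ?_
      calc ‖a‖ ^ 10 = (‖a‖ ^ 2) ^ 5 := by ring
        _ ≤ (‖a‖ ^ 2 + ε ^ 2) ^ 5 := by
            gcongr
            exact le_add_of_nonneg_right (sq_nonneg ε)
    have hk2 : ‖a‖⁻¹ ^ 10 ≤ 2 * kr 9 ε a := by
      rw [hkr, inv_pow, inv_pow, ← div_eq_mul_inv, inv_eq_one_div,
        div_le_div_iff₀ (by positivity) (by positivity)]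
      have h2 : ‖a‖ ^ 2 + ε ^ 2 ≤ 17 / 16 * ‖a‖ ^ 2 := by linarith
      have h3 := pow_le_pow_left₀ (by positivity) h2 5
      have h4 : (17 / 16 * ‖a‖ ^ 2) ^ 5 = 1419857 / 1048576 * ‖a‖ ^ 10 := by ring
      rw [h4] at h3
      have h5 := pow_pos ha 10
      linarith
    have f2 : ‖R9MolC_K a - kr 9 ε a • a‖ ≤ 2 * ε * ‖a‖⁻¹ ^ 10 := by
      unfold R9MolC_K
      rw [← sub_smul, norm_smul, Real.norm_eq_abs, abs_of_nonneg (by linarith), hkr]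
      have e : ‖a‖⁻¹ ^ 10 - (‖a‖ ^ 2 + ε ^ 2)⁻¹ ^ 5 =
          (ε ^ 2 * (5 * ‖a‖ ^ 8 + 10 * ‖a‖ ^ 6 * ε ^ 2 + 10 * ‖a‖ ^ 4 * ε ^ 4 +
            5 * ‖a‖ ^ 2 * ε ^ 6 + ε ^ 8)) *
            (‖a‖⁻¹ ^ 10 * (‖a‖ ^ 2 + ε ^ 2)⁻¹ ^ 5) := by
        field_simp
        ring
      rw [e]
      have h5 : (‖a‖ ^ 2 + ε ^ 2)⁻¹ ^ 5 ≤ ‖a‖⁻¹ ^ 10 := by rw [← hkr]; exact hk1
      have h8 : 5 * ‖a‖ ^ 8 + 10 * ‖a‖ ^ 6 * ε ^ 2 + 10 * ‖a‖ ^ 4 * ε ^ 4 +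
            5 * ‖a‖ ^ 2 * ε ^ 6 + ε ^ 8 ≤ 6 * ‖a‖ ^ 8 := by
        have q1 : ε ^ 2 ≤ ‖a‖ ^ 2 / 16 := by linarith
        have q2 : (ε ^ 2) ^ 2 ≤ (‖a‖ ^ 2 / 16) ^ 2 := pow_le_pow_left₀ (sq_nonneg ε) q1 2
        have q3 : (ε ^ 2) ^ 3 ≤ (‖a‖ ^ 2 / 16) ^ 3 := pow_le_pow_left₀ (sq_nonneg ε) q1 3
        have q4 : (ε ^ 2) ^ 4 ≤ (‖a‖ ^ 2 / 16) ^ 4 := pow_le_pow_left₀ (sq_nonneg ε) q1 4
        have r1 : ‖a‖ ^ 6 * ε ^ 2 ≤ ‖a‖ ^ 6 * (‖a‖ ^ 2 / 16) := by gcongr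
        have r2 : ‖a‖ ^ 4 * ε ^ 4 ≤ ‖a‖ ^ 4 * (‖a‖ ^ 2 / 16) ^ 2 := by
          have : ε ^ 4 = (ε ^ 2) ^ 2 := by ring
          rw [this]; gcongr
        have r3 : ‖a‖ ^ 2 * ε ^ 6 ≤ ‖a‖ ^ 2 * (‖a‖ ^ 2 / 16) ^ 3 := by
          have : ε ^ 6 = (ε ^ 2) ^ 3 := by ring
          rw [this]; gcongr
        have r4 : ε ^ 8 ≤ (‖a‖ ^ 2 / 16) ^ 4 := by
          have : ε ^ 8 = (ε ^ 2) ^ 4 := by ring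
          rw [this]; exact q4
        have s1 : ‖a‖ ^ 6 * (‖a‖ ^ 2 / 16) = ‖a‖ ^ 8 / 16 := by ring
        have s2 : ‖a‖ ^ 4 * (‖a‖ ^ 2 / 16) ^ 2 = ‖a‖ ^ 8 / 256 := by ring
        have s3 : ‖a‖ ^ 2 * (‖a‖ ^ 2 / 16) ^ 3 = ‖a‖ ^ 8 / 4096 := by ring
        have s4 : (‖a‖ ^ 2 / 16) ^ 4 = ‖a‖ ^ 8 / 65536 := by ring
        rw [s1] at r1
        rw [s2] at r2
        rw [s3] at r3
        rw [s4] at r4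
        have r7 := pow_pos ha 8
        linarith
      have h6 : ε ^ 2 * (6 * ‖a‖ ^ 8) * ‖a‖⁻¹ ^ 10 * ‖a‖ ≤ 2 * ε := by
        have e6 : ε ^ 2 * (6 * ‖a‖ ^ 8) * ‖a‖⁻¹ ^ 10 * ‖a‖ = 6 * ε * (ε * ‖a‖⁻¹) := by
          field_simp
        rw [e6]
        have h7 : ε * ‖a‖⁻¹ ≤ 1 / 4 := by
          rw [← div_eq_mul_inv, div_le_iff₀ ha]
          linarith
        nlinarith
      calc ε ^ 2 * (5 * ‖a‖ ^ 8 + 10 * ‖a‖ ^ 6 * ε ^ 2 + 10 * ‖a‖ ^ 4 * ε ^ 4 +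
            5 * ‖a‖ ^ 2 * ε ^ 6 + ε ^ 8) *
            (‖a‖⁻¹ ^ 10 * (‖a‖ ^ 2 + ε ^ 2)⁻¹ ^ 5) * ‖a‖
          ≤ ε ^ 2 * (6 * ‖a‖ ^ 8) * (‖a‖⁻¹ ^ 10 * ‖a‖⁻¹ ^ 10) * ‖a‖ := by gcongr
        _ = (ε ^ 2 * (6 * ‖a‖ ^ 8) * ‖a‖⁻¹ ^ 10 * ‖a‖) * ‖a‖⁻¹ ^ 10 := by ring
        _ ≤ 2 * ε * ‖a‖⁻¹ ^ 10 := by gcongr
    calc ‖(∫ w', R9MolC_K (a + ε • (w - w')) ∂(Pb d)) - kr 9 ε a • a‖
        ≤ 235520 * ε * ‖a‖⁻¹ ^ 10 + 2 * ε * ‖a‖⁻¹ ^ 10 := by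
          have := norm_add_le ((∫ w', R9MolC_K (a + ε • (w - w')) ∂(Pb d)) - R9MolC_K a)
            (R9MolC_K a - kr 9 ε a • a)
          rw [sub_add_sub_cancel] at this
          exact this.trans (add_le_add f1 f2)
      _ = 235522 * ε * ‖a‖⁻¹ ^ 10 := by ring
      _ ≤ 235522 * ε * (2 * kr 9 ε a) := by gcongr
      _ ≤ (1419857 * (C₁ + 1) + 500000) * (ε * kr 9 ε a) := by nlinarith [mul_pos hε hk0]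

end Pool.Agent.H48.R9
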