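import Pool.Agent.H48.R9.Defs
import Pool.Agent.H48.R7.Pair

/-!
ga_fourth etc.: moments of order four from the Stein lemma (private Six_stein and Six_pg of R7/Six.lean, copy with the
prefix PairB_): with τ = 1/(2b), ∫ ga b w ⟪w,a⟫ f(w) = τ ∫ ga b w (∂_a f)(w).
gauss_pairB: as gauss_pair7 (R7/Pair.lean): a = x - z, b = x' - z, β = 2/s², Y = z + (a+b)/2 + w, x - Y = h - w,
x' - Y = -h - w, h = (a-b)/2; product of the Gaussians exp(-‖a-b‖²/s²) ga (4/s²) w.  With u = ⟪a,h⟫ - ⟪a,w⟫,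
u' = -⟪b,h⟫ - ⟪b,w⟫ both factors 4 - 10βu - 2β‖a‖² + 4β²u² are quadratic in w; odd moments vanish; second moments
(s²/8)⟪·,·⟫, fourth moment of ⟪a,w⟫²⟪b,w⟫²: (s²/8)² (‖a‖²‖b‖² + 2⟪a,b⟫²).  ⟪a,h⟫ = P/2, ⟪b,h⟫ = -R/2, P = ⟪a,a-b⟫,
R = ⟪b,b-a⟫, ‖a‖² = P + p, ‖b‖² = R + p, ‖a-b‖² = P + R.  The result is mtb (checked by computer algebra).
-/

set_option autoImplicit false

open MeasureTheory Filter Topology Metric Set
open scoped RealInnerProductSpace ENNReal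

namespace Pool.Agent.H48.R9

open Pool.Agent.RZ Pool.Agent.H1.LD Pool.Agent.H48.R7

variable {d : ℕ}

/-- continuous functions of polynomial growth -/
private def R9PairB_pg (F : X d → ℝ) : Prop :=
  Continuous F ∧ ∃ (m : ℕ) (C : ℝ), 0 ≤ C ∧ ∀ w, |F w| ≤ C * (1 + ‖w‖) ^ m

private theorem R9PairB_mul {F G : X d → ℝ} (hF : R9PairB_pg F) (hG : R9PairB_pg G) :
    R9PairB_pg (fun w => F w * G w) := by
  obtain ⟨h1, m, C, hC, h2⟩ := hF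
  obtain ⟨h3, m', C', hC', h4⟩ := hG
  refine ⟨h1.mul h3, m + m', C * C', mul_nonneg hC hC', fun w => ?_⟩
  rw [abs_mul]
  calc |F w| * |G w| ≤ (C * (1 + ‖w‖) ^ m) * (C' * (1 + ‖w‖) ^ m') :=
        mul_le_mul (h2 w) (h4 w) (abs_nonneg _) (by positivity)
    _ = C * C' * (1 + ‖w‖) ^ (m + m') := by ring

private theorem R9PairB_add {F G : X d → ℝ} (hF : R9PairB_pg F) (hG : R9PairB_pg G) :
    R9PairB_pg (fun w => F w + G w) := by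
  obtain ⟨h1, m, C, hC, h2⟩ := hF
  obtain ⟨h3, m', C', hC', h4⟩ := hG
  refine ⟨h1.add h3, m + m', C + C', add_nonneg hC hC', fun w => ?_⟩
  have h0 : 1 ≤ 1 + ‖w‖ := by linarith [norm_nonneg w]
  have h5 : (1 + ‖w‖) ^ m ≤ (1 + ‖w‖) ^ (m + m') := pow_le_pow_right₀ h0 (by omega)
  have h6 : (1 + ‖w‖) ^ m' ≤ (1 + ‖w‖) ^ (m + m') := pow_le_pow_right₀ h0 (by omega)
  calc |F w + G w| ≤ |F w| + |G w| := abs_add_le _ _
    _ ≤ C * (1 + ‖w‖) ^ m + C' * (1 + ‖w‖) ^ m' := add_le_add (h2 w) (h4 w)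
    _ ≤ C * (1 + ‖w‖) ^ (m + m') + C' * (1 + ‖w‖) ^ (m + m') :=
        add_le_add (mul_le_mul_of_nonneg_left h5 hC) (mul_le_mul_of_nonneg_left h6 hC')
    _ = (C + C') * (1 + ‖w‖) ^ (m + m') := by ring

private theorem R9PairB_const (c : ℝ) : R9PairB_pg (fun _ : X d => c) := by
  refine ⟨continuous_const, 0, |c|, abs_nonneg c, fun w => ?_⟩
  simp

private theorem R9PairB_in (a : X d) : R9PairB_pg (fun w => ⟪w, a⟫) := by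
  refine ⟨by fun_prop, 1, ‖a‖, norm_nonneg a, fun w => ?_⟩
  have h1 := abs_real_inner_le_norm w a
  have h2 := norm_nonneg a
  rw [pow_one]
  nlinarith

private theorem R9PairB_sq (a : X d) : R9PairB_pg (fun w => ⟪w, a⟫ ^ 2) := by
  simpa only [sq] using R9PairB_mul (R9PairB_in a) (R9PairB_in a)

private theorem R9PairB_int {b : ℝ} (hb : 0 < b) {F : X d → ℝ} (hF : R9PairB_pg F) :
    Integrable (fun w : X d => ga b w * F w) := by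
  obtain ⟨h1, m, C, hC, h2⟩ := hF
  refine ((ga_integrable hb m).const_mul C).mono'
    ((ga_continuous b).mul h1).aestronglyMeasurable (Eventually.of_forall fun w => ?_)
  rw [Real.norm_eq_abs, abs_mul, abs_of_nonneg (ga_nonneg b w)]
  calc ga b w * |F w| ≤ ga b w * (C * (1 + ‖w‖) ^ m) :=
        mul_le_mul_of_nonneg_left (h2 w) (ga_nonneg b w)
    _ = C * ((1 + ‖w‖) ^ m * ga b w) := by ring

private theorem R9PairB_deriv (b : ℝ) (w a : X d) :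
    HasLineDerivAt ℝ (ga b : X d → ℝ) (ga b w * (-(2 * b) * ⟪w, a⟫)) w a := by
  unfold HasLineDerivAt
  have h1 : HasDerivAt (fun t : ℝ => w + t • a) a 0 := by
    have h2 := ((hasDerivAt_id (0 : ℝ)).smul_const a).const_add w
    simpa using h2
  have h2 : HasDerivAt (fun t : ℝ => ‖w + t • a‖ ^ 2) (2 * ⟪w + (0 : ℝ) • a, a⟫) 0 := h1.norm_sq
  have h3 : HasDerivAt (fun t : ℝ => -(b * ‖w + t • a‖ ^ 2))
      (-(b * (2 * ⟪w + (0 : ℝ) • a, a⟫))) 0 := (h2.const_mul b).neg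
  have h4 := h3.exp
  have e : ga b w * (-(2 * b) * ⟪w, a⟫) = Real.exp (-(b * ‖w + (0 : ℝ) • a‖ ^ 2)) *
      -(b * (2 * ⟪w + (0 : ℝ) • a, a⟫)) := by
    rw [zero_smul, add_zero]
    unfold ga
    ring
  rw [e]
  exact h4

/-- integration by parts -/
private theorem R9PairB_stein {b : ℝ} (hb : 0 < b) {f f' : X d → ℝ} (a : X d) (hf : R9PairB_pg f)
    (hf' : R9PairB_pg f') (h : ∀ w, HasLineDerivAt ℝ f (f' w) w a) :
    ∫ w : X d, ga b w * f' w = 2 * b * ∫ w : X d, ga b w * (⟪w, a⟫ * f w) := by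
  have h := integral_bilinear_hasLineDerivAt_right_eq_neg_left_of_integrable
    (μ := (volume : Measure (X d))) (f := fun w : X d => ga b w)
    (f' := fun w => ga b w * (-(2 * b) * ⟪w, a⟫)) (g := f)
    (g' := f') (v := a) (B := ContinuousLinearMap.mul ℝ ℝ) ?_ ?_ ?_ ?_ ?_
  · simp only [ContinuousLinearMap.mul_apply'] at h
    rw [h, ← integral_const_mul, ← integral_neg]
    refine integral_congr_ae (Eventually.of_forall fun w => ?_)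
    simp only
    ring
  · simp only [ContinuousLinearMap.mul_apply']
    have h1 := (R9PairB_int hb (R9PairB_mul (R9PairB_in a) hf)).const_mul (-(2 * b))
    refine h1.congr (Eventually.of_forall fun w => ?_)
    simp only
    ring
  · simp only [ContinuousLinearMap.mul_apply']
    exact R9PairB_int hb hf'
  · simp only [ContinuousLinearMap.mul_apply']
    exact R9PairB_int hb hf
  · intro w _
    exact R9PairB_deriv b w a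
  · intro w _
    exact h w

private theorem R9PairB_d1 (w a c : X d) :
    HasDerivAt (fun t : ℝ => ⟪w + t • a, c⟫) ⟪a, c⟫ 0 := by
  have h2 := ((hasDerivAt_id (0 : ℝ)).mul_const ⟪a, c⟫).const_add ⟪w, c⟫
  rw [one_mul] at h2
  refine h2.congr_of_eventuallyEq (Eventually.of_forall fun t => ?_)
  simp only [id]
  rw [inner_add_left, real_inner_smul_left]

private theorem R9PairB_odd {b : ℝ} {F : X d → ℝ} (hF : ∀ w, F (-w) = -F w) :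
    ∫ w : X d, ga b w * F w = 0 := by
  have h1 := integral_neg_eq_self (fun w : X d => ga b w * F w) volume
  simp only [ga_neg, hF, mul_neg, integral_neg] at h1
  linarith

private theorem R9PairB_22 {b : ℝ} (hb : 0 < b) (a c : X d) :
    ∫ w : X d, ga b w * (⟪w, a⟫ ^ 2 * ⟪w, c⟫ ^ 2) =
      gc d b / (2 * b) ^ 2 * (‖a‖ ^ 2 * ‖c‖ ^ 2 + 2 * ⟪a, c⟫ ^ 2) := by
  have hf : R9PairB_pg (fun w : X d => ⟪w, a⟫ * ⟪w, c⟫ ^ 2) := R9PairB_mul (R9PairB_in a) (R9PairB_sq c)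
  have hf' : R9PairB_pg (fun w : X d => ‖a‖ ^ 2 * ⟪w, c⟫ ^ 2 + 2 * ⟪a, c⟫ * (⟪w, a⟫ * ⟪w, c⟫)) :=
    R9PairB_add (R9PairB_mul (R9PairB_const _) (R9PairB_sq c))
      (R9PairB_mul (R9PairB_const _) (R9PairB_mul (R9PairB_in a) (R9PairB_in c)))
  have hd : ∀ w : X d, HasLineDerivAt ℝ (fun w : X d => ⟪w, a⟫ * ⟪w, c⟫ ^ 2)
      (‖a‖ ^ 2 * ⟪w, c⟫ ^ 2 + 2 * ⟪a, c⟫ * (⟪w, a⟫ * ⟪w, c⟫)) w a := by
    intro w
    unfold HasLineDerivAt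
    have h1 := (R9PairB_d1 w a a).fun_mul ((R9PairB_d1 w a c).fun_pow 2)
    have e : ‖a‖ ^ 2 * ⟪w, c⟫ ^ 2 + 2 * ⟪a, c⟫ * (⟪w, a⟫ * ⟪w, c⟫) =
        ⟪a, a⟫ * ⟪w + (0 : ℝ) • a, c⟫ ^ 2 +
          ⟪w + (0 : ℝ) • a, a⟫ * (((2 : ℕ) : ℝ) * ⟪w + (0 : ℝ) • a, c⟫ ^ (2 - 1) * ⟪a, c⟫) := by
      rw [zero_smul, add_zero, real_inner_self_eq_norm_sq]
      push_cast
      ring
    rw [e]
    exact h1
  have h := R9PairB_stein hb a hf hf' hd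
  have h1 : ∫ w : X d, ga b w * (‖a‖ ^ 2 * ⟪w, c⟫ ^ 2 + 2 * ⟪a, c⟫ * (⟪w, a⟫ * ⟪w, c⟫)) =
      ‖a‖ ^ 2 * (gc d b / (2 * b) * ⟪c, c⟫) + 2 * ⟪a, c⟫ * (gc d b / (2 * b) * ⟪a, c⟫) := by
    rw [← ga_second hb c c, ← ga_second hb a c, ← integral_const_mul, ← integral_const_mul,
      ← integral_add]
    · refine integral_congr_ae (Eventually.of_forall fun w => ?_)
      simp only
      ring
    · exact (R9PairB_int hb (R9PairB_mul (R9PairB_in c) (R9PairB_in c))).const_mul _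
    · exact (R9PairB_int hb (R9PairB_mul (R9PairB_in a) (R9PairB_in c))).const_mul _
  have h2 : ∫ w : X d, ga b w * (⟪w, a⟫ * (⟪w, a⟫ * ⟪w, c⟫ ^ 2)) =
      ∫ w : X d, ga b w * (⟪w, a⟫ ^ 2 * ⟪w, c⟫ ^ 2) := by
    refine integral_congr_ae (Eventually.of_forall fun w => ?_)
    simp only
    ring
  rw [h1, h2, real_inner_self_eq_norm_sq] at h
  have hb2 : (2 * b) ≠ 0 := by positivity
  have h3 : ∫ w : X d, ga b w * (⟪w, a⟫ ^ 2 * ⟪w, c⟫ ^ 2) = (2 * b)⁻¹ *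
      (‖a‖ ^ 2 * (gc d b / (2 * b) * ‖c‖ ^ 2) + 2 * ⟪a, c⟫ * (gc d b / (2 * b) * ⟪a, c⟫)) := by
    rw [h, ← mul_assoc, inv_mul_cancel₀ hb2, one_mul]
  rw [h3]
  field_simp

private theorem R9PairB_ia {F G : X d → ℝ} (hF : Integrable F) (hG : Integrable G) :
    Integrable (fun w : X d => F w + G w) := hF.add hG

private theorem R9PairB_quad {b : ℝ} (hb : 0 < b) (a c : X d) (c0 c1 c2 d0 d1 d2 : ℝ) :
    ∫ w : X d, ga b w * ((c0 + c1 * ⟪w, a⟫ + c2 * ⟪w, a⟫ ^ 2) *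
      (d0 + d1 * ⟪w, c⟫ + d2 * ⟪w, c⟫ ^ 2)) =
      gc d b * (c0 * d0 + c1 * d1 * ⟪a, c⟫ / (2 * b) + c0 * d2 * ‖c‖ ^ 2 / (2 * b) +
        c2 * d0 * ‖a‖ ^ 2 / (2 * b) +
        c2 * d2 * (‖a‖ ^ 2 * ‖c‖ ^ 2 + 2 * ⟪a, c⟫ ^ 2) / (2 * b) ^ 2) := by
  have hF : ∀ w : X d, ga b w * ((c0 + c1 * ⟪w, a⟫ + c2 * ⟪w, a⟫ ^ 2) *
      (d0 + d1 * ⟪w, c⟫ + d2 * ⟪w, c⟫ ^ 2)) =
      c0 * d0 * (ga b w * 1) +
      (c1 * d1 * (ga b w * (⟪w, a⟫ * ⟪w, c⟫)) +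
      (c0 * d2 * (ga b w * (⟪w, c⟫ * ⟪w, c⟫)) +
      (c2 * d0 * (ga b w * (⟪w, a⟫ * ⟪w, a⟫)) +
      (c2 * d2 * (ga b w * (⟪w, a⟫ ^ 2 * ⟪w, c⟫ ^ 2)) +
      (c0 * d1 * (ga b w * ⟪w, c⟫) +
      (c1 * d0 * (ga b w * ⟪w, a⟫) +
      (c1 * d2 * (ga b w * (⟪w, a⟫ * ⟪w, c⟫ ^ 2)) +
      c2 * d1 * (ga b w * (⟪w, a⟫ ^ 2 * ⟪w, c⟫)))))))))  := by
    intro w
    ring
  have j0 := (R9PairB_int hb (R9PairB_const (d := d) 1)).const_mul (c0 * d0)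
  have j1 := (R9PairB_int hb (R9PairB_mul (R9PairB_in a) (R9PairB_in c))).const_mul (c1 * d1)
  have j2 := (R9PairB_int hb (R9PairB_mul (R9PairB_in c) (R9PairB_in c))).const_mul (c0 * d2)
  have j3 := (R9PairB_int hb (R9PairB_mul (R9PairB_in a) (R9PairB_in a))).const_mul (c2 * d0)
  have j4 := (R9PairB_int hb (R9PairB_mul (R9PairB_sq a) (R9PairB_sq c))).const_mul (c2 * d2)
  have j5 := (R9PairB_int hb (R9PairB_in c)).const_mul (c0 * d1)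
  have j6 := (R9PairB_int hb (R9PairB_in a)).const_mul (c1 * d0)
  have j7 := (R9PairB_int hb (R9PairB_mul (R9PairB_in a) (R9PairB_sq c))).const_mul (c1 * d2)
  have j8 := (R9PairB_int hb (R9PairB_mul (R9PairB_sq a) (R9PairB_in c))).const_mul (c2 * d1)
  have o7 : ∫ w : X d, ga b w * (⟪w, a⟫ * ⟪w, c⟫ ^ 2) = 0 := R9PairB_odd fun w => by
    simp only [inner_neg_left]
    ring
  have o8 : ∫ w : X d, ga b w * (⟪w, a⟫ ^ 2 * ⟪w, c⟫) = 0 := R9PairB_odd fun w => by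
    simp only [inner_neg_left]
    ring
  have m0 : ∫ w : X d, ga b w * 1 = gc d b := by
    unfold gc
    simp
  rw [integral_congr_ae (Eventually.of_forall hF)]
  have k7 := R9PairB_ia j7 j8
  have k6 := R9PairB_ia j6 k7
  have k5 := R9PairB_ia j5 k6
  have k4 := R9PairB_ia j4 k5
  have k3 := R9PairB_ia j3 k4
  have k2 := R9PairB_ia j2 k3
  have k1 := R9PairB_ia j1 k2
  rw [integral_add j0 k1, integral_add j1 k2, integral_add j2 k3, integral_add j3 k4,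
    integral_add j4 k5, integral_add j5 k6, integral_add j6 k7, integral_add j7 j8]
  simp only [integral_const_mul]
  rw [m0, ga_second hb, ga_second hb, ga_second hb, R9PairB_22 hb, ga_odd, ga_odd, o7, o8,
    real_inner_self_eq_norm_sq, real_inner_self_eq_norm_sq]
  field_simp
  ring

private theorem R9PairB_gc {s : ℝ} (hs : 0 < s) : gc d (4 / s ^ 2) = s ^ d * gc d 4 := by
  have h := MeasureTheory.Measure.integral_comp_smul (volume : Measure (X d)) (fun w : X d => ga 4 w) s⁻¹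
  have h1 : (fun w : X d => ga 4 (s⁻¹ • w)) = fun w : X d => ga (4 / s ^ 2) w := by
    funext w
    unfold ga
    congr 1
    rw [norm_smul, norm_inv, Real.norm_eq_abs, abs_of_pos hs]
    field_simp
  rw [h1] at h
  unfold gc
  rw [h]
  rw [finrank_euclideanSpace, Fintype.card_fin, inv_pow, inv_inv, abs_of_pos (pow_pos hs d), smul_eq_mul]

private theorem R9PairB_alg (S P R p : ℝ) (hS : S ≠ 0) :
    (4 - 10 * (2 / S) * (P / 2) - 2 * (2 / S) * (P + p) + 4 * (2 / S) ^ 2 * (P / 2) ^ 2) *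
      (4 + 10 * (2 / S) * (-(R / 2)) - 2 * (2 / S) * (R + p) + 4 * (2 / S) ^ 2 * (-(R / 2)) ^ 2) +
    (10 * (2 / S) - 8 * (2 / S) ^ 2 * (P / 2)) * (10 * (2 / S) + 8 * (2 / S) ^ 2 * (-(R / 2))) * p /
      (2 * (4 / S)) +
    (4 - 10 * (2 / S) * (P / 2) - 2 * (2 / S) * (P + p) + 4 * (2 / S) ^ 2 * (P / 2) ^ 2) *
      (4 * (2 / S) ^ 2) * (R + p) / (2 * (4 / S)) +
    (4 * (2 / S) ^ 2) *
      (4 + 10 * (2 / S) * (-(R / 2)) - 2 * (2 / S) * (R + p) + 4 * (2 / S) ^ 2 * (-(R / 2)) ^ 2) *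
      (P + p) / (2 * (4 / S)) +
    (4 * (2 / S) ^ 2) * (4 * (2 / S) ^ 2) * ((P + p) * (R + p) + 2 * p ^ 2) / (2 * (4 / S)) ^ 2 =
    16 + (34 * p - 48 * (P + R)) / S +
    (12 * p ^ 2 + 112 * (P * R) - 16 * (P + R) * p + 16 * (P + R) ^ 2) / S ^ 2 +
    (48 * (P * R) * p - 48 * (P + R) * (P * R) - 8 * (P + R) ^ 2 * p) / S ^ 3 +
    16 * (P * R) ^ 2 / S ^ 4 := by
  field_simp
  ring

private theorem R9PairB_aux {s : ℝ} (hs : 0 < s) (a b : X d) (z : X d) :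
    ∫ Y : X d, ((4 - 10 * (2 / s ^ 2) * ⟪a, z + a - Y⟫ - 2 * (2 / s ^ 2) * ‖a‖ ^ 2 +
        4 * (2 / s ^ 2) ^ 2 * ⟪a, z + a - Y⟫ ^ 2) * ga (2 / s ^ 2) (z + a - Y)) *
      ((4 - 10 * (2 / s ^ 2) * ⟪b, z + b - Y⟫ - 2 * (2 / s ^ 2) * ‖b‖ ^ 2 +
        4 * (2 / s ^ 2) ^ 2 * ⟪b, z + b - Y⟫ ^ 2) * ga (2 / s ^ 2) (z + b - Y)) =
      s ^ d * gc d 4 * mtb a b s := by
  have hB : 0 < 4 / s ^ 2 := by positivity
  obtain ⟨h, hh⟩ : ∃ h : X d, h = (1 / 2 : ℝ) • (a - b) := ⟨_, rfl⟩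
  have htr := integral_add_left_eq_self (μ := (volume : Measure (X d)))
    (fun Y : X d => ((4 - 10 * (2 / s ^ 2) * ⟪a, z + a - Y⟫ - 2 * (2 / s ^ 2) * ‖a‖ ^ 2 +
        4 * (2 / s ^ 2) ^ 2 * ⟪a, z + a - Y⟫ ^ 2) * ga (2 / s ^ 2) (z + a - Y)) *
      ((4 - 10 * (2 / s ^ 2) * ⟪b, z + b - Y⟫ - 2 * (2 / s ^ 2) * ‖b‖ ^ 2 +
        4 * (2 / s ^ 2) ^ 2 * ⟪b, z + b - Y⟫ ^ 2) * ga (2 / s ^ 2) (z + b - Y)))
    (z + (1 / 2 : ℝ) • (a + b))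
  rw [← htr]
  have e1 : ∀ w : X d, z + a - (z + (1 / 2 : ℝ) • (a + b) + w) = h - w := by
    intro w
    rw [hh]
    module
  have e2 : ∀ w : X d, z + b - (z + (1 / 2 : ℝ) • (a + b) + w) = -h - w := by
    intro w
    rw [hh]
    module
  have hnorm : ∀ w : X d, ‖h - w‖ ^ 2 + ‖-h - w‖ ^ 2 = ‖a - b‖ ^ 2 / 2 + 2 * ‖w‖ ^ 2 := by
    intro w
    have h1 : ‖-h - w‖ = ‖h + w‖ := by
      rw [← norm_neg]
      congr 1
      abel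
    have h2 : ‖h‖ ^ 2 = ‖a - b‖ ^ 2 / 4 := by
      rw [hh, norm_smul, mul_pow]
      norm_num
      ring
    rw [h1, @norm_sub_sq_real, @norm_add_sq_real, h2]
    ring
  have hga : ∀ w : X d, ga (2 / s ^ 2) (h - w) * ga (2 / s ^ 2) (-h - w) =
      Real.exp (-(‖a - b‖ ^ 2 / s ^ 2)) * ga (4 / s ^ 2) w := by
    intro w
    unfold ga
    rw [← Real.exp_add, ← Real.exp_add]
    congr 1
    have h1 : -(2 / s ^ 2 * ‖h - w‖ ^ 2) + -(2 / s ^ 2 * ‖-h - w‖ ^ 2) =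
        -(2 / s ^ 2 * (‖h - w‖ ^ 2 + ‖-h - w‖ ^ 2)) := by ring
    rw [h1, hnorm w]
    field_simp
    ring
  obtain ⟨β, hβ⟩ : ∃ β : ℝ, β = 2 / s ^ 2 := ⟨_, rfl⟩
  have hF : ∀ w : X d, ((4 - 10 * (2 / s ^ 2) * ⟪a, z + a - (z + (1 / 2 : ℝ) • (a + b) + w)⟫ -
        2 * (2 / s ^ 2) * ‖a‖ ^ 2 +
        4 * (2 / s ^ 2) ^ 2 * ⟪a, z + a - (z + (1 / 2 : ℝ) • (a + b) + w)⟫ ^ 2) *
        ga (2 / s ^ 2) (z + a - (z + (1 / 2 : ℝ) • (a + b) + w))) *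
      ((4 - 10 * (2 / s ^ 2) * ⟪b, z + b - (z + (1 / 2 : ℝ) • (a + b) + w)⟫ -
        2 * (2 / s ^ 2) * ‖b‖ ^ 2 +
        4 * (2 / s ^ 2) ^ 2 * ⟪b, z + b - (z + (1 / 2 : ℝ) • (a + b) + w)⟫ ^ 2) *
        ga (2 / s ^ 2) (z + b - (z + (1 / 2 : ℝ) • (a + b) + w))) =
      Real.exp (-(‖a - b‖ ^ 2 / s ^ 2)) * (ga (4 / s ^ 2) w *
        (((4 - 10 * β * ⟪a, h⟫ - 2 * β * ‖a‖ ^ 2 + 4 * β ^ 2 * ⟪a, h⟫ ^ 2) +
          (10 * β - 8 * β ^ 2 * ⟪a, h⟫) * ⟪w, a⟫ + 4 * β ^ 2 * ⟪w, a⟫ ^ 2) *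
        ((4 + 10 * β * ⟪b, h⟫ - 2 * β * ‖b‖ ^ 2 + 4 * β ^ 2 * ⟪b, h⟫ ^ 2) +
          (10 * β + 8 * β ^ 2 * ⟪b, h⟫) * ⟪w, b⟫ + 4 * β ^ 2 * ⟪w, b⟫ ^ 2))) := by
    intro w
    rw [e1, e2]
    have h1 : ((4 - 10 * (2 / s ^ 2) * ⟪a, h - w⟫ - 2 * (2 / s ^ 2) * ‖a‖ ^ 2 +
        4 * (2 / s ^ 2) ^ 2 * ⟪a, h - w⟫ ^ 2) * ga (2 / s ^ 2) (h - w)) *
        ((4 - 10 * (2 / s ^ 2) * ⟪b, -h - w⟫ - 2 * (2 / s ^ 2) * ‖b‖ ^ 2 +
        4 * (2 / s ^ 2) ^ 2 * ⟪b, -h - w⟫ ^ 2) * ga (2 / s ^ 2) (-h - w)) =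
        ((4 - 10 * (2 / s ^ 2) * ⟪a, h - w⟫ - 2 * (2 / s ^ 2) * ‖a‖ ^ 2 +
        4 * (2 / s ^ 2) ^ 2 * ⟪a, h - w⟫ ^ 2) *
        (4 - 10 * (2 / s ^ 2) * ⟪b, -h - w⟫ - 2 * (2 / s ^ 2) * ‖b‖ ^ 2 +
        4 * (2 / s ^ 2) ^ 2 * ⟪b, -h - w⟫ ^ 2)) *
          (ga (2 / s ^ 2) (h - w) * ga (2 / s ^ 2) (-h - w)) := by
      ring
    rw [h1, hga w, inner_sub_right, inner_sub_right, inner_neg_right, real_inner_comm w a,
      real_inner_comm w b, hβ]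
    ring
  simp only [hF]
  rw [integral_const_mul, R9PairB_quad hB, R9PairB_gc hs]
  have ha : ⟪a, h⟫ = ⟪a, a - b⟫ / 2 := by
    rw [hh, inner_smul_right]
    ring
  have hb : ⟪b, h⟫ = -(⟪b, b - a⟫ / 2) := by
    rw [hh, inner_smul_right, inner_sub_right, inner_sub_right]
    ring
  have hab : ‖a - b‖ ^ 2 = ⟪a, a - b⟫ + ⟪b, b - a⟫ := by
    rw [← real_inner_self_eq_norm_sq]
    simp only [inner_sub_left, inner_sub_right]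
    ring
  have haa : ‖a‖ ^ 2 = ⟪a, a - b⟫ + ⟪a, b⟫ := by
    rw [← real_inner_self_eq_norm_sq, inner_sub_right]
    ring
  have hbb : ‖b‖ ^ 2 = ⟪b, b - a⟫ + ⟪a, b⟫ := by
    rw [← real_inner_self_eq_norm_sq, inner_sub_right, real_inner_comm a b]
    ring
  have hs2 : s ^ 2 ≠ 0 := by positivity
  have hE := R9PairB_alg (s ^ 2) ⟪a, a - b⟫ ⟪b, b - a⟫ ⟪a, b⟫ hs2
  unfold mtb pr
  rw [ha, hb, haa, hbb, hβ, hE]
  have h4 : ‖a - b‖ ^ 4 = (⟪a, a - b⟫ + ⟪b, b - a⟫) ^ 2 := by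
    rw [← hab]
    ring
  rw [h4, hab]
  have p2 : (s ^ 2) ^ 2 = s ^ 4 := by ring
  have p3 : (s ^ 2) ^ 3 = s ^ 6 := by ring
  have p4 : (s ^ 2) ^ 4 = s ^ 8 := by ring
  rw [p2, p3, p4]
  ring

theorem gauss_pairB {s : ℝ} (hs : 0 < s) (z x x' : X d) :
    ∫ Y : X d, ek2 (2 / s ^ 2) z x Y * ek2 (2 / s ^ 2) z x' Y =
      s ^ d * gc d 4 * mtb (x - z) (x' - z) s := by
  rw [← R9PairB_aux hs (x - z) (x' - z) z]
  unfold ek2
  simp only [add_sub_cancel]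

end Pool.Agent.H48.R9
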