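import Pool.Agent.H48.R9.Defs

/-!
Template: R7/QdA.lean with 7 replaced by 9, 6 by 8.
-/

set_option autoImplicit false

open MeasureTheory Filter Topology Metric Set
open scoped RealInnerProductSpace ENNReal

namespace Pool.Agent.H48.R9

open Pool.Agent.RZ Pool.Agent.H1.LD Pool.Agent.H48.R7

variable {d : ℕ}

private theorem R9QdA_ga {t : ℝ} (ht : 0 < t) (β : ℝ) (v : X d) :
    ga (t ^ 2 * β) (t⁻¹ • v) = ga β v := by
  unfold ga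
  rw [norm_smul, Real.norm_of_nonneg (inv_nonneg.2 ht.le)]
  congr 2
  field_simp

theorem K9_scale (μ : Measure (X d)) {t : ℝ} (ht : 0 < t) (z : X d) {β : ℝ} (Y : X d) :
    K9 (blow 9 0 t μ) (t⁻¹ • z) (t ^ 2 * β) (t⁻¹ • Y) = t⁻¹ * K9 μ z β Y := by
  unfold K9
  rw [integral_blow 9 0 ht, ← integral_const_mul, ← integral_const_mul]
  congr 1
  funext x
  have h1 : t⁻¹ • (x - 0) - t⁻¹ • z = t⁻¹ • (x - z) := by
    rw [sub_zero, ← smul_sub]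
  have h2 : t⁻¹ • (x - 0) - t⁻¹ • Y = t⁻¹ • (x - Y) := by
    rw [sub_zero, ← smul_sub]
  have ht' : t ≠ 0 := ht.ne'
  unfold ek
  rw [h1, h2, R9QdA_ga ht, norm_smul, Real.norm_of_nonneg (inv_nonneg.2 ht.le), inner_smul_left,
    inner_smul_right]
  simp only [conj_trivial]
  have h3 : 2 * (t ^ 2 * β) * (t⁻¹ * (t⁻¹ * ⟪x - z, x - Y⟫)) = 2 * β * ⟪x - z, x - Y⟫ := by
    field_simp
  rw [h3, mul_inv, inv_inv, mul_pow]
  have h4 : t⁻¹ ^ 9 * t ^ 8 = t⁻¹ := by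
    field_simp
  calc t⁻¹ ^ 9 * (t ^ 8 * ‖x - z‖⁻¹ ^ 8 * ((1 - 2 * β * ⟪x - z, x - Y⟫) * ga β (x - Y)))
      = (t⁻¹ ^ 9 * t ^ 8) * (‖x - z‖⁻¹ ^ 8 * ((1 - 2 * β * ⟪x - z, x - Y⟫) * ga β (x - Y))) := by ring
    _ = _ := by rw [h4]

theorem Q9_scale (μ : Measure (X d)) {t : ℝ} (ht : 0 < t) (z : X d) {s : ℝ} (hs : 0 < s) :
    Q9 (blow 9 0 t μ) (t⁻¹ • z) s = Q9 μ z (t * s) := by
  unfold Q9
  have h1 : (2 : ℝ) / s ^ 2 = t ^ 2 * (2 / (t * s) ^ 2) := by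
    field_simp
  have h2 : ∀ Y : X d, ‖K9 (blow 9 0 t μ) (t⁻¹ • z) (2 / s ^ 2) Y‖ₑ ^ 2
      = ENNReal.ofReal (t⁻¹ ^ 2) * ‖K9 μ z (2 / (t * s) ^ 2) (t • Y)‖ₑ ^ 2 := by
    intro Y
    rw [h1]
    have := K9_scale μ ht z (β := 2 / (t * s) ^ 2) (t • Y)
    rw [smul_smul, inv_mul_cancel₀ ht.ne', one_smul] at this
    rw [this, enorm_mul, mul_pow]
    congr 1
    rw [Real.enorm_of_nonneg (inv_nonneg.2 ht.le), ENNReal.ofReal_pow (inv_nonneg.2 ht.le)]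
  simp_rw [h2]
  rw [lintegral_const_mul' _ _ ENNReal.ofReal_ne_top]
  have h3 : ∫⁻ Y : X d, ‖K9 μ z (2 / (t * s) ^ 2) (t • Y)‖ₑ ^ 2
      = ENNReal.ofReal ((t ^ d)⁻¹) * ∫⁻ Y : X d, ‖K9 μ z (2 / (t * s) ^ 2) Y‖ₑ ^ 2 := by
    have e := (Homeomorph.smulOfNeZero (α := X d) t ht.ne').measurableEmbedding.lintegral_map
      (μ := volume) (fun Y : X d => ‖K9 μ z (2 / (t * s) ^ 2) Y‖ₑ ^ 2)
    have e2 : (Homeomorph.smulOfNeZero (α := X d) t ht.ne' : X d → X d) = (t • ·) := rfl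
    rw [e2] at e
    rw [← e, Measure.map_addHaar_smul volume ht.ne', lintegral_smul_measure, smul_eq_mul]
    congr 2
    rw [finrank_euclideanSpace_fin, abs_of_nonneg (by positivity)]
  have hgc : 0 ≤ gc d 4 := integral_nonneg fun w => (Real.exp_pos _).le
  rw [h3, ← mul_assoc, ← mul_assoc, ← ENNReal.ofReal_mul (by positivity), ← ENNReal.ofReal_mul (by positivity)]
  congr 2
  rw [mul_pow, mul_inv, mul_inv, mul_inv, mul_inv]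
  ring

end Pool.Agent.H48.R9
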