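import Pool.Agent.H48.R9.QjD

/-!
Continuity, integrability and the square bound of the test function.
Template: R7/QjB.lean, with the power 6 replaced by 8 and 12 by 16 (|jn β p (p+w)| ≤ K (1+‖p‖)^8 (1+‖w‖)^8 ga 4 w).
-/

set_option autoImplicit false

open MeasureTheory Filter Topology Metric Set
open scoped RealInnerProductSpace ENNReal

namespace Pool.Agent.H48.R9

open Pool.Agent.RZ Pool.Agent.H1.LD Pool.Agent.H48.R7

variable {d : ℕ}

private theorem R9QjB_b_ge {β : ℝ} (h : 8 ≤ β) : 4 ≤ jb β := by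
  unfold jb
  rw [le_div_iff₀ (by linarith)]
  linarith

private theorem R9QjB_b_le {β : ℝ} (h : 8 ≤ β) : jb β ≤ 8 := by
  unfold jb
  rw [div_le_iff₀ (by linarith)]
  linarith

/-- bound for the polynomial factor, centred at `p` -/
private theorem R9QjB_q_le {β : ℝ} (h : 8 ≤ β) (p w : X d) :
    ‖jq β p (p + w)‖ ≤ 2 * ((1 + ‖p‖) * (1 + ‖w‖)) := by
  have h1 := R9QjB_b_ge h
  have h2 := R9QjB_b_le h
  have h3 : β ≠ 0 := by linarith
  have e : jq β p (p + w) = p + (β⁻¹ * (β + jb β)) • w := by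
    unfold jq
    have : (β + jb β) • (p + w) - jb β • p = β • p + (β + jb β) • w := by
      rw [smul_add, add_smul, add_smul]; abel
    rw [this, smul_add, smul_smul, smul_smul, inv_mul_cancel₀ h3, one_smul]
  have hκ : β⁻¹ * (β + jb β) ≤ 2 := by
    rw [inv_mul_le_iff₀ (by linarith)]
    linarith
  have hκ0 : 0 ≤ β⁻¹ * (β + jb β) := by positivity
  rw [e]
  have h4 := norm_add_le p ((β⁻¹ * (β + jb β)) • w)
  rw [norm_smul, Real.norm_eq_abs, abs_of_nonneg hκ0] at h4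
  have h5 : β⁻¹ * (β + jb β) * ‖w‖ ≤ 2 * ‖w‖ := mul_le_mul_of_nonneg_right hκ (norm_nonneg w)
  nlinarith [norm_nonneg p, norm_nonneg w]

private theorem R9QjB_s_le {β : ℝ} (h : 8 ≤ β) : js β ≤ 1 := by
  have h2 := R9QjB_b_le h
  unfold js
  rw [div_le_one (by positivity)]
  nlinarith

private theorem R9QjB_s_nonneg {β : ℝ} (h : 8 ≤ β) : 0 ≤ js β := by
  have h1 := R9QjB_b_ge h
  unfold js
  positivity

/-- constant of the bound of `jn` -/
private noncomputable def R9QjB_K (d : ℕ) : ℝ :=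
  (gc d 40)⁻¹ * (256 + 4 * (d + 6) * 64 + 6 * (d + 4) * (d + 6) * 16 + 4 * (d + 2) * (d + 4) * (d + 6) * 4 +
    d * (d + 2) * (d + 4) * (d + 6))

private theorem R9QjB_K_pos (d : ℕ) : 0 < R9QjB_K d := by
  have := gc_pos (d := d) (b := 40) (by norm_num)
  unfold R9QjB_K
  positivity

private theorem R9QjB_poly_le {q A s : ℝ} {e : ℝ} (he : 0 ≤ e) (hq0 : 0 ≤ q) (hq : q ≤ 2 * A)
    (hA : 1 ≤ A) (hs0 : 0 ≤ s) (hs : s ≤ 1) :
    |q ^ 8 - 4 * (e + 6) * s * q ^ 6 + 6 * (e + 4) * (e + 6) * s ^ 2 * q ^ 4 -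
      4 * (e + 2) * (e + 4) * (e + 6) * s ^ 3 * q ^ 2 + e * (e + 2) * (e + 4) * (e + 6) * s ^ 4| ≤
      (256 + 4 * (e + 6) * 64 + 6 * (e + 4) * (e + 6) * 16 + 4 * (e + 2) * (e + 4) * (e + 6) * 4 +
        e * (e + 2) * (e + 4) * (e + 6)) * A ^ 8 := by
  have h2 : q ^ 2 ≤ 4 * A ^ 8 := by
    calc q ^ 2 ≤ (2 * A) ^ 2 := pow_le_pow_left₀ hq0 hq 2
      _ = 4 * A ^ 2 := by ring
      _ ≤ 4 * A ^ 8 := by
        have := pow_le_pow_right₀ hA (show 2 ≤ 8 by norm_num)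
        linarith
  have h4 : q ^ 4 ≤ 16 * A ^ 8 := by
    calc q ^ 4 ≤ (2 * A) ^ 4 := pow_le_pow_left₀ hq0 hq 4
      _ = 16 * A ^ 4 := by ring
      _ ≤ 16 * A ^ 8 := by
        have := pow_le_pow_right₀ hA (show 4 ≤ 8 by norm_num)
        linarith
  have h6 : q ^ 6 ≤ 64 * A ^ 8 := by
    calc q ^ 6 ≤ (2 * A) ^ 6 := pow_le_pow_left₀ hq0 hq 6
      _ = 64 * A ^ 6 := by ring
      _ ≤ 64 * A ^ 8 := by
        have := pow_le_pow_right₀ hA (show 6 ≤ 8 by norm_num)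
        linarith
  have h8 : q ^ 8 ≤ 256 * A ^ 8 := by
    calc q ^ 8 ≤ (2 * A) ^ 8 := pow_le_pow_left₀ hq0 hq 8
      _ = 256 * A ^ 8 := by ring
  have hA8 : 1 ≤ A ^ 8 := one_le_pow₀ hA
  have hs2 : s ^ 2 ≤ 1 := pow_le_one₀ hs0 hs
  have hs3 : s ^ 3 ≤ 1 := pow_le_one₀ hs0 hs
  have hs4 : s ^ 4 ≤ 1 := pow_le_one₀ hs0 hs
  have t1 : |q ^ 8| ≤ 256 * A ^ 8 := by rw [abs_of_nonneg (by positivity)]; exact h8
  have t2 : |4 * (e + 6) * s * q ^ 6| ≤ 4 * (e + 6) * 64 * A ^ 8 := by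
    rw [abs_of_nonneg (by positivity)]
    calc 4 * (e + 6) * s * q ^ 6 ≤ 4 * (e + 6) * 1 * (64 * A ^ 8) := by gcongr
      _ = _ := by ring
  have t3 : |6 * (e + 4) * (e + 6) * s ^ 2 * q ^ 4| ≤ 6 * (e + 4) * (e + 6) * 16 * A ^ 8 := by
    rw [abs_of_nonneg (by positivity)]
    calc 6 * (e + 4) * (e + 6) * s ^ 2 * q ^ 4 ≤ 6 * (e + 4) * (e + 6) * 1 * (16 * A ^ 8) := by
          gcongr
      _ = _ := by ring
  have t4 : |4 * (e + 2) * (e + 4) * (e + 6) * s ^ 3 * q ^ 2| ≤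
      4 * (e + 2) * (e + 4) * (e + 6) * 4 * A ^ 8 := by
    rw [abs_of_nonneg (by positivity)]
    calc 4 * (e + 2) * (e + 4) * (e + 6) * s ^ 3 * q ^ 2 ≤
        4 * (e + 2) * (e + 4) * (e + 6) * 1 * (4 * A ^ 8) := by
          gcongr
      _ = _ := by ring
  have t5 : |e * (e + 2) * (e + 4) * (e + 6) * s ^ 4| ≤ e * (e + 2) * (e + 4) * (e + 6) * A ^ 8 := by
    rw [abs_of_nonneg (by positivity)]
    calc e * (e + 2) * (e + 4) * (e + 6) * s ^ 4 ≤ e * (e + 2) * (e + 4) * (e + 6) * A ^ 8 := by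
          gcongr
          linarith
      _ = _ := by ring
  have a1 := abs_add_le (q ^ 8 - 4 * (e + 6) * s * q ^ 6 + 6 * (e + 4) * (e + 6) * s ^ 2 * q ^ 4 -
      4 * (e + 2) * (e + 4) * (e + 6) * s ^ 3 * q ^ 2) (e * (e + 2) * (e + 4) * (e + 6) * s ^ 4)
  have a2 := abs_sub (q ^ 8 - 4 * (e + 6) * s * q ^ 6 + 6 * (e + 4) * (e + 6) * s ^ 2 * q ^ 4)
      (4 * (e + 2) * (e + 4) * (e + 6) * s ^ 3 * q ^ 2)
  have a3 := abs_add_le (q ^ 8 - 4 * (e + 6) * s * q ^ 6) (6 * (e + 4) * (e + 6) * s ^ 2 * q ^ 4)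
  have a4 := abs_sub (q ^ 8) (4 * (e + 6) * s * q ^ 6)
  have fin : (256 + 4 * (e + 6) * 64 + 6 * (e + 4) * (e + 6) * 16 + 4 * (e + 2) * (e + 4) * (e + 6) * 4 +
        e * (e + 2) * (e + 4) * (e + 6)) * A ^ 8 = 256 * A ^ 8 + 4 * (e + 6) * 64 * A ^ 8 +
        6 * (e + 4) * (e + 6) * 16 * A ^ 8 + 4 * (e + 2) * (e + 4) * (e + 6) * 4 * A ^ 8 +
        e * (e + 2) * (e + 4) * (e + 6) * A ^ 8 := by ring
  rw [fin]
  linarith

private theorem R9QjB_m_le {β : ℝ} (h : 8 ≤ β) (h' : β ≤ 32) (p w : X d) :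
    |jn β p (p + w)| ≤ R9QjB_K d * ((1 + ‖p‖) ^ 8 * ((1 + ‖w‖) ^ 8 * ga 4 w)) := by
  have h1 := R9QjB_b_ge h
  have h2 := R9QjB_b_le h
  have hq := R9QjB_q_le h p w
  have hs := R9QjB_s_le h
  have hs0 := R9QjB_s_nonneg h
  have hg40 := gc_pos (d := d) (b := 40) (by norm_num)
  have hg : gc d 40 ≤ gc d (β + jb β) := by
    unfold gc
    refine integral_mono ?_ ?_ fun w => ga_anti (by linarith) w
    · simpa using ga_integrable (d := d) (b := 40) (by norm_num) 0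
    · simpa using ga_integrable (d := d) (b := β + jb β) (by linarith) 0
  have hgi : (gc d (β + jb β))⁻¹ ≤ (gc d 40)⁻¹ := inv_anti₀ hg40 hg
  have hgp : 0 < gc d (β + jb β) := lt_of_lt_of_le hg40 hg
  set A : ℝ := (1 + ‖p‖) * (1 + ‖w‖) with hA
  have hA1 : 1 ≤ A := by
    rw [hA]; nlinarith [norm_nonneg p, norm_nonneg w, mul_nonneg (norm_nonneg p) (norm_nonneg w)]
  have hP := R9QjB_poly_le (e := (d : ℝ)) (by positivity) (norm_nonneg (jq β p (p + w))) hq hA1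
    hs0 hs
  have hga : ga (jb β) w ≤ ga 4 w := ga_anti h1 w
  unfold jn
  rw [abs_mul, abs_mul, abs_of_pos (ga_pos _ _), abs_of_pos (inv_pos.2 hgp),
    add_sub_cancel_left]
  refine (mul_le_mul (mul_le_mul hgi hP (abs_nonneg _) (by positivity)) hga (ga_nonneg _ _)
    (by positivity)).trans (le_of_eq ?_)
  rw [hA]
  unfold R9QjB_K
  ring

private theorem R9QjB_q_cont (β : ℝ) (p : X d) : Continuous (jq β p) := by
  unfold jq; fun_prop

theorem jn_cont (β : ℝ) (p : X d) : Continuous (jn β p) := by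
  have h1 := R9QjB_q_cont β p
  unfold jn
  have h2 : Continuous fun Y : X d => ga (jb β) (Y - p) :=
    (ga_continuous _).comp (continuous_id.sub continuous_const)
  fun_prop

theorem jn_int {β : ℝ} (h : 8 ≤ β) (h' : β ≤ 32) (p : X d) :
    Integrable (fun Y : X d => jn β p Y) := by
  have h1 : Integrable (fun w : X d => jn β p (p + w)) := by
    refine Integrable.mono' (((ga_integrable (d := d) (b := 4) (by norm_num) 8).const_mul
      ((1 + ‖p‖) ^ 8)).const_mul (R9QjB_K d)) ?_ (Eventually.of_forall fun w => ?_)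
    · exact ((jn_cont β p).comp (by fun_prop)).aestronglyMeasurable
    · rw [Real.norm_eq_abs]
      exact R9QjB_m_le h h' p w
  have h2 := h1.comp_add_left (-p)
  simpa only [add_neg_cancel_left] using h2

/-- the Gaussian moment of the bound -/
private noncomputable def R9QjB_I (d : ℕ) : ℝ := ∫ w : X d, (1 + ‖w‖) ^ 16 * ga 8 w

theorem jn_sq (d : ℕ) : ∃ C : ℝ, 0 < C ∧ ∀ β : ℝ, 8 ≤ β → β ≤ 32 → ∀ p : X d,
    ∫⁻ Y : X d, ‖jn β p Y‖ₑ ^ 2 ≤ ENNReal.ofReal (C * (1 + ‖p‖) ^ 16) := by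
  have hK := R9QjB_K_pos d
  have hI0 : 0 ≤ R9QjB_I d := by
    unfold R9QjB_I
    refine integral_nonneg fun w => ?_
    have := ga_nonneg 8 w
    positivity
  refine ⟨R9QjB_K d ^ 2 * R9QjB_I d + 1, by positivity, fun β h h' p => ?_⟩
  have hI := ga_integrable (d := d) (b := 8) (by norm_num) 16
  have hpt : ∀ w : X d, ‖jn β p (p + w)‖ₑ ^ 2 ≤
      ENNReal.ofReal (R9QjB_K d ^ 2 * (1 + ‖p‖) ^ 16 * ((1 + ‖w‖) ^ 16 * ga 8 w)) := by
    intro w
    rw [← ofReal_norm, ← ENNReal.ofReal_pow (norm_nonneg _), Real.norm_eq_abs]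
    refine ENNReal.ofReal_le_ofReal ?_
    calc |jn β p (p + w)| ^ 2
        ≤ (R9QjB_K d * ((1 + ‖p‖) ^ 8 * ((1 + ‖w‖) ^ 8 * ga 4 w))) ^ 2 :=
          pow_le_pow_left₀ (abs_nonneg _) (R9QjB_m_le h h' p w) 2
      _ = R9QjB_K d ^ 2 * (1 + ‖p‖) ^ 16 * ((1 + ‖w‖) ^ 16 * (ga 4 w * ga 4 w)) := by ring
      _ = _ := by rw [ga_mul]; norm_num
  calc ∫⁻ Y : X d, ‖jn β p Y‖ₑ ^ 2 = ∫⁻ w : X d, ‖jn β p (p + w)‖ₑ ^ 2 :=
        (lintegral_add_left_eq_self (μ := (volume : Measure (X d)))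
          (fun Y => ‖jn β p Y‖ₑ ^ 2) p).symm
    _ ≤ ∫⁻ w : X d, ENNReal.ofReal (R9QjB_K d ^ 2 * (1 + ‖p‖) ^ 16 *
          ((1 + ‖w‖) ^ 16 * ga 8 w)) := lintegral_mono hpt
    _ = ENNReal.ofReal (∫ w : X d, R9QjB_K d ^ 2 * (1 + ‖p‖) ^ 16 *
          ((1 + ‖w‖) ^ 16 * ga 8 w)) := by
        rw [ofReal_integral_eq_lintegral_ofReal (hI.const_mul _)]
        refine Eventually.of_forall fun w => ?_
        have := ga_nonneg 8 w
        simp only [Pi.zero_apply]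
        positivity
    _ = ENNReal.ofReal (R9QjB_K d ^ 2 * R9QjB_I d * (1 + ‖p‖) ^ 16) := by
        rw [integral_const_mul]
        congr 1
        unfold R9QjB_I
        ring
    _ ≤ ENNReal.ofReal ((R9QjB_K d ^ 2 * R9QjB_I d + 1) * (1 + ‖p‖) ^ 16) := by
        refine ENNReal.ofReal_le_ofReal ?_
        gcongr
        linarith

end Pool.Agent.H48.R9
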