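import Pool.Agent.H48.R9.QjA
import Pool.Agent.H48.R9.QjB

/-!
jn_ker.  Template: R7/QjK.lean (6 replaced by 8, 7 by 9).
-/

set_option autoImplicit false

open MeasureTheory Filter Topology Metric Set
open scoped RealInnerProductSpace ENNReal

namespace Pool.Agent.H48.R9

open Pool.Agent.RZ Pool.Agent.H1.LD Pool.Agent.H48.R7

variable {d : ℕ}

/-- the Gaussian absorbs one power -/
private theorem R9QjK_one {β : ℝ} (h : 8 ≤ β) (v : X d) : ‖v‖ * ga β v ≤ 1 := by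
  unfold ga
  have h1 : β * ‖v‖ ^ 2 + 1 ≤ Real.exp (β * ‖v‖ ^ 2) := Real.add_one_le_exp _
  have h2 : ‖v‖ ≤ β * ‖v‖ ^ 2 + 1 := by nlinarith [sq_nonneg (‖v‖ - 1), sq_nonneg ‖v‖]
  rw [Real.exp_neg, ← div_eq_mul_inv, div_le_one (Real.exp_pos _)]
  exact h2.trans h1

/-- the derivative under the integral -/
private theorem R9QjK_der {β : ℝ} (h : 8 ≤ β) (h' : β ≤ 32) (u p : X d) :
    Integrable (fun Y : X d => (-(2 * β) * ⟪u, u - Y⟫) * ga β (u - Y) * jn β p Y) ∧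
    Integrable (fun Y : X d => ga β (u - Y) * jn β p Y) ∧
    ∫ Y : X d, (-(2 * β) * ⟪u, u - Y⟫) * ga β (u - Y) * jn β p Y =
      (8 - 8 * ⟪u, u - p⟫) * ga 4 (u - p) * ‖u‖ ^ 8 := by
  have hm := jn_int h h' p
  have hmc := jn_cont β p
  have hder : ∀ (Y : X d) (t : ℝ), HasDerivAt (fun t : ℝ => ga β (t • u - Y) * jn β p Y)
      ((-(2 * β) * ⟪u, t • u - Y⟫) * ga β (t • u - Y) * jn β p Y) t := by
    intro Y t
    have h1 : HasDerivAt (fun t : ℝ => t • u - Y) u t := by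
      simpa using ((hasDerivAt_id t).smul_const u).sub_const Y
    have h2 : HasDerivAt (fun t : ℝ => ‖t • u - Y‖ ^ 2) (2 * ⟪t • u - Y, u⟫) t := h1.norm_sq
    have h3 : HasDerivAt (fun t : ℝ => ga β (t • u - Y))
        (Real.exp (-(β * ‖t • u - Y‖ ^ 2)) * (-(β * (2 * ⟪t • u - Y, u⟫)))) t :=
      ((h2.const_mul β).neg).exp
    have h4 := h3.mul_const (jn β p Y)
    refine h4.congr_deriv ?_
    unfold ga
    rw [real_inner_comm u (t • u - Y)]
    ring
  have hint : Integrable (fun Y : X d => ga β (u - Y) * jn β p Y) := by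
    refine Integrable.mono' hm.norm ?_ (Eventually.of_forall fun Y => ?_)
    · have : Continuous fun Y : X d => ga β (u - Y) :=
        (ga_continuous _).comp (by fun_prop)
      exact Continuous.aestronglyMeasurable (by fun_prop)
    · rw [Real.norm_eq_abs, abs_mul, abs_of_pos (ga_pos _ _)]
      calc ga β (u - Y) * |jn β p Y| ≤ 1 * ‖jn β p Y‖ :=
            mul_le_mul (ga_le_one (by linarith) _) le_rfl (abs_nonneg _) zero_le_one
        _ = ‖jn β p Y‖ := one_mul _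
  have key := hasDerivAt_integral_of_dominated_loc_of_deriv_le (μ := (volume : Measure (X d)))
    (F := fun (t : ℝ) (Y : X d) => ga β (t • u - Y) * jn β p Y)
    (F' := fun (t : ℝ) (Y : X d) => (-(2 * β) * ⟪u, t • u - Y⟫) * ga β (t • u - Y) * jn β p Y)
    (x₀ := (1 : ℝ)) (s := univ)
    (bound := fun Y : X d => (2 * β * ‖u‖) * ‖jn β p Y‖) univ_mem
    (Eventually.of_forall fun t => by
      have : Continuous fun Y : X d => ga β (t • u - Y) :=
        (ga_continuous _).comp (by fun_prop)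
      exact Continuous.aestronglyMeasurable (by fun_prop))
    (by simpa only [one_smul] using hint)
    (by
      have : Continuous fun Y : X d => ga β ((1 : ℝ) • u - Y) :=
        (ga_continuous _).comp (by fun_prop)
      exact Continuous.aestronglyMeasurable (by fun_prop))
    (Eventually.of_forall fun Y t _ => by
      rw [Real.norm_eq_abs, abs_mul, abs_mul, abs_mul, abs_of_pos (ga_pos _ _), abs_neg,
        abs_of_pos (by linarith : (0 : ℝ) < 2 * β)]
      refine mul_le_mul ?_ le_rfl (abs_nonneg _) (by positivity)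
      have h1 := abs_real_inner_le_norm u (t • u - Y)
      have h2 := R9QjK_one h (t • u - Y)
      calc 2 * β * |⟪u, t • u - Y⟫| * ga β (t • u - Y)
          ≤ 2 * β * (‖u‖ * ‖t • u - Y‖) * ga β (t • u - Y) := by
            refine mul_le_mul_of_nonneg_right ?_ (ga_nonneg _ _)
            exact mul_le_mul_of_nonneg_left h1 (by linarith)
        _ = 2 * β * ‖u‖ * (‖t • u - Y‖ * ga β (t • u - Y)) := by ring
        _ ≤ 2 * β * ‖u‖ * 1 := mul_le_mul_of_nonneg_left h2 (by positivity)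
        _ = 2 * β * ‖u‖ := mul_one _)
    (hm.norm.const_mul (2 * β * ‖u‖))
    (Eventually.of_forall fun Y t _ => hder Y t)
  have h0 := key.1
  have h1 := key.2
  simp only [one_smul] at h0 h1
  refine ⟨h0, hint, ?_⟩
  have h2 : (fun t : ℝ => ∫ Y : X d, ga β (t • u - Y) * jn β p Y) =
      fun t : ℝ => (t ^ 8 * ‖u‖ ^ 8) * ga 4 (t • u - p) := by
    funext t
    rw [jn_mom h (t • u) p, norm_smul, Real.norm_eq_abs, mul_pow,
      show |t| ^ 8 = t ^ 8 from Even.pow_abs (by decide) t]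
  rw [h2] at h1
  have h3 : HasDerivAt (fun t : ℝ => (t ^ 8 * ‖u‖ ^ 8) * ga 4 (t • u - p))
      ((8 * 1 ^ 7 * ‖u‖ ^ 8) * ga 4 ((1 : ℝ) • u - p) + (1 ^ 8 * ‖u‖ ^ 8) *
        (Real.exp (-(4 * ‖(1 : ℝ) • u - p‖ ^ 2)) * (-(4 * (2 * ⟪(1 : ℝ) • u - p, u⟫))))) 1 := by
    have h4 : HasDerivAt (fun t : ℝ => t • u - p) u 1 := by
      simpa using ((hasDerivAt_id (1 : ℝ)).smul_const u).sub_const p
    have h5 : HasDerivAt (fun t : ℝ => ‖t • u - p‖ ^ 2) (2 * ⟪(1 : ℝ) • u - p, u⟫) 1 :=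
      h4.norm_sq
    have h6 : HasDerivAt (fun t : ℝ => ga 4 (t • u - p))
        (Real.exp (-(4 * ‖(1 : ℝ) • u - p‖ ^ 2)) * (-(4 * (2 * ⟪(1 : ℝ) • u - p, u⟫)))) 1 :=
      ((h5.const_mul 4).neg).exp
    have h7 : HasDerivAt (fun t : ℝ => t ^ 8 * ‖u‖ ^ 8) (8 * 1 ^ 7 * ‖u‖ ^ 8) 1 := by
      simpa using (hasDerivAt_pow 8 (1 : ℝ)).mul_const (‖u‖ ^ 8)
    exact h7.mul h6
  rw [h1.unique h3]
  unfold ga
  rw [one_smul, real_inner_comm u (u - p)]
  ring

theorem jn_ker {β : ℝ} (h : 8 ≤ β) (h' : β ≤ 32) (u p : X d) :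
    ∫ Y : X d, (1 - 2 * β * ⟪u, u - Y⟫) * ga β (u - Y) * jn β p Y =
      (9 - 8 * ⟪u, u - p⟫) * ga 4 (u - p) * ‖u‖ ^ 8 := by
  obtain ⟨i1, i2, e⟩ := R9QjK_der h h' u p
  have e1 : ∀ Y : X d, (1 - 2 * β * ⟪u, u - Y⟫) * ga β (u - Y) * jn β p Y =
      (-(2 * β) * ⟪u, u - Y⟫) * ga β (u - Y) * jn β p Y + ga β (u - Y) * jn β p Y := by
    intro Y
    ring
  rw [integral_congr_ae (Eventually.of_forall e1), integral_add i1 i2, e, jn_mom h u p]
  ring

end Pool.Agent.H48.R9
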