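import Pool.Agent.H48.R9.Fat
import Pool.Agent.H48.R9.Qj
import Pool.Agent.H48.R9.QdA
import Pool.Agent.H1.LD.Thr

/-!
dich_nine.  Template: dich_three in Pool/Agent/H1/LD/Thr.lean (window with Q = Q9 μ, K = 8).
-/

set_option autoImplicit false

open MeasureTheory Filter Topology Metric Set
open scoped RealInnerProductSpace ENNReal

namespace Pool.Agent.H48.R9

open Pool.Agent.RZ Pool.Agent.H1.LD Pool.Agent.H48.R7

variable {d : ℕ}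

theorem dich_nine (hd : 10 ≤ d) {μ : Measure (X d)} [IsFiniteMeasure μ] {C₀ : ℝ}
    (hC₀ : 0 ≤ C₀) (hg : Gr 9 C₀ μ) (hE : En 9 μ) : Dich 9 μ := by
  obtain ⟨C, hC, hJ⟩ := J_le_Q9 d
  have hfin := carleson_nine hd hC₀ hg hE
  have hfin1 : ∫⁻ z, (∫⁻ t in Ioc (0 : ℝ) 1, Q9 μ z t * ENNReal.ofReal t⁻¹) ∂μ < ⊤ :=
    lt_of_le_of_lt (lintegral_mono fun z => lintegral_mono_set Ioc_subset_Ioi_self) hfin
  have hJ' : ∀ z : X d, ∀ t : ℝ, 0 < t → t ≤ 1 → ∀ y : X d, ∀ s : ℝ, t / 4 ≤ s → s ≤ t / 2 →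
      ENNReal.ofReal (Jf 9 (blow 9 0 t μ) 4 (t⁻¹ • z) y ^ 2) ≤
        ENNReal.ofReal (C * (1 + ‖y - t⁻¹ • z‖) ^ (2 * 8)) * Q9 μ z s := by
    intro z t ht _ y s hs1 hs2
    have hs : 0 < s := by linarith
    have h1 := hJ (blow 9 0 t μ) C₀ (blow_finite ht) hC₀ (hg.blow 0 ht) (t⁻¹ • z) y (s / t)
      (by rw [div_le_div_iff₀ (by norm_num) ht]; linarith)
      (by rw [div_le_div_iff₀ ht (by norm_num)]; linarith)
    rw [Q9_scale μ ht z (by positivity), mul_div_cancel₀ s ht.ne'] at h1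
    exact h1
  obtain ⟨S, D, Ds, h⟩ := window (n := 9) (K := 8) (μ := μ) (Q9 μ) (Q9_measurable μ) hfin1 hC hJ'
  exact dich_of_Dy hC₀ hg h

end Pool.Agent.H48.R9
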