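import Pool.Agent.H48.R9.TimA

/-!
mtb_int: mtb a b t * t⁻⁵ = [16 t⁻⁵ + (34p - 48C) t⁻⁷ + (12p² + 112S - 16Cp + 16C²) t⁻⁹ + (48Sp - 48CS - 8C²p) t⁻¹¹ +
16S² t⁻¹³] e^{-C/t²}, C = ‖a-b‖² = c², p = ⟪a,b⟫, S = pr a b; time_gen with m = 1..5 gives 1/(2c⁴), 1/c⁶, 3/c⁸, 12/c¹⁰,
60/c¹².  Bound: every term is at most a multiple of c⁻⁴, ‖a‖‖b‖c⁻⁶ or ‖a‖²‖b‖²c⁻⁸ (|p| ≤ ‖a‖‖b‖, |S| ≤ ‖a‖‖b‖c²): the
sums of the coefficients are 8 + 48 + 48 = 104; 34 + 336 + 48 + 576 + 96 = 1090; 36 + 576 + 960 = 1572.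
-/

set_option autoImplicit false

open MeasureTheory Filter Topology Metric Set
open scoped RealInnerProductSpace ENNReal

namespace Pool.Agent.H48.R9

open Pool.Agent.RZ Pool.Agent.H1.LD Pool.Agent.H48.R7

variable {d : ℕ}

/-- five nonnegative functions: the linear combination -/
private theorem R9TimB_lin {f : ℝ → ℝ} {G : ℕ → ℝ → ℝ} {I : ℕ → ℝ} {X : ℕ → ℝ}
    (h : ∀ i, IntegrableOn (G i) (Ioi 0)) (e : ∀ i, ∫ t in Ioi (0 : ℝ), G i t = I i)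
    (n : ∀ i, ∀ t : ℝ, 0 < t → 0 ≤ G i t) (N : ℕ)
    (key : ∀ t : ℝ, 0 < t → f t = ∑ i ∈ Finset.range N, X i * G i t) :
    IntegrableOn f (Ioi 0) ∧ ∫ t in Ioi (0 : ℝ), f t = ∑ i ∈ Finset.range N, X i * I i ∧
    ∫ t in Ioi (0 : ℝ), |f t| ≤ ∑ i ∈ Finset.range N, |X i| * I i := by
  have A : ∀ Y : ℕ → ℝ, IntegrableOn (fun t : ℝ => ∑ i ∈ Finset.range N, Y i * G i t) (Ioi 0) :=
    fun Y => integrable_finsetSum _ (fun i _ => (h i).const_mul (Y i))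
  have B : ∀ Y : ℕ → ℝ, ∫ t in Ioi (0 : ℝ), (∑ i ∈ Finset.range N, Y i * G i t) =
      ∑ i ∈ Finset.range N, Y i * I i := by
    intro Y
    rw [integral_finsetSum _ (fun i _ => (h i).const_mul (Y i))]
    refine Finset.sum_congr rfl (fun i _ => ?_)
    rw [integral_const_mul, e]
  have J : IntegrableOn f (Ioi 0) :=
    (A X).congr_fun (fun t ht => (key t ht).symm) measurableSet_Ioi
  refine ⟨J, ?_, ?_⟩
  · rw [setIntegral_congr_fun measurableSet_Ioi (fun t ht => key t ht), B]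
  · rw [← B (fun i => |X i|)]
    refine setIntegral_mono_on J.abs (A _) measurableSet_Ioi (fun t ht => ?_)
    have ht' : 0 < t := ht
    rw [key t ht']
    refine (Finset.abs_sum_le_sum_abs _ _).trans (le_of_eq ?_)
    refine Finset.sum_congr rfl (fun i _ => ?_)
    rw [abs_mul, abs_of_nonneg (n i t ht')]

/-- bounds for the inner products -/
private theorem R9TimB_bd (a b : X d) :
    |⟪a, b⟫| ≤ ‖a‖ * ‖b‖ ∧ |pr a b| ≤ (‖a‖ * ‖b‖) * ‖a - b‖ ^ 2 := by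
  refine ⟨abs_real_inner_le_norm a b, ?_⟩
  have h1 : |⟪a, a - b⟫| ≤ ‖a‖ * ‖a - b‖ := abs_real_inner_le_norm a (a - b)
  have h2 : |⟪b, b - a⟫| ≤ ‖b‖ * ‖a - b‖ := by
    have := abs_real_inner_le_norm b (b - a)
    rwa [norm_sub_rev b a] at this
  rw [pr, abs_mul]
  calc |⟪a, a - b⟫| * |⟪b, b - a⟫| ≤ (‖a‖ * ‖a - b‖) * (‖b‖ * ‖a - b‖) := by gcongr
    _ = (‖a‖ * ‖b‖) * ‖a - b‖ ^ 2 := by ring

/-- the scalar inequality -/
private theorem R9TimB_ineq {c p q M : ℝ} (hc : 0 < c) (hM : 0 ≤ M) (hp : |p| ≤ M)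
    (hq : |q| ≤ M * c ^ 2) :
    |(16 : ℝ)| * (1 / (2 * c ^ 4)) + |34 * p - 48 * c ^ 2| * (1 / c ^ 6) +
      |12 * p ^ 2 + 112 * q - 16 * c ^ 2 * p + 16 * c ^ 4| * (3 / c ^ 8) +
      |48 * q * p - 48 * c ^ 2 * q - 8 * c ^ 4 * p| * (12 / c ^ 10) +
      |16 * q ^ 2| * (60 / c ^ 12) ≤
      104 * c⁻¹ ^ 4 + 1090 * M * c⁻¹ ^ 6 + 1572 * M ^ 2 * c⁻¹ ^ 8 := by
  have hp1 := (abs_le.1 hp).1
  have hp2 := (abs_le.1 hp).2
  have hq1 := (abs_le.1 hq).1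
  have hq2 := (abs_le.1 hq).2
  have hc2 : 0 < c ^ 2 := by positivity
  have hp3 : p ^ 2 ≤ M ^ 2 := sq_le_sq' hp1 hp2
  have hq3 : q ^ 2 ≤ (M * c ^ 2) ^ 2 := sq_le_sq' hq1 hq2
  have hqp : |q * p| ≤ (M * c ^ 2) * M := by
    rw [abs_mul]
    exact mul_le_mul hq hp (abs_nonneg _) (by positivity)
  have hcp : |c ^ 2 * p| ≤ c ^ 2 * M := by
    rw [abs_mul, abs_of_pos hc2]
    exact mul_le_mul_of_nonneg_left hp hc2.le
  have hc4p : |c ^ 4 * p| ≤ c ^ 4 * M := by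
    rw [abs_mul, abs_of_pos (show (0 : ℝ) < c ^ 4 by positivity)]
    exact mul_le_mul_of_nonneg_left hp (by positivity)
  have hcq : |c ^ 2 * q| ≤ c ^ 2 * (M * c ^ 2) := by
    rw [abs_mul, abs_of_pos hc2]
    exact mul_le_mul_of_nonneg_left hq hc2.le
  obtain ⟨a1, a2⟩ := abs_le.1 hqp
  obtain ⟨b1, b2⟩ := abs_le.1 hcp
  obtain ⟨c1, c2⟩ := abs_le.1 hc4p
  obtain ⟨d1, d2⟩ := abs_le.1 hcq
  have hc4 : 0 < c ^ 4 := by positivity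
  have k1 : |(16 : ℝ)| = 16 := abs_of_pos (by norm_num)
  have k2 : |34 * p - 48 * c ^ 2| ≤ 34 * M + 48 * c ^ 2 := by
    rw [abs_le]; constructor <;> nlinarith
  have k3 : |12 * p ^ 2 + 112 * q - 16 * c ^ 2 * p + 16 * c ^ 4| ≤
      12 * M ^ 2 + 128 * (M * c ^ 2) + 16 * c ^ 4 := by
    have := sq_nonneg p
    rw [abs_le]; constructor <;> nlinarith
  have k4 : |48 * q * p - 48 * c ^ 2 * q - 8 * c ^ 4 * p| ≤
      48 * (M ^ 2 * c ^ 2) + 56 * (M * c ^ 4) := by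
    rw [abs_le]; constructor <;> nlinarith
  have k5 : |16 * q ^ 2| ≤ 16 * (M ^ 2 * c ^ 4) := by
    rw [abs_of_nonneg (by positivity)]
    nlinarith
  calc |(16 : ℝ)| * (1 / (2 * c ^ 4)) + |34 * p - 48 * c ^ 2| * (1 / c ^ 6) +
      |12 * p ^ 2 + 112 * q - 16 * c ^ 2 * p + 16 * c ^ 4| * (3 / c ^ 8) +
      |48 * q * p - 48 * c ^ 2 * q - 8 * c ^ 4 * p| * (12 / c ^ 10) +
      |16 * q ^ 2| * (60 / c ^ 12)
      ≤ 16 * (1 / (2 * c ^ 4)) + (34 * M + 48 * c ^ 2) * (1 / c ^ 6) +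
        (12 * M ^ 2 + 128 * (M * c ^ 2) + 16 * c ^ 4) * (3 / c ^ 8) +
        (48 * (M ^ 2 * c ^ 2) + 56 * (M * c ^ 4)) * (12 / c ^ 10) +
        16 * (M ^ 2 * c ^ 4) * (60 / c ^ 12) := by
        rw [k1]
        gcongr
    _ = 104 * c⁻¹ ^ 4 + 1090 * M * c⁻¹ ^ 6 + 1572 * M ^ 2 * c⁻¹ ^ 8 := by
        field_simp
        ring

theorem mtb_int {a b : X d} (h : a ≠ b) :
    IntegrableOn (fun t : ℝ => mtb a b t * t⁻¹ ^ 5) (Ioi 0) ∧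
    ∫ t in Ioi (0 : ℝ), mtb a b t * t⁻¹ ^ 5 = j2 a b ∧
    ∫ t in Ioi (0 : ℝ), |mtb a b t * t⁻¹ ^ 5| ≤
      104 * ‖a - b‖⁻¹ ^ 4 + 1090 * (‖a‖ * ‖b‖) * ‖a - b‖⁻¹ ^ 6 +
        1572 * (‖a‖ * ‖b‖) ^ 2 * ‖a - b‖⁻¹ ^ 8 := by
  have hc : 0 < ‖a - b‖ := norm_pos_iff.2 (sub_ne_zero.2 h)
  obtain ⟨hpb, hqb⟩ := R9TimB_bd a b
  set c := ‖a - b‖ with hcd
  set p : ℝ := ⟪a, b⟫ with hp
  set q : ℝ := pr a b with hq
  set M : ℝ := ‖a‖ * ‖b‖ with hM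
  have hM0 : 0 ≤ M := by positivity
  have hc0 : c ≠ 0 := hc.ne'
  let X' : ℕ → ℝ := fun i => match i with
    | 0 => 16
    | 1 => 34 * p - 48 * c ^ 2
    | 2 => 12 * p ^ 2 + 112 * q - 16 * c ^ 2 * p + 16 * c ^ 4
    | 3 => 48 * q * p - 48 * c ^ 2 * q - 8 * c ^ 4 * p
    | _ => 16 * q ^ 2
  have key : ∀ t : ℝ, 0 < t → mtb a b t * t⁻¹ ^ 5 =
      ∑ i ∈ Finset.range 5, X' i * (t⁻¹ ^ (2 * (i + 1) + 3) * Real.exp (-(c ^ 2 / t ^ 2))) := by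
    intro t _
    simp only [Finset.sum_range_succ, Finset.sum_range_zero, X']
    simp only [mtb, ← hcd, ← hp, ← hq]
    simp only [div_eq_mul_inv, inv_pow]
    ring
  obtain ⟨r1, r2, r3⟩ := R9TimB_lin (f := fun t => mtb a b t * t⁻¹ ^ 5)
    (G := fun i t => t⁻¹ ^ (2 * (i + 1) + 3) * Real.exp (-(c ^ 2 / t ^ 2)))
    (I := fun i => ((i + 1).factorial : ℝ) / (2 * c ^ (2 * (i + 1) + 2))) (X := X')
    (fun i => (time_gen hc (i + 1)).1) (fun i => (time_gen hc (i + 1)).2)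
    (fun i t ht => by positivity) 5 key
  have f0 : ((0 + 1).factorial : ℝ) / (2 * c ^ (2 * (0 + 1) + 2)) = 1 / (2 * c ^ 4) := by
    norm_num [Nat.factorial]
  have f1 : ((1 + 1).factorial : ℝ) / (2 * c ^ (2 * (1 + 1) + 2)) = 1 / c ^ 6 := by
    norm_num [Nat.factorial]
    field_simp
  have f2 : ((2 + 1).factorial : ℝ) / (2 * c ^ (2 * (2 + 1) + 2)) = 3 / c ^ 8 := by
    norm_num [Nat.factorial]
    field_simp
    norm_num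
  have f3 : ((3 + 1).factorial : ℝ) / (2 * c ^ (2 * (3 + 1) + 2)) = 12 / c ^ 10 := by
    norm_num [Nat.factorial]
    field_simp
    norm_num
  have f4 : ((4 + 1).factorial : ℝ) / (2 * c ^ (2 * (4 + 1) + 2)) = 60 / c ^ 12 := by
    norm_num [Nat.factorial]
    field_simp
    norm_num
  refine ⟨r1, ?_, ?_⟩
  · rw [r2]
    simp only [Finset.sum_range_succ, Finset.sum_range_zero, X', f0, f1, f2, f3, f4]
    simp only [j2, ← hcd, ← hp, ← hq]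
    field_simp
    ring
  · refine r3.trans ?_
    simp only [Finset.sum_range_succ, Finset.sum_range_zero, X', f0, f1, f2, f3, f4, zero_add]
    exact R9TimB_ineq hc hM0 hpb hqb

end Pool.Agent.H48.R9
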